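import Pool.Agent.H31.NA.GF

set_option autoImplicit false

/-!
# Row GK (MP_b319aa_NA, block G): geodesics gmf

PROOFS.
* gmf_gen: unfold gmf: gmf = mkn F B (fun i => (1-t) al (B i) + t be (B i)) =: m with B the chosen basis (a common basis).  Let m' := mkn F b (fun i => (1-t) al (b i) + t be (b i)).
  Claim m = m'; then the statement follows from GC.mkn_spl, mkn_bas.  For any common basis e, any x ≠ 0 and i with x_i ≠ 0:
  v x_i + (1-t) al (e i) + t be (e i) = (1-t) (v x_i + al (e i)) + t (v x_i + be (e i)) ≥ (1-t) al x + t be x (as 0 ≤ t ≤ 1), so mkn F e (..) x ≥ (1-t) al x + t be x.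
  Hence m (b i) ≥ (1-t) al (b i) + t be (b i) = m' (b i) for all i, so by GB.spl_le (b splits m', m is a norm, C = 0) m' x ≤ m x for x ≠ 0; symmetric; m 0 = m' 0 = 0.
* gmf_ge: same computation.  gmf_zero, gmf_one: gmf_gen with t = 0 or 1 and GB.spl_ext.  gmf_nrm0: gmf al be t 0 = 0: mkn_zero, or al 0 = 0.
* gm_sn: unfold gmf; mkn_sn, or al.
* gmf_trl: the propositions (fun b => Spl F b (trl al c) ∧ Spl F b (trl be c')) and (fun b => Spl F b al ∧ Spl F b be) are equal (funext, propext, GC.trl_spl_iff), so the chosen bases are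
  equal; both sides are split by that basis B: values (1-t) (al (B i) + c) + t (be (B i) + c') on both sides; GB.spl_ext (or compare mkn directly: mkn F B (c_i + d) = trl (mkn F B c_i) d).
  In detail: unfold gmf; have hP : (fun b : Bs K V => Spl F b (trl al c) ∧ Spl F b (trl be c')) = (fun b => Spl F b al ∧ Spl F b be); generalise / simp only [GC.trl_spl_iff]
  rewrites under the binder (simp can rewrite the proposition of the dite, and the choose term is then syntactically the same up to proof irrelevance).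
-/

namespace H31NA

open H50NA

noncomputable section

variable {K : Type} [Field K] (F : VF K) {V : Type} [AddCommGroup V] [Module K V] [Module.Finite K V]

omit [Module.Finite K V] in
theorem mkn_ge_aux {ι : Type} {al be : V → ℝ} {e : Module.Basis ι K V} (h1 : Spl F e al)
    (h2 : Spl F e be) {t : ℝ} (h0 : 0 ≤ t) (h1' : t ≤ 1) {x : V} (hx : x ≠ 0) :
    (1 - t) * al x + t * be x ≤ mkn F e (fun i => (1 - t) * al (e i) + t * be (e i)) x := by
  obtain ⟨_, i, hi, h3⟩ := mkn_min F e (fun i => (1 - t) * al (e i) + t * be (e i)) hx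
  rw [h3]
  have h4 := mul_le_mul_of_nonneg_left ((h1 x hx).1 i hi) (sub_nonneg.2 h1')
  have h5 := mul_le_mul_of_nonneg_left ((h2 x hx).1 i hi) h0
  nlinarith [h4, h5]

omit [Module.Finite K V] in
theorem gmf_eq_aux {al be : V → ℝ} (h : ∃ b : Bs K V, Spl F b al ∧ Spl F b be) :
    ∃ B : Bs K V, Spl F B al ∧ Spl F B be ∧
      ∀ t, gmf F al be t = mkn F B (fun i => (1 - t) * al (B i) + t * be (B i)) := by
  refine ⟨h.choose, h.choose_spec.1, h.choose_spec.2, fun t => ?_⟩
  unfold gmf
  rw [dif_pos h]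

theorem gmf_gen {ι : Type} [Fintype ι] {al be : V → ℝ} {b : Module.Basis ι K V} (h1 : Spl F b al)
    (h2 : Spl F b be) {t : ℝ} (h0 : 0 ≤ t) (h1' : t ≤ 1) :
    Spl F b (gmf F al be t) ∧ ∀ i, gmf F al be t (b i) = (1 - t) * al (b i) + t * be (b i) := by
  have e : Fintype.card ι = Fintype.card (Fin (Module.finrank K V)) := by
    rw [Fintype.card_fin, Module.finrank_eq_card_basis b]
  have hex : ∃ b : Bs K V, Spl F b al ∧ Spl F b be :=
    ⟨b.reindex (Fintype.equivOfCardEq e), spl_reindex F _ h1, spl_reindex F _ h2⟩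
  obtain ⟨B, hB1, hB2, hB⟩ := gmf_eq_aux F hex
  have key : mkn F B (fun i => (1 - t) * al (B i) + t * be (B i)) =
      mkn F b (fun i => (1 - t) * al (b i) + t * be (b i)) := by
    funext x
    by_cases hx : x = 0
    · rw [hx, mkn_zero, mkn_zero]
    · apply le_antisymm
      · have := spl_le F (mkn_spl F B (fun i => (1 - t) * al (B i) + t * be (B i)))
          (mkn_nrm F b (fun i => (1 - t) * al (b i) + t * be (b i))) (C := 0)
          (fun i => by
            rw [mkn_bas, add_zero]
            exact mkn_ge_aux F h1 h2 h0 h1' (B.ne_zero i)) hx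
        linarith
      · have := spl_le F (mkn_spl F b (fun i => (1 - t) * al (b i) + t * be (b i)))
          (mkn_nrm F B (fun i => (1 - t) * al (B i) + t * be (B i))) (C := 0)
          (fun i => by
            rw [mkn_bas, add_zero]
            exact mkn_ge_aux F hB1 hB2 h0 h1' (b.ne_zero i)) hx
        linarith
  rw [hB t, key]
  exact ⟨mkn_spl F b _, fun i => mkn_bas F b _ i⟩

theorem gmf_ge {al be : V → ℝ} (ha : SN F al) (hb : SN F be) {t : ℝ} (h0 : 0 ≤ t) (h1 : t ≤ 1)
    {x : V} (hx : x ≠ 0) : (1 - t) * al x + t * be x ≤ gmf F al be t x := by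
  obtain ⟨B, hB1, hB2, hB⟩ := gmf_eq_aux F (common F ha hb)
  rw [hB t]
  exact mkn_ge_aux F hB1 hB2 h0 h1 hx

theorem gmf_at_zero {al be : V → ℝ} (ha : SN F al) (t : ℝ) : gmf F al be t 0 = 0 := by
  by_cases h : ∃ b : Bs K V, Spl F b al ∧ Spl F b be
  · obtain ⟨B, _, _, hB⟩ := gmf_eq_aux F h
    rw [hB t, mkn_zero]
  · unfold gmf
    rw [dif_neg h]
    exact ha.1

theorem gmf_zero {al be : V → ℝ} (ha : SN F al) (hb : SN F be) : gmf F al be 0 = al := by
  obtain ⟨b, h1, h2⟩ := common F ha hb
  obtain ⟨h3, h4⟩ := gmf_gen F h1 h2 (t := 0) le_rfl zero_le_one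
  refine spl_ext F h3 h1 ?_ fun i => ?_
  · rw [gmf_at_zero F ha, ha.1]
  · rw [h4 i]; ring

theorem gmf_one {al be : V → ℝ} (ha : SN F al) (hb : SN F be) : gmf F al be 1 = be := by
  obtain ⟨b, h1, h2⟩ := common F ha hb
  obtain ⟨h3, h4⟩ := gmf_gen F h1 h2 (t := 1) zero_le_one le_rfl
  refine spl_ext F h3 h2 ?_ fun i => ?_
  · rw [gmf_at_zero F ha, hb.1]
  · rw [h4 i]; ring

theorem gm_sn {al be : V → ℝ} (ha : SN F al) (hb : SN F be) (t : ℝ) : SN F (gmf F al be t) := by
  obtain ⟨B, _, _, hB⟩ := gmf_eq_aux F (common F ha hb)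
  rw [hB t]
  exact mkn_sn F B _

omit [Module.Finite K V] in
theorem choose_aux {P1 P2 : Bs K V → Prop} (h : P1 = P2) (h1 : ∃ b, P1 b) (h2 : ∃ b, P2 b) :
    h1.choose = h2.choose := by
  subst h
  rfl

theorem gmf_trl {al be : V → ℝ} (ha : SN F al) (hb : SN F be) (c c' t : ℝ) :
    gmf F (trl al c) (trl be c') t = trl (gmf F al be t) ((1 - t) * c + t * c') := by
  have hP : (fun b : Bs K V => Spl F b (trl al c) ∧ Spl F b (trl be c')) =
      (fun b => Spl F b al ∧ Spl F b be) := by
    funext b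
    rw [trl_spl_iff, trl_spl_iff]
  have h2 := common F ha hb
  have h1 := common F (trl_sn F ha c) (trl_sn F hb c')
  have hc : h1.choose = h2.choose := choose_aux hP h1 h2
  have e1 : gmf F (trl al c) (trl be c') t = mkn F h2.choose
      (fun i => (1 - t) * trl al c (h2.choose i) + t * trl be c' (h2.choose i)) := by
    unfold gmf
    rw [dif_pos h1, hc]
  have e2 : gmf F al be t = mkn F h2.choose
      (fun i => (1 - t) * al (h2.choose i) + t * be (h2.choose i)) := by
    unfold gmf
    rw [dif_pos h2]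
  rw [e1, e2]
  refine spl_ext F (mkn_spl F _ _) (trl_spl F (mkn_spl F _ _) _) ?_ fun i => ?_
  · rw [mkn_zero, trl_zero]
  · have hne : h2.choose i ≠ 0 := h2.choose.ne_zero i
    rw [mkn_bas, trl_apply al c hne, trl_apply be c' hne,
      trl_apply (mkn F h2.choose fun i => (1 - t) * al (h2.choose i) + t * be (h2.choose i)) _ hne,
      mkn_bas]
    ring

end

end H31NA
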