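import Pool.Agent.H31.NA.GJ
import Pool.Agent.H31.NA.GK

set_option autoImplicit false

/-!
# Row GL (MP_b319aa_NA, block G): comparison of ds and rd with the sup norm, translations

PROOFS.  In each case take a common basis b of al and be (GF.common) and use GJ.ds_gen, GJ.rd_gen; write d_i = be (b i) - al (b i).
* abs_le_ds: x = 0: al 0 = be 0 = 0 and ds ≥ 0 (GJ.ds_nn).  x ≠ 0: with C = ds: |d_i| ≤ C (d_i ^ 2 ≤ sum of squares = C ^ 2, Finset.single_le_sum, abs_le_of_sq_le_sq or Real.abs_le_sqrt), so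
  be (b i) ≤ al (b i) + C and al (b i) ≤ be (b i) + C: GB.spl_le twice.
* ds_le_sup: ds ^ 2 = sum d_i ^ 2 ≤ m c ^ 2 = (sqrt m * c) ^ 2 (m = finrank K V = card of Fin m): abs_le_of_sq_le_sq / Real.sqrt.
* rd_le_sup: |sum d_i| ≤ sum |d_i| ≤ m c (b i ≠ 0).
* eq_of_ds: abs_le_ds.
* rd_mono: all d_i ≥ 0.
* ds_trl: b splits trl al c and trl be c' (GC.trl_spl), the differences are d_i + (c' - c) (GC.trl_apply, b i ≠ 0): expand the sum of squares (sum of constants over Fin m gives m).
* rd_trl: same.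
* ds_mkn, rd_mkn: GC.mkn_spl, GC.mkn_bas, GJ.ds_gen, GJ.rd_gen.
-/

namespace H31NA

open H50NA

noncomputable section

variable {K : Type} [Field K] (F : VF K) {V : Type} [AddCommGroup V] [Module K V] [Module.Finite K V]

theorem abs_le_ds {al be : V → ℝ} (ha : SN F al) (hb : SN F be) (x : V) :
    |be x - al x| ≤ ds F al be := by
  by_cases hx : x = 0
  · rw [hx, ha.1, hb.1, sub_zero, abs_zero]
    exact ds_nn F al be
  obtain ⟨b, h1, h2⟩ := common F ha hb
  have hd : ∀ i, |be (b i) - al (b i)| ≤ ds F al be := by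
    intro i
    apply abs_le_of_sq_le_sq _ (ds_nn F al be)
    rw [ds_gen F h1 h2]
    exact Finset.single_le_sum (f := fun i => (be (b i) - al (b i)) ^ 2) (fun j _ => sq_nonneg _)
      (Finset.mem_univ i)
  have e1 := spl_le F h2 (sn_nrm F ha) (C := ds F al be) (fun i => by
    have := (abs_le.1 (hd i)).2
    linarith) hx
  have e2 := spl_le F h1 (sn_nrm F hb) (C := ds F al be) (fun i => by
    have := (abs_le.1 (hd i)).1
    linarith) hx
  rw [abs_le]
  constructor <;> linarith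

theorem ds_le_sup {al be : V → ℝ} (ha : SN F al) (hb : SN F be) {c : ℝ} (hc : 0 ≤ c)
    (h : ∀ x, |be x - al x| ≤ c) : ds F al be ≤ Real.sqrt (Module.finrank K V) * c := by
  obtain ⟨b, h1, h2⟩ := common F ha hb
  apply le_of_sq_le_sq _ (mul_nonneg (Real.sqrt_nonneg _) hc)
  rw [ds_gen F h1 h2, mul_pow, Real.sq_sqrt (Nat.cast_nonneg _)]
  calc ∑ i, (be (b i) - al (b i)) ^ 2 ≤ ∑ _i : Fin (Module.finrank K V), c ^ 2 := by
        refine Finset.sum_le_sum fun i _ => ?_
        rw [← sq_abs (be (b i) - al (b i))]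
        exact pow_le_pow_left₀ (abs_nonneg _) (h _) 2
    _ = (Module.finrank K V : ℝ) * c ^ 2 := by
        rw [Finset.sum_const, Finset.card_univ, Fintype.card_fin, nsmul_eq_mul]

theorem rd_le_sup {al be : V → ℝ} (ha : SN F al) (hb : SN F be) {c : ℝ}
    (h : ∀ x, x ≠ 0 → |be x - al x| ≤ c) : |rd F al be| ≤ Module.finrank K V * c := by
  obtain ⟨b, h1, h2⟩ := common F ha hb
  rw [rd_gen F h1 h2]
  calc |∑ i, (be (b i) - al (b i))| ≤ ∑ i, |be (b i) - al (b i)| := Finset.abs_sum_le_sum_abs _ _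
    _ ≤ ∑ _i : Fin (Module.finrank K V), c := Finset.sum_le_sum fun i _ => h _ (b.ne_zero i)
    _ = (Module.finrank K V : ℝ) * c := by
        rw [Finset.sum_const, Finset.card_univ, Fintype.card_fin, nsmul_eq_mul]

theorem eq_of_ds {al be : V → ℝ} (ha : SN F al) (hb : SN F be) (h : ds F al be = 0) : al = be := by
  funext x
  have h1 := abs_le_ds F ha hb x
  rw [h] at h1
  have h2 := abs_eq_zero.1 (le_antisymm h1 (abs_nonneg _))
  linarith

theorem rd_mono {al be : V → ℝ} (ha : SN F al) (hb : SN F be) (h : ∀ x, al x ≤ be x) :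
    0 ≤ rd F al be := by
  obtain ⟨b, h1, h2⟩ := common F ha hb
  rw [rd_gen F h1 h2]
  exact Finset.sum_nonneg fun i _ => sub_nonneg.2 (h _)

theorem ds_trl {al be : V → ℝ} (ha : SN F al) (hb : SN F be) (c c' : ℝ) :
    ds F (trl al c) (trl be c') ^ 2 =
      ds F al be ^ 2 + 2 * (c' - c) * rd F al be + Module.finrank K V * (c' - c) ^ 2 := by
  obtain ⟨b, h1, h2⟩ := common F ha hb
  rw [ds_gen F (trl_spl F h1 c) (trl_spl F h2 c'), ds_gen F h1 h2, rd_gen F h1 h2]
  have e : ∀ i, (trl be c' (b i) - trl al c (b i)) ^ 2 =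
      (be (b i) - al (b i)) ^ 2 + 2 * (c' - c) * (be (b i) - al (b i)) + (c' - c) ^ 2 := by
    intro i
    rw [trl_apply al c (b.ne_zero i), trl_apply be c' (b.ne_zero i)]
    ring
  rw [Finset.sum_congr rfl fun i _ => e i, Finset.sum_add_distrib, Finset.sum_add_distrib,
    ← Finset.mul_sum, Finset.sum_const, Finset.card_univ, Fintype.card_fin, nsmul_eq_mul]

theorem rd_trl {al be : V → ℝ} (ha : SN F al) (hb : SN F be) (c c' : ℝ) :
    rd F (trl al c) (trl be c') = rd F al be + Module.finrank K V * (c' - c) := by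
  obtain ⟨b, h1, h2⟩ := common F ha hb
  rw [rd_gen F (trl_spl F h1 c) (trl_spl F h2 c'), rd_gen F h1 h2]
  have e : ∀ i, trl be c' (b i) - trl al c (b i) = (be (b i) - al (b i)) + (c' - c) := by
    intro i
    rw [trl_apply al c (b.ne_zero i), trl_apply be c' (b.ne_zero i)]
    ring
  rw [Finset.sum_congr rfl fun i _ => e i, Finset.sum_add_distrib,
    Finset.sum_const, Finset.card_univ, Fintype.card_fin, nsmul_eq_mul]

theorem ds_mkn {ι : Type} [Fintype ι] (b : Module.Basis ι K V) (c c' : ι → ℝ) :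
    ds F (mkn F b c) (mkn F b c') ^ 2 = ∑ i, (c' i - c i) ^ 2 := by
  rw [ds_gen F (mkn_spl F b c) (mkn_spl F b c')]
  exact Finset.sum_congr rfl fun i _ => by rw [mkn_bas, mkn_bas]

theorem rd_mkn {ι : Type} [Fintype ι] (b : Module.Basis ι K V) (c c' : ι → ℝ) :
    rd F (mkn F b c) (mkn F b c') = ∑ i, (c' i - c i) := by
  rw [rd_gen F (mkn_spl F b c) (mkn_spl F b c')]
  exact Finset.sum_congr rfl fun i _ => by rw [mkn_bas, mkn_bas]

end

end H31NA
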