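import Pool.Agent.H31.NA.GP
import Pool.Agent.H31.NA.GL

set_option autoImplicit false

/-!
# Row GQ (MP_b319aa_NA, block G): the defect of a norm along a decomposition, the spectrum

PROOFS.
* def_nonneg: osm E al and al are splittable (GP.osm_sn): common basis b (GF.common), l_i := al (b i) - osm E al (b i) ≥ 0 (GN.osm_le).  rd F (osm E al) al = sum l_i ≥ 0 (GJ.rd_gen);
  ds ^ 2 = sum l_i ^ 2 ≤ (sum l_i) ^ 2 (Finset.sum_sq_le_sq_sum or: l_i ^ 2 ≤ l_i * sum l), so ds ≤ sum l_i.
  If the sum is 0 all l_i = 0, so osm E al = al (GB.spl_ext), i.e. SpD E al (GN.spd_iff).  Conversely SpD E al gives osm E al = al, and rd F al al = sum 0 = 0.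
* spec: contrapositive.  Assume for all b ≠ b', x ∈ E b, y ∈ E b' non zero, al x - al y is not an integer multiple of w; in particular al x ≠ al y.  Then SpD E al:
  let x ≠ 0; x = sum of its components; let b be an index with cpt E b x ≠ 0 and al (cpt E b x) minimal (finite set, non empty by GM.cpt_ex).  Let y = cpt E b x and z = x - y = the sum of the
  other components.  If z = 0 then al x = al y.  If z ≠ 0: GB.nrm_sum gives b' ≠ b with cpt E b' x ≠ 0 and al (cpt E b' x) ≤ al z; minimality and al (cpt E b' x) ≠ al y give al y < al z, so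
  al x = al (y + z) = al y (GB.nrm_strict).  So al x = al y = the minimum: SpD E al.
-/

namespace H31NA

open H50NA

noncomputable section

variable {K : Type} [Field K] (F : VF K) {V : Type} [AddCommGroup V] [Module K V] [Module.Finite K V]
variable {N : ℕ} {E : Fin N → Submodule K V}

theorem def_nonneg (hE : DirectSum.IsInternal E) {al : V → ℝ} (ha : SN F al) :
    0 ≤ rd F (osm E al) al ∧ ds F (osm E al) al ≤ rd F (osm E al) al ∧
      (rd F (osm E al) al = 0 ↔ SpD E al) := by
  have hO := osm_sn F hE ha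
  obtain ⟨b, h1, h2⟩ := common F hO ha
  have hrd := rd_gen F h1 h2
  have hds := ds_gen F h1 h2
  have hl : ∀ i ∈ Finset.univ, 0 ≤ al (b i) - osm E al (b i) := fun i _ =>
    sub_nonneg.2 (osm_le F hE (sn_nrm F ha) (b i))
  have h0 : 0 ≤ rd F (osm E al) al := by
    rw [hrd]
    exact Finset.sum_nonneg hl
  refine ⟨h0, ?_, ?_⟩
  · rw [← pow_le_pow_iff_left₀ (ds_nn F _ _) h0 two_ne_zero, hds, hrd, sq, Finset.sum_mul]
    refine Finset.sum_le_sum fun i hi => ?_
    rw [sq]
    exact mul_le_mul_of_nonneg_left (Finset.single_le_sum hl hi) (hl i hi)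
  · constructor
    · intro h
      rw [hrd, Finset.sum_eq_zero_iff_of_nonneg hl] at h
      rw [spd_iff hE ha.1]
      refine spl_ext F h1 h2 ?_ fun i => ?_
      · rw [osm_zero, ha.1]
      · have := h i (Finset.mem_univ i)
        linarith
    · intro h
      rw [spd_iff hE ha.1] at h
      rw [h, rd_gen F h2 h2]
      exact Finset.sum_eq_zero fun i _ => sub_self _

theorem spec (hE : DirectSum.IsInternal E) {al : V → ℝ} (ha : SN F al) (h : ¬ SpD E al) :
    ∃ b b' : Fin N, b ≠ b' ∧ ∃ x ∈ E b, ∃ y ∈ E b', x ≠ 0 ∧ y ≠ 0 ∧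
      ∃ n : ℤ, al x - al y = n * F.w := by
  classical
  by_contra hcon
  push Not at hcon
  apply h
  have hn := sn_nrm F ha
  intro x hx
  obtain ⟨c0, hc0⟩ := cpt_ex hE hx
  obtain ⟨b, hbS, hmin⟩ := Finset.exists_min_image
    (Finset.univ.filter fun b : Fin N => cpt E b x ≠ 0) (fun b => al (cpt E b x))
    ⟨c0, Finset.mem_filter.2 ⟨Finset.mem_univ _, hc0⟩⟩
  have hy0 : cpt E b x ≠ 0 := (Finset.mem_filter.1 hbS).2
  have hmin' : ∀ c, cpt E c x ≠ 0 → al (cpt E b x) ≤ al (cpt E c x) := fun c hc =>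
    hmin c (Finset.mem_filter.2 ⟨Finset.mem_univ _, hc⟩)
  have hsum : cpt E b x + ∑ c ∈ Finset.univ.erase b, cpt E c x = x := by
    rw [Finset.add_sum_erase _ (fun c => cpt E c x) (Finset.mem_univ b)]
    exact cpt_sum hE x
  have hxy : al x = al (cpt E b x) := by
    by_cases hz : ∑ c ∈ Finset.univ.erase b, cpt E c x = 0
    · rw [hz, add_zero] at hsum
      rw [hsum]
    · obtain ⟨b', hb', h1, h2⟩ := nrm_sum F hn (Finset.univ.erase b) (fun c => cpt E c x) hz
      have hne : b ≠ b' := fun h3 => (Finset.ne_of_mem_erase hb') h3.symm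
      have h3 := hcon b b' hne (cpt E b x) (cpt_mem E b x) (cpt E b' x) (cpt_mem E b' x) hy0 h1 0
      have h4 : al (cpt E b x) ≠ al (cpt E b' x) := by
        intro h5
        apply h3
        rw [h5]
        simp
      have h6 : al (cpt E b x) < al (∑ c ∈ Finset.univ.erase b, cpt E c x) :=
        lt_of_lt_of_le (lt_of_le_of_ne (hmin' b' h1) h4) h2
      have h7 := (nrm_strict F hn hy0 hz h6).2
      rw [hsum] at h7
      exact h7
  refine ⟨fun c hc => ?_, b, hy0, hxy⟩
  rw [hxy]
  exact hmin' c hc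

end

end H31NA
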