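import Pool.Agent.H50.NA.Defs

set_option autoImplicit false

/-!
# Row GM (MP_b319aa_NA, block G): components of a vector in a direct sum decomposition

cpt E b x is (for hE : DirectSum.IsInternal E) the component in E b of the element of the direct sum corresponding to x; e := LinearEquiv.ofBijective (DirectSum.coeLinearMap E) hE.

PROOFS.
* cpt_mem: if hE holds it is the coercion of an element of E b, otherwise 0.
* cpt_sum: x = e (e.symm x) = coeLinearMap applied to y := e.symm x = sum over b of (y b : V) (DirectSum.coeLinearMap_eq_dfinsuppSum / DFinsupp.sum, or DirectSum.coeAddMonoidHom;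
  for a Fintype index: DirectSum.coeLinearMap E y = sum over all b of y b, via DFinsupp.sum_eq_sum_fintype or y = sum of DirectSum.of .. ; map_sum).
* cpt_uniq: let z := sum over b of DirectSum.lof K _ _ b ⟨y b, hy b⟩; e z = sum of y b = x, so e.symm x = z, and the b-th component of z is y b.
* cpt_of_mem, cpt_of_ne: cpt_uniq with y = Pi.single b x (y b' = if b' = b then x else 0).
* cpt_zero, cpt_add, cpt_smul: cpt_uniq with y = 0, cpt x + cpt y, c • cpt x (or linearity of e.symm).
* cpt_ex: otherwise x = sum of cpt = 0.
* int_map: internal direct sums are preserved by a linear equivalence a: e.g. DirectSum.isInternal_submodule_iff_iSupIndep_and_iSup_eq_top (name may differ), iSupIndep.map_orderIso with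
  Submodule.orderIsoMapComap, Submodule.map_iSup; or directly: bijectivity of coeLinearMap for the images: composition of a, coeLinearMap E and the componentwise equivalences
  (DFinsupp.mapRange.linearEquiv of a.submoduleMap (E b)).
* cpt_map: cpt_uniq for the images, with y b = a (cpt E b x).
* int_two: DirectSum.isInternal_submodule_iff_isCompl with i = 0, j = 1 (Set.univ = {0, 1} in Fin 2).
-/

namespace H31NA

open H50NA

noncomputable section

variable {K : Type} [Field K] {V : Type} [AddCommGroup V] [Module K V]
variable {N : ℕ} {E : Fin N → Submodule K V}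

theorem cpt_mem (E : Fin N → Submodule K V) (b : Fin N) (x : V) : cpt E b x ∈ E b := by
  unfold cpt
  split_ifs with h
  · exact Submodule.coe_mem _
  · exact Submodule.zero_mem _

theorem clm_eq (y : DirectSum (Fin N) fun i => E i) :
    DirectSum.coeLinearMap E y = ∑ b, (y b : V) := by
  classical
  rw [DirectSum.coeLinearMap_eq_dfinsuppSum]
  exact DFinsupp.sum_eq_sum_fintype _ (fun i => rfl)

theorem cpt_sum (hE : DirectSum.IsInternal E) (x : V) : ∑ b, cpt E b x = x := by
  have h : ∀ b, cpt E b x = (((LinearEquiv.ofBijective (DirectSum.coeLinearMap E) hE).symm x :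
      DirectSum (Fin N) fun i => E i) b : V) := by
    intro b
    unfold cpt
    rw [dif_pos hE]
  rw [Finset.sum_congr rfl fun b _ => h b, ← clm_eq]
  exact (LinearEquiv.ofBijective (DirectSum.coeLinearMap E) hE).apply_symm_apply x

theorem cpt_uniq (hE : DirectSum.IsInternal E) {y : Fin N → V} (hy : ∀ b, y b ∈ E b) {x : V}
    (h : ∑ b, y b = x) (b : Fin N) : cpt E b x = y b := by
  classical
  set e := LinearEquiv.ofBijective (DirectSum.coeLinearMap E) hE with he
  let z : DirectSum (Fin N) fun i => E i := ∑ b, DirectSum.lof K (Fin N) (fun i => E i) b ⟨y b, hy b⟩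
  have hz : e z = x := by
    change (DirectSum.coeLinearMap E) z = x
    simp only [z, map_sum]
    rw [← h]
    refine Finset.sum_congr rfl fun c _ => ?_
    exact DirectSum.coeLinearMap_lof E c ⟨y c, hy c⟩
  have hw : e.symm x = z := by
    rw [← hz, LinearEquiv.symm_apply_apply]
  have hc : cpt E b x = ((e.symm x : DirectSum (Fin N) fun i => E i) b : V) := by
    unfold cpt
    rw [dif_pos hE]
  rw [hc, hw]
  have hzb : z b = ⟨y b, hy b⟩ := by
    change (∑ b, DirectSum.lof K (Fin N) (fun i => E i) b ⟨y b, hy b⟩ :
      DirectSum (Fin N) fun i => E i) b = _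
    rw [DFinsupp.finsetSum_apply]
    rw [Finset.sum_eq_single b]
    · exact DirectSum.lof_apply K b _
    · intro c _ hcb
      exact DFinsupp.single_eq_of_ne (Ne.symm hcb)
    · intro hb
      exact absurd (Finset.mem_univ b) hb
  rw [hzb]

theorem cpt_single (hE : DirectSum.IsInternal E) {b : Fin N} {x : V} (hx : x ∈ E b) (c : Fin N) :
    cpt E c x = if c = b then x else 0 := by
  classical
  refine cpt_uniq hE (y := fun c => if c = b then x else 0) ?_ ?_ c
  · intro c
    split_ifs with hc
    · rw [hc]; exact hx
    · exact Submodule.zero_mem _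
  · simp

theorem cpt_of_mem (hE : DirectSum.IsInternal E) {b : Fin N} {x : V} (hx : x ∈ E b) :
    cpt E b x = x := by
  rw [cpt_single hE hx, if_pos rfl]

theorem cpt_of_ne (hE : DirectSum.IsInternal E) {b b' : Fin N} (hb : b' ≠ b) {x : V}
    (hx : x ∈ E b) : cpt E b' x = 0 := by
  rw [cpt_single hE hx, if_neg hb]

theorem cpt_zero (hE : DirectSum.IsInternal E) (b : Fin N) : cpt E b (0 : V) = 0 :=
  cpt_uniq hE (y := fun _ => 0) (fun b => Submodule.zero_mem _) (by simp) b

theorem cpt_add (hE : DirectSum.IsInternal E) (b : Fin N) (x y : V) :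
    cpt E b (x + y) = cpt E b x + cpt E b y :=
  cpt_uniq hE (y := fun b => cpt E b x + cpt E b y)
    (fun b => Submodule.add_mem _ (cpt_mem E b x) (cpt_mem E b y))
    (by rw [Finset.sum_add_distrib, cpt_sum hE, cpt_sum hE]) b

theorem cpt_smul (hE : DirectSum.IsInternal E) (b : Fin N) (c : K) (x : V) :
    cpt E b (c • x) = c • cpt E b x :=
  cpt_uniq hE (y := fun b => c • cpt E b x)
    (fun b => Submodule.smul_mem _ _ (cpt_mem E b x))
    (by rw [← Finset.smul_sum, cpt_sum hE]) b

theorem cpt_ex (hE : DirectSum.IsInternal E) {x : V} (hx : x ≠ 0) : ∃ b, cpt E b x ≠ 0 := by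
  by_contra h
  push Not at h
  apply hx
  rw [← cpt_sum hE x]
  exact Finset.sum_eq_zero fun b _ => h b

variable {V' : Type} [AddCommGroup V'] [Module K V']

theorem int_map (hE : DirectSum.IsInternal E) (a : V ≃ₗ[K] V') :
    DirectSum.IsInternal (fun b => (E b).map (a : V →ₗ[K] V')) := by
  classical
  rw [DirectSum.isInternal_submodule_iff_iSupIndep_and_iSup_eq_top] at hE ⊢
  constructor
  · exact hE.1.map_orderIso (Submodule.orderIsoMapComap a)
  · rw [← Submodule.map_iSup, hE.2, Submodule.map_top]
    exact LinearEquiv.range a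

theorem cpt_map (hE : DirectSum.IsInternal E) (a : V ≃ₗ[K] V') (b : Fin N) (x : V) :
    cpt (fun b => (E b).map (a : V →ₗ[K] V')) b (a x) = a (cpt E b x) := by
  refine cpt_uniq (int_map hE a) (y := fun b => a (cpt E b x)) ?_ ?_ b
  · intro c
    exact Submodule.mem_map_of_mem (f := (a : V →ₗ[K] V')) (cpt_mem E c x)
  · rw [← map_sum, cpt_sum hE]

theorem int_two {W H : Submodule K V} (h : IsCompl W H) :
    DirectSum.IsInternal (![W, H] : Fin 2 → Submodule K V) := by
  rw [DirectSum.isInternal_submodule_iff_isCompl (i := (0 : Fin 2)) (j := 1) _ (by decide)]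
  · exact h
  · ext i
    fin_cases i <;> simp

end

end H31NA
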