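import Pool.Agent.H31.NA.GB

set_option autoImplicit false

/-!
# Row GC (MP_b319aa_NA, block G): the norm mkn F b c, splittable norms, scalar translations

mkn F b c x = 0 if x = 0, otherwise sInf of the image of {i | x_i ≠ 0} under i ↦ v x_i + c_i (x_i = b.repr x i).

PROOFS.
* mkn_zero: unfold.
* mkn_min: for x ≠ 0 the set {i | x_i ≠ 0} is finite (support of the finitely supported function b.repr x) and nonempty (b.repr x ≠ 0), so its image
  is a nonempty finite set of reals: sInf is attained (Set.Nonempty.csInf_mem of a finite set, Set.Finite) and is a lower bound (csInf_le, BddBelow of a finite set).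
* mkn_bas: apply mkn_min to x = b i: b.repr (b i) = Finsupp.single i 1, only the index i has a non zero coordinate, v 1 = 0.
* mkn_spl: mkn_min and mkn_bas.
* mkn_sn: mkn_spl, mkn_zero.
* mkn_self: spl_ext with mkn_spl, mkn_bas.
* sn_nrm: spl_nrm.
* sn_of: Module.finrank K V = Fintype.card ι (Module.finrank_eq_card_basis b); reindex by an equivalence ι ≃ Fin (finrank K V) (Fintype.equivFinOfCardEq), spl_reindex.
* trl_apply: unfold.  trl_spl: for x ≠ 0, trl al c x = al x + c and trl al c (b i) = al (b i) + c (b i ≠ 0).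
* trl_spl_iff: one direction is trl_spl; conversely the same computation backwards (add -c; note that Spl only concerns x ≠ 0).
* trl_nrm, trl_sn, rs_trl: unfold; cases x = 0 or not.
-/

namespace H31NA

open H50NA

noncomputable section

variable {K : Type} [Field K] (F : VF K) {V : Type} [AddCommGroup V] [Module K V]

theorem mkn_zero {ι : Type} (b : Module.Basis ι K V) (c : ι → ℝ) : mkn F b c 0 = 0 := by
  unfold mkn
  rw [if_pos rfl]

theorem mkn_min {ι : Type} (b : Module.Basis ι K V) (c : ι → ℝ) {x : V} (hx : x ≠ 0) :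
    (∀ i, b.repr x i ≠ 0 → mkn F b c x ≤ F.v (b.repr x i) + c i) ∧
      ∃ i, b.repr x i ≠ 0 ∧ mkn F b c x = F.v (b.repr x i) + c i := by
  have hne : {i | b.repr x i ≠ 0}.Nonempty := by
    by_contra h
    rw [Set.not_nonempty_iff_eq_empty] at h
    apply hx
    rw [← b.repr.map_eq_zero_iff]
    ext i
    by_contra hi
    have : i ∈ {i | b.repr x i ≠ 0} := hi
    rw [h] at this
    exact this
  have hfin : {i | b.repr x i ≠ 0}.Finite := by
    refine (b.repr x).support.finite_toSet.subset fun i hi => ?_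
    exact Finset.mem_coe.2 (Finsupp.mem_support_iff.2 hi)
  have himf := hfin.image (fun i => F.v (b.repr x i) + c i)
  have himn := hne.image (fun i => F.v (b.repr x i) + c i)
  have e : mkn F b c x = sInf ((fun i => F.v (b.repr x i) + c i) '' {i | b.repr x i ≠ 0}) := by
    unfold mkn
    rw [if_neg hx]
  rw [e]
  refine ⟨fun i hi => csInf_le himf.bddBelow ⟨i, hi, rfl⟩, ?_⟩
  obtain ⟨i, hi, hi2⟩ := himn.csInf_mem himf
  exact ⟨i, hi, hi2.symm⟩

theorem mkn_bas {ι : Type} (b : Module.Basis ι K V) (c : ι → ℝ) (i : ι) :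
    mkn F b c (b i) = c i := by
  classical
  have hbi : b i ≠ 0 := b.ne_zero i
  obtain ⟨_, j, hj, hj2⟩ := mkn_min F b c hbi
  rw [b.repr_self, Finsupp.single_apply] at hj hj2
  by_cases hij : i = j
  · subst hij
    rw [if_pos rfl, v_one, zero_add] at hj2
    exact hj2
  · rw [if_neg hij] at hj
    exact absurd rfl hj

theorem mkn_spl {ι : Type} (b : Module.Basis ι K V) (c : ι → ℝ) : Spl F b (mkn F b c) := by
  intro x hx
  simp only [mkn_bas]
  exact mkn_min F b c hx

theorem mkn_nrm {ι : Type} (b : Module.Basis ι K V) (c : ι → ℝ) : Nrm F (mkn F b c) := by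
  exact spl_nrm F (mkn_spl F b c) (mkn_zero F b c)

theorem mkn_self {ι : Type} {b : Module.Basis ι K V} {al : V → ℝ} (h : Spl F b al)
    (h0 : al 0 = 0) : mkn F b (fun i => al (b i)) = al := by
  refine spl_ext F (mkn_spl F b _) h ?_ fun i => mkn_bas F b _ i
  rw [mkn_zero, h0]

theorem sn_nrm {al : V → ℝ} (h : SN F al) : Nrm F al := by
  obtain ⟨h0, b, hb⟩ := h
  exact spl_nrm F hb h0

theorem sn_of {ι : Type} [Fintype ι] (b : Module.Basis ι K V) {al : V → ℝ} (h : Spl F b al)
    (h0 : al 0 = 0) : SN F al := by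
  have e : Fintype.card ι = Fintype.card (Fin (Module.finrank K V)) := by
    rw [Fintype.card_fin, Module.finrank_eq_card_basis b]
  exact ⟨h0, b.reindex (Fintype.equivOfCardEq e), spl_reindex F _ h⟩

theorem mkn_sn {ι : Type} [Fintype ι] (b : Module.Basis ι K V) (c : ι → ℝ) :
    SN F (mkn F b c) := by
  exact sn_of F b (mkn_spl F b c) (mkn_zero F b c)

theorem trl_apply (al : V → ℝ) (c : ℝ) {x : V} (hx : x ≠ 0) : trl al c x = al x + c := by
  unfold trl
  rw [if_neg hx]

theorem trl_zero (al : V → ℝ) (c : ℝ) : trl al c 0 = 0 := by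
  unfold trl
  rw [if_pos rfl]

theorem trl_spl {ι : Type} {b : Module.Basis ι K V} {al : V → ℝ} (h : Spl F b al) (c : ℝ) :
    Spl F b (trl al c) := by
  intro x hx
  have hb : ∀ i, trl al c (b i) = al (b i) + c := fun i => trl_apply al c (b.ne_zero i)
  simp only [hb, trl_apply al c hx]
  obtain ⟨h1, i, hi, h2⟩ := h x hx
  refine ⟨fun j hj => ?_, i, hi, ?_⟩
  · have := h1 j hj
    linarith
  · linarith

theorem trl_spl_iff {ι : Type} {b : Module.Basis ι K V} {al : V → ℝ} (c : ℝ) :
    Spl F b (trl al c) ↔ Spl F b al := by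
  refine ⟨fun h => ?_, fun h => trl_spl F h c⟩
  intro x hx
  have hb : ∀ i, trl al c (b i) = al (b i) + c := fun i => trl_apply al c (b.ne_zero i)
  obtain ⟨h1, i, hi, h2⟩ := h x hx
  rw [trl_apply al c hx] at h2
  rw [hb] at h2
  refine ⟨fun j hj => ?_, i, hi, ?_⟩
  · have := h1 j hj
    rw [trl_apply al c hx, hb] at this
    linarith
  · linarith

theorem trl_nrm {al : V → ℝ} (h : Nrm F al) (c : ℝ) : Nrm F (trl al c) := by
  refine ⟨trl_zero al c, fun r x hr hx => ?_, fun x y hx hy hxy => ?_⟩
  · rw [trl_apply al c hx, trl_apply al c (smul_ne_zero hr hx), h.smul r x hr hx]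
    ring
  · rw [trl_apply al c hx, trl_apply al c hy, trl_apply al c hxy, min_add_add_right]
    have := h.add x y hx hy hxy
    linarith

theorem trl_sn {al : V → ℝ} (h : SN F al) (c : ℝ) : SN F (trl al c) := by
  obtain ⟨_, b, hb⟩ := h
  exact ⟨trl_zero al c, b, trl_spl F hb c⟩

theorem rs_trl (E : Submodule K V) (al : V → ℝ) (c : ℝ) : rs E (trl al c) = trl (rs E al) c := by
  funext x
  by_cases hx : x = 0
  · subst hx
    rw [trl_zero]
    exact trl_zero al c
  · have hx' : (x : V) ≠ 0 := fun h => hx (Subtype.ext h)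
    rw [trl_apply _ c hx]
    exact trl_apply al c hx'

end

end H31NA
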