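import Pool.Agent.H31.NA.GG

/-!
# Row GH (MP_b319aa_NA, block G): restriction to a subspace is splittable

PROOFS.
* span_bas: the family (b i) (i ∈ S) is linearly independent (b.linearIndependent.comp _ Subtype.val_injective) with range b '' S: Module.Basis.span gives a basis of
  span (range ..) with Module.Basis.span_apply; transport along the equality of submodules (or use Module.Basis.mk directly with values in the span).
  Its coordinates: bS.repr y i = b.repr (y : V) i for i ∈ S, and b.repr (y : V) k = 0 for k ∉ S (Module.Basis.mem_span_image / Finsupp support; or: y = sum over S of (bS.repr y i) • b i,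
  apply b.repr).
* sub_spl: for y ≠ 0 in the span: the two conditions of Spl F b al at (y : V) only concern indices k with b.repr y k ≠ 0, thus k ∈ S.
* adapt_fr: GG.adapt with n = finrank K V, b0 the basis of SN.  S.card = finrank K E: E = span (b '' S), sub_spl (or finrank_span_set_eq_card / finrank_span_finset_eq_card).
* rs_sn: adapt_fr, subst E, sub_spl, GC.sn_of (index type ↥S), rs E al 0 = al 0 = 0.
-/

set_option autoImplicit false

namespace H31NA

open H50NA

noncomputable section

variable {K : Type} [Field K] (F : VF K) {V : Type} [AddCommGroup V] [Module K V]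

theorem span_bas {ι : Type} (b : Module.Basis ι K V) (S : Finset ι) :
    ∃ bS : Module.Basis S K (Submodule.span K (b '' (S : Set ι))),
      (∀ i, (bS i : V) = b i) ∧ (∀ y i, bS.repr y i = b.repr (y : V) i) ∧
      ∀ y ∈ Submodule.span K (b '' (S : Set ι)), ∀ k, k ∉ S → b.repr y k = 0 := by
  classical
  have hli : LinearIndependent K (fun i : S => b i) :=
    b.linearIndependent.comp _ Subtype.val_injective
  have hr : Set.range (fun i : S => b i) = b '' (S : Set ι) := by
    ext x
    constructor
    · rintro ⟨i, rfl⟩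
      exact ⟨i, i.2, rfl⟩
    · rintro ⟨i, hi, rfl⟩
      exact ⟨⟨i, hi⟩, rfl⟩
  have he : Submodule.span K (Set.range (fun i : S => b i)) =
      Submodule.span K (b '' (S : Set ι)) := by rw [hr]
  let bS : Module.Basis S K (Submodule.span K (b '' (S : Set ι))) :=
    (Module.Basis.span hli).map (LinearEquiv.ofEq _ _ he)
  have hb : ∀ i, (bS i : V) = b i := by
    intro i
    simp only [bS, Module.Basis.map_apply, LinearEquiv.coe_ofEq_apply]
    rw [Module.Basis.span_apply hli i]
  have hk : ∀ (y : Submodule.span K (b '' (S : Set ι))) (k : ι),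
      b.repr (y : V) k = ∑ i : S, bS.repr y i * (if (i : ι) = k then 1 else 0) := by
    intro y k
    have h1 : (y : V) = ∑ i : S, bS.repr y i • b i := by
      conv_lhs => rw [← bS.sum_repr y]
      rw [AddSubmonoidClass.coe_finsetSum]
      refine Finset.sum_congr rfl fun i _ => ?_
      rw [Submodule.coe_smul, hb]
    conv_lhs => rw [h1]
    rw [map_sum, Finsupp.finsetSum_apply]
    refine Finset.sum_congr rfl fun i _ => ?_
    rw [map_smul, Finsupp.smul_apply, b.repr_self, Finsupp.single_apply, smul_eq_mul]
  refine ⟨bS, hb, fun y i => ?_, fun y hy k hkS => ?_⟩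
  · rw [hk y i, Finset.sum_eq_single i]
    · rw [if_pos rfl, mul_one]
    · intro j _ hj
      rw [if_neg (fun h => hj (Subtype.ext h)), mul_zero]
    · intro h
      exact absurd (Finset.mem_univ i) h
  · rw [hk ⟨y, hy⟩ k]
    refine Finset.sum_eq_zero fun i _ => ?_
    rw [if_neg, mul_zero]
    rintro rfl
    exact hkS i.2

theorem sub_spl {ι : Type} (b : Module.Basis ι K V) {al : V → ℝ} (h : Spl F b al) (S : Finset ι) :
    ∃ bS : Module.Basis S K (Submodule.span K (b '' (S : Set ι))),
      (∀ i, (bS i : V) = b i) ∧ Spl F bS (rs (Submodule.span K (b '' (S : Set ι))) al) := by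
  obtain ⟨bS, hb, hrep, hout⟩ := span_bas b S
  refine ⟨bS, hb, fun y hy => ?_⟩
  have hy' : (y : V) ≠ 0 := fun h0 => hy (Subtype.ext h0)
  obtain ⟨h1, k, hk, h2⟩ := h (y : V) hy'
  have hrs : ∀ i, rs (Submodule.span K (b '' (S : Set ι))) al (bS i) = al (b i) := by
    intro i
    unfold rs
    rw [hb]
  refine ⟨fun i hi => ?_, ?_⟩
  · rw [hrs, hrep]
    rw [hrep] at hi
    exact h1 i hi
  · have hkS : k ∈ S := by
      by_contra hcon
      exact hk (hout y y.2 k hcon)
    refine ⟨⟨k, hkS⟩, ?_, ?_⟩
    · rw [hrep]
      exact hk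
    · rw [hrs, hrep]
      exact h2

variable [Module.Finite K V]

theorem adapt_fr {al : V → ℝ} (ha : SN F al) (E : Submodule K V) :
    ∃ (b : Bs K V) (S : Finset (Fin (Module.finrank K V))), Spl F b al ∧
      E = Submodule.span K (b '' (S : Set (Fin (Module.finrank K V)))) ∧
      S.card = Module.finrank K E := by
  obtain ⟨h0, b0, hb0⟩ := ha
  obtain ⟨b, S, hb, hE⟩ := adapt F (Module.finrank K V) V b0 al hb0 h0 E
  refine ⟨b, S, hb, hE, ?_⟩
  subst hE
  obtain ⟨bS, -, -⟩ := span_bas b S
  rw [Module.finrank_eq_card_basis bS, Fintype.card_coe]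

theorem rs_sn (E : Submodule K V) {al : V → ℝ} (ha : SN F al) : SN F (rs E al) := by
  obtain ⟨b, S, hb, hE, -⟩ := adapt_fr F ha E
  subst hE
  obtain ⟨bS, -, hbS⟩ := sub_spl F b hb S
  exact sn_of F bS hbS ha.1

end

end H31NA
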