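import Pool.Agent.H31.NA.GC

set_option autoImplicit false

/-!
# Row GI (MP_b319aa_NA, block G, file H31): the relative position of two norms does not depend on the common basis

PROOFS.
* equiv_of_cards: for every value c the fibres {i : f i = c} and {i : g i = c} have the same cardinality.  Proof: let c be a real.  The finite set of values of f and g that are > c; if c' is
  its minimum (or if it is empty: c' = c + 1) then {i : c < f i} = {i : c' ≤ f i} and {i : c < g i} = {i : c' ≤ g i}, so these have equal cardinality by h c'; and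
  #{f i = c} = #{c ≤ f i} - #{c < f i} (Finset.card_filter ..., disjoint union).  Then Equiv.ofFiberEquiv (or Fintype.card_congr + Fintype.equivOfCardEq on each fibre) gives a bijection
  s with g (s i) = f i.  [Alternative: compare Multiset.map f univ and Multiset.map g univ through countP / sorted lists.]
* count_le: c real, I = {i : c ≤ be (b i) - al (b i)}, J = {j : be (b' j) - al (b' j) < c}.  U = span (b '' I), W = span (b' '' J).  dim U = card I, dim W = card J.
  U ∩ W = 0: let x ≠ 0 in U ∩ W.  All non zero coordinates of x in b have index in I, all non zero coordinates in b' have index in J (Module.Basis.mem_span_image: x ∈ span (b '' I) iff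
  the support of b.repr x is in I).  Spl F b be: be x = v x_i + be (b i) with x_i ≠ 0, i ∈ I; al x ≤ v x_i + al (b i); so be x - al x ≥ be (b i) - al (b i) ≥ c.
  Spl F b' al: al x = v x'_j + al (b' j), x'_j ≠ 0, j ∈ J; be x ≤ v x'_j + be (b' j): be x - al x ≤ be (b' j) - al (b' j) < c.  Contradiction.
  So dim U + dim W = dim (U + W) ≤ finrank K V = card ι' (Submodule.finrank_add_finrank_le_of_disjoint), and card {j : c ≤ be (b' j) - al (b' j)} = card ι' - card J ≥ card I.
* relpos_gen: equiv_of_cards and count_le in both directions.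
-/

namespace H31NA

open H50NA

noncomputable section

variable {K : Type} [Field K] (F : VF K) {V : Type} [AddCommGroup V] [Module K V]

open Classical in
theorem GI_fib {ι ι' : Type} [Fintype ι] [Fintype ι'] (f : ι → ℝ) (g : ι' → ℝ)
    (h : ∀ c : ℝ, (Finset.univ.filter (fun i => c ≤ f i)).card =
      (Finset.univ.filter (fun i => c ≤ g i)).card) (c : ℝ) :
    (Finset.univ.filter (fun i => f i = c)).card = (Finset.univ.filter (fun i => g i = c)).card := by
  obtain ⟨c', hc', hf, hg⟩ : ∃ c' : ℝ, c < c' ∧ (∀ i, c < f i → c' ≤ f i) ∧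
      (∀ i, c < g i → c' ≤ g i) := by
    let T : Finset ℝ := (Finset.univ.image f ∪ Finset.univ.image g).filter (fun x => c < x)
    have hTf : ∀ i, c < f i → f i ∈ T := fun i hi => Finset.mem_filter.2
      ⟨Finset.mem_union_left _ (Finset.mem_image_of_mem f (Finset.mem_univ i)), hi⟩
    have hTg : ∀ i, c < g i → g i ∈ T := fun i hi => Finset.mem_filter.2
      ⟨Finset.mem_union_right _ (Finset.mem_image_of_mem g (Finset.mem_univ i)), hi⟩
    by_cases hT : T.Nonempty
    · exact ⟨T.min' hT, (Finset.mem_filter.1 (T.min'_mem hT)).2,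
        fun i hi => T.min'_le _ (hTf i hi), fun i hi => T.min'_le _ (hTg i hi)⟩
    · exact ⟨c + 1, by linarith, fun i hi => absurd ⟨_, hTf i hi⟩ hT,
        fun i hi => absurd ⟨_, hTg i hi⟩ hT⟩
  have key : ∀ {κ : Type} [Fintype κ] (u : κ → ℝ), (∀ i, c < u i → c' ≤ u i) →
      (Finset.univ.filter (fun i => c ≤ u i)).card =
        (Finset.univ.filter (fun i => u i = c)).card +
          (Finset.univ.filter (fun i => c' ≤ u i)).card := by
    intro κ _ u hu
    rw [← Finset.card_union_of_disjoint]
    · congr 1
      ext i
      simp only [Finset.mem_filter, Finset.mem_univ, true_and, Finset.mem_union]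
      constructor
      · intro hi
        rcases hi.eq_or_lt with h1 | h1
        · exact Or.inl h1.symm
        · exact Or.inr (hu i h1)
      · rintro (h1 | h1)
        · exact h1.ge
        · exact hc'.le.trans h1
    · rw [Finset.disjoint_left]
      intro i h1 h2
      rw [Finset.mem_filter] at h1 h2
      rw [h1.2] at h2
      exact absurd h2.2 (not_le.2 hc')
  have k1 := key f hf
  have k2 := key g hg
  have k3 := h c
  have k4 := h c'
  omega

open Classical in
theorem equiv_of_cards {ι ι' : Type} [Fintype ι] [Fintype ι'] (f : ι → ℝ) (g : ι' → ℝ)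
    (h : ∀ c : ℝ, (Finset.univ.filter (fun i => c ≤ f i)).card =
      (Finset.univ.filter (fun i => c ≤ g i)).card) :
    ∃ s : ι ≃ ι', ∀ i, f i = g (s i) := by
  have e : ∀ c : ℝ, Nonempty ({a // f a = c} ≃ {b // g b = c}) := by
    intro c
    rw [← Fintype.card_eq, Fintype.card_subtype, Fintype.card_subtype]
    exact GI_fib f g h c
  exact ⟨Equiv.ofFiberEquiv fun c => (e c).some, fun i =>
    (Equiv.ofFiberEquiv_map (fun c => (e c).some) i).symm⟩

open Classical in
theorem GI_rank {ι : Type} [Fintype ι] (b : Module.Basis ι K V) (I : Finset ι) :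
    Module.finrank K (Submodule.span K (b '' (I : Set ι))) = I.card := by
  have h1 : b '' (I : Set ι) = Set.range (fun i : {i // i ∈ I} => b i) := by
    ext x
    constructor
    · rintro ⟨i, hi, rfl⟩
      exact ⟨⟨i, hi⟩, rfl⟩
    · rintro ⟨⟨i, hi⟩, rfl⟩
      exact ⟨i, hi, rfl⟩
  have h2 : LinearIndependent K (fun i : {i // i ∈ I} => b i) :=
    b.linearIndependent.comp (fun i : {i // i ∈ I} => (i : ι)) Subtype.val_injective
  rw [h1, finrank_span_eq_card h2, Fintype.card_coe]

open Classical in
theorem count_le {ι ι' : Type} [Fintype ι] [Fintype ι'] {al be : V → ℝ} {b : Module.Basis ι K V}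
    {b' : Module.Basis ι' K V} (h1 : Spl F b al) (h2 : Spl F b be) (h3 : Spl F b' al)
    (h4 : Spl F b' be) (c : ℝ) : (Finset.univ.filter (fun i => c ≤ be (b i) - al (b i))).card ≤
      (Finset.univ.filter (fun i => c ≤ be (b' i) - al (b' i))).card := by
  haveI : FiniteDimensional K V := Module.Finite.of_basis b
  have hdisj : Disjoint
      (Submodule.span K (b '' ((Finset.univ.filter (fun i => c ≤ be (b i) - al (b i)) : Finset ι) :
        Set ι)))
      (Submodule.span K (b' '' ((Finset.univ.filter (fun i => ¬ c ≤ be (b' i) - al (b' i)) :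
        Finset ι') : Set ι'))) := by
    rw [Submodule.disjoint_def]
    intro x hxU hxW
    by_contra hx
    rw [Module.Basis.mem_span_image] at hxU hxW
    obtain ⟨i, hi, hi2⟩ := (h2 x hx).2
    have hi3 := (h1 x hx).1 i hi
    have hiI := hxU (Finset.mem_coe.2 (Finsupp.mem_support_iff.2 hi))
    rw [Finset.mem_coe, Finset.mem_filter] at hiI
    obtain ⟨j, hj, hj2⟩ := (h3 x hx).2
    have hj3 := (h4 x hx).1 j hj
    have hjJ := hxW (Finset.mem_coe.2 (Finsupp.mem_support_iff.2 hj))
    rw [Finset.mem_coe, Finset.mem_filter, not_le] at hjJ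
    have := hiI.2
    have := hjJ.2
    linarith
  have hle := Submodule.finrank_add_finrank_le_of_disjoint hdisj
  rw [GI_rank, GI_rank, Module.finrank_eq_card_basis b'] at hle
  have hcard := Finset.card_filter_add_card_filter_not (s := (Finset.univ : Finset ι'))
    (fun i => c ≤ be (b' i) - al (b' i))
  rw [Finset.card_univ] at hcard
  omega

theorem relpos_gen {ι ι' : Type} [Fintype ι] [Fintype ι'] {al be : V → ℝ}
    {b : Module.Basis ι K V} {b' : Module.Basis ι' K V} (h1 : Spl F b al) (h2 : Spl F b be)
    (h3 : Spl F b' al) (h4 : Spl F b' be) :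
    ∃ s : ι' ≃ ι, ∀ i, be (b' i) - al (b' i) = be (b (s i)) - al (b (s i)) :=
  equiv_of_cards (fun i => be (b' i) - al (b' i)) (fun i => be (b i) - al (b i))
    fun c => le_antisymm (count_le F h3 h4 h1 h2 c) (count_le F h1 h2 h3 h4 c)

end

end H31NA
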