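import Pool.Agent.H31.NA.GF
import Pool.Agent.H31.NA.GI

set_option autoImplicit false

/-!
# Row GJ (MP_b319aa_NA, block G): formulas for ds, rd in an arbitrary common basis

PROOFS.
* ds_gen / rd_gen: b is a common basis with index type ι; Fintype.card ι = finrank K V (Module.finrank_eq_card_basis), so reindexing b by an equivalence ι ≃ Fin (finrank K V) shows that the
  hypothesis h of the definition holds; ds is the square root of the sum for the chosen basis; its square is the sum (sum of squares ≥ 0, Real.sq_sqrt); GI.relpos_gen compares the chosen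
  basis and b: the sums are equal (Equiv.sum_comp).
* ds_nn: unfold, Real.sqrt_nonneg.
* ds_comm, rd_comm: common basis (GF.common) and ds_gen / rd_gen; ds both nonnegative with equal squares.
-/

namespace H31NA

open H50NA

noncomputable section

variable {K : Type} [Field K] (F : VF K) {V : Type} [AddCommGroup V] [Module K V] [Module.Finite K V]

omit [Module.Finite K V] in
private theorem GJ_reidx {ι : Type} {al : V → ℝ} {b : Module.Basis ι K V}
    (e : ι ≃ Fin (Module.finrank K V)) (h : Spl F b al) : Spl F (b.reindex e) al := by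
  intro x hx
  obtain ⟨h1, i, h2, h3⟩ := h x hx
  refine ⟨fun j hj => ?_, e i, ?_, ?_⟩
  · rw [Module.Basis.repr_reindex_apply] at hj ⊢
    rw [Module.Basis.reindex_apply]
    exact h1 _ hj
  · rw [Module.Basis.repr_reindex_apply, e.symm_apply_apply]
    exact h2
  · rw [Module.Basis.repr_reindex_apply, e.symm_apply_apply, Module.Basis.reindex_apply, e.symm_apply_apply]
    exact h3

omit [Module.Finite K V] in
private theorem GJ_ex {ι : Type} [Fintype ι] {al be : V → ℝ} {b : Module.Basis ι K V} (h1 : Spl F b al)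
    (h2 : Spl F b be) : ∃ b : Bs K V, Spl F b al ∧ Spl F b be := by
  let e := Fintype.equivFinOfCardEq (Module.finrank_eq_card_basis b).symm
  exact ⟨b.reindex e, GJ_reidx F e h1, GJ_reidx F e h2⟩

theorem ds_gen {ι : Type} [Fintype ι] {al be : V → ℝ} {b : Module.Basis ι K V} (h1 : Spl F b al)
    (h2 : Spl F b be) : ds F al be ^ 2 = ∑ i, (be (b i) - al (b i)) ^ 2 := by
  have h := GJ_ex F h1 h2
  unfold ds
  rw [dif_pos h, Real.sq_sqrt (Finset.sum_nonneg fun i _ => sq_nonneg _)]
  obtain ⟨s, hs⟩ := relpos_gen F h1 h2 h.choose_spec.1 h.choose_spec.2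
  rw [← Equiv.sum_comp s (fun i => (be (b i) - al (b i)) ^ 2)]
  exact Finset.sum_congr rfl fun i _ => by rw [hs i]

theorem rd_gen {ι : Type} [Fintype ι] {al be : V → ℝ} {b : Module.Basis ι K V} (h1 : Spl F b al)
    (h2 : Spl F b be) : rd F al be = ∑ i, (be (b i) - al (b i)) := by
  have h := GJ_ex F h1 h2
  unfold rd
  rw [dif_pos h]
  obtain ⟨s, hs⟩ := relpos_gen F h1 h2 h.choose_spec.1 h.choose_spec.2
  rw [← Equiv.sum_comp s (fun i => be (b i) - al (b i))]
  exact Finset.sum_congr rfl fun i _ => hs i

theorem ds_nn (al be : V → ℝ) : 0 ≤ ds F al be := by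
  unfold ds
  split_ifs
  · exact Real.sqrt_nonneg _
  · exact le_refl _

theorem ds_comm {al be : V → ℝ} (ha : SN F al) (hb : SN F be) : ds F al be = ds F be al := by
  obtain ⟨b, h1, h2⟩ := common F ha hb
  rw [← abs_of_nonneg (ds_nn F al be), ← abs_of_nonneg (ds_nn F be al), ← sq_eq_sq_iff_abs_eq_abs,
    ds_gen F h1 h2, ds_gen F h2 h1]
  exact Finset.sum_congr rfl fun i _ => by ring

theorem rd_comm {al be : V → ℝ} (ha : SN F al) (hb : SN F be) : rd F al be = - rd F be al := by
  obtain ⟨b, h1, h2⟩ := common F ha hb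
  rw [rd_gen F h1 h2, rd_gen F h2 h1, ← Finset.sum_neg_distrib]
  exact Finset.sum_congr rfl fun i _ => by ring

end

end H31NA
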