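import Pool.Agent.H31.NA.GM
import Pool.Agent.H31.NA.GC

/-!
# Row GO (MP_b319aa_NA, block G): bases adapted to a decomposition

PROOFS.
* coll_repr: hE.collectedBasis e is a basis indexed by (b, i), with value (e b i : V) (DirectSum.IsInternal.collectedBasis_coe).  Its coordinates: x = sum over b of cpt E b x and
  cpt E b x = sum over i of (e b).repr ⟨cpt E b x, _⟩ i • e b i (finite support); so the coordinate of x at (b, i) is (e b).repr ⟨cpt E b x, cpt_mem⟩ i.
  [For instance: both sides are linear in x (GM.cpt_add, cpt_smul); or unfold collectedBasis: it is Module.Basis.ofRepr of the composition of the inverse of the coeLinearMap equivalence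
  with the componentwise repr, and cpt is defined with the same equivalence; or DirectSum.IsInternal.collectedBasis_repr_of_mem / collectedBasis_repr_of_mem_ne for x in a component and
  additivity.]
* coll_spl: x ≠ 0.  If the coordinate at (b, i) is not zero then cpt E b x ≠ 0 and al x ≤ al (cpt E b x) ≤ v (coordinate) + al (e b i) (SpD, then Spl for the non zero element
  ⟨cpt E b x, _⟩ of E b).  Conversely SpD gives b with cpt E b x ≠ 0, al x = al (cpt E b x), and Spl gives i.
* spd_of_bas: f is a basis splitting be and f i ∈ E (s i).  cpt E b x = sum over the i with s i = b of x_i • f i (GM.cpt_uniq: these sums lie in E b and their sum is x, Module.Basis.sum_repr,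
  Finset.sum_fiberwise), so f.repr (cpt E b x) i = x_i if s i = b, 0 otherwise.  If cpt E b x ≠ 0: Spl F f be at cpt E b x gives i with s i = b, x_i ≠ 0 and
  be (cpt E b x) = v x_i + be (f i) ≥ be x.  And the i attaining be x, with b = s i: cpt E b x ≠ 0 (its i-th coordinate is x_i) and be (cpt E b x) ≤ v x_i + be (f i) = be x; with the first
  inequality: equality.
-/

set_option autoImplicit false

namespace H31NA

open H50NA

noncomputable section

variable {K : Type} [Field K] (F : VF K) {V : Type} [AddCommGroup V] [Module K V]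
variable {N : ℕ} {E : Fin N → Submodule K V}

theorem coll_repr (hE : DirectSum.IsInternal E) {κ : Fin N → Type}
    (e : ∀ b, Module.Basis (κ b) K (E b)) (x : V) (b : Fin N) (i : κ b) :
    (hE.collectedBasis e).repr x ⟨b, i⟩ = (e b).repr ⟨cpt E b x, cpt_mem E b x⟩ i := by
  have h1 : (hE.collectedBasis e).repr x ⟨b, i⟩ =
      ∑ b', (hE.collectedBasis e).repr (cpt E b' x) ⟨b, i⟩ := by
    conv_lhs => rw [← cpt_sum hE x]
    rw [map_sum, Finsupp.finsetSum_apply]
  rw [h1, Finset.sum_eq_single b]
  · exact hE.collectedBasis_repr_of_mem e (cpt_mem E b x)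
  · intro b' _ hb
    exact hE.collectedBasis_repr_of_mem_ne e hb (cpt_mem E b' x)
  · intro h
    exact absurd (Finset.mem_univ b) h

theorem coll_spl (hE : DirectSum.IsInternal E) {κ : Fin N → Type}
    (e : ∀ b, Module.Basis (κ b) K (E b)) {al : V → ℝ} (h : SpD E al)
    (he : ∀ b, Spl F (e b) (rs (E b) al)) : Spl F (hE.collectedBasis e) al := by
  intro x hx
  have hv : ∀ b i, (hE.collectedBasis e) ⟨b, i⟩ = ((e b i : E b) : V) := fun b i => by
    rw [DirectSum.IsInternal.collectedBasis_coe]
  obtain ⟨h1, b0, hb0, h2⟩ := h x hx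
  have key : ∀ b, cpt E b x ≠ 0 → (⟨cpt E b x, cpt_mem E b x⟩ : E b) ≠ 0 :=
    fun b hb h0 => hb (congrArg Subtype.val h0)
  constructor
  · rintro ⟨b, i⟩ hi
    rw [coll_repr] at hi ⊢
    have hb : cpt E b x ≠ 0 := by
      intro h0
      apply hi
      have h3 : (⟨cpt E b x, cpt_mem E b x⟩ : E b) = 0 := Subtype.ext h0
      rw [h3, map_zero]
      rfl
    have h3 := (he b _ (key b hb)).1 i hi
    rw [hv]
    exact (h1 b hb).trans h3
  · obtain ⟨-, i, hi, h3⟩ := he b0 _ (key b0 hb0)
    refine ⟨⟨b0, i⟩, ?_, ?_⟩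
    · rw [coll_repr]
      exact hi
    · rw [coll_repr, hv, h2]
      exact h3

theorem GO_repr (hE : DirectSum.IsInternal E) {ι : Type} [Fintype ι] (f : Module.Basis ι K V)
    (s : ι → Fin N) (hs : ∀ i, f i ∈ E (s i)) (x : V) (b : Fin N) (i : ι) :
    f.repr (cpt E b x) i = if s i = b then f.repr x i else 0 := by
  classical
  have h1 : cpt E b x = ∑ j ∈ Finset.univ.filter (fun j => s j = b), f.repr x j • f j := by
    refine cpt_uniq hE (y := fun b => ∑ j ∈ Finset.univ.filter (fun j => s j = b),
      f.repr x j • f j) ?_ ?_ b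
    · intro b'
      refine Submodule.sum_mem _ fun j hj => Submodule.smul_mem _ _ ?_
      have h2 := (Finset.mem_filter.1 hj).2
      rw [← h2]
      exact hs j
    · rw [Finset.sum_fiberwise, f.sum_repr]
  rw [h1, map_sum, Finsupp.finsetSum_apply]
  simp only [map_smul, Finsupp.smul_apply, f.repr_self, Finsupp.single_apply, smul_eq_mul, mul_ite,
    mul_one, mul_zero]
  rw [Finset.sum_ite_eq']
  simp [Finset.mem_filter]

theorem spd_of_bas (hE : DirectSum.IsInternal E) {ι : Type} [Fintype ι] {f : Module.Basis ι K V}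
    {be : V → ℝ} (hf : Spl F f be) (s : ι → Fin N) (hs : ∀ i, f i ∈ E (s i)) : SpD E be := by
  intro x hx
  obtain ⟨h1, i0, hi0, h2⟩ := hf x hx
  have key : ∀ b, cpt E b x ≠ 0 → be x ≤ be (cpt E b x) := by
    intro b hb
    obtain ⟨-, i, hi, h3⟩ := hf _ hb
    rw [GO_repr hE f s hs] at hi h3
    by_cases hsi : s i = b
    · rw [if_pos hsi] at hi h3
      rw [h3]
      exact h1 i hi
    · rw [if_neg hsi] at hi
      exact absurd rfl hi
  have hne : cpt E (s i0) x ≠ 0 := by
    intro h0
    have h4 := GO_repr hE f s hs x (s i0) i0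
    rw [h0, map_zero, if_pos rfl] at h4
    exact hi0 h4.symm
  refine ⟨key, s i0, hne, le_antisymm (key _ hne) ?_⟩
  have h5 := (hf _ hne).1 i0 (by rw [GO_repr hE f s hs, if_pos rfl]; exact hi0)
  rw [GO_repr hE f s hs, if_pos rfl] at h5
  rw [h2]
  exact h5

end

end H31NA
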