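import Pool.Agent.H31.NA.GN
import Pool.Agent.H31.NA.GO
import Pool.Agent.H31.NA.GH
import Pool.Agent.H31.NA.GJ
import Pool.Agent.H31.NA.GK

set_option autoImplicit false

/-!
# Row GP (MP_b319aa_NA, block G): norms split along a decomposition

PROOFS.  Let al, be be splittable and split along E.  For each b the norms rs (E b) al, rs (E b) be are splittable (GH.rs_sn), so there is a common basis e b (GF.common for E b; E b is
finite dimensional: a submodule of a finite dimensional space).  B := hE.collectedBasis e splits al and be (GO.coll_spl), B (b, i) = e b i (DirectSum.IsInternal.collectedBasis_coe).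
* osm_sn: choose bases e b splitting rs (E b) al = rs (E b) (osm E al) (GN.osm_rs); osm E al is split along E (GN.osm_spd); B splits it; GC.sn_of (finite index type Σ b, Fin (finrank K (E b)));
  osm E al 0 = 0.
* rd_spd: GJ.rd_gen with B, Fintype.sum_sigma, GJ.rd_gen on each E b.
* ds_spd: same with GJ.ds_gen.
* rd_osm, ds_osm: rd_spd / ds_spd for osm E al, osm E be, and GN.osm_rs.
* gmf_spd: B splits gmf F al be t, with value (1-t) al (e b i) + t be (e b i) at (b, i) (GK.gmf_gen); GO.spd_of_bas with s (b, i) = b gives SpD E (gmf F al be t).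
  rs (E b) (gmf F al be t) is split by e b [for y ∈ E b, y ≠ 0, the coordinates of y in B: GO.coll_repr: cpt E b y = y, cpt E b' y = 0 for b' ≠ b; so only indices (b, i) occur] and has on e b i the value of
  gmf F (rs (E b) al) (rs (E b) be) t (GK.gmf_gen for E b); GB.spl_ext (both vanish at 0: GK.gmf_at_zero).
-/

namespace H31NA

open H50NA

noncomputable section

variable {K : Type} [Field K] (F : VF K) {V : Type} [AddCommGroup V] [Module K V] [Module.Finite K V]
variable {N : ℕ} {E : Fin N → Submodule K V}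

theorem GP_common {al be : V → ℝ} (ha : SN F al) (hb : SN F be) :
    ∃ e : ∀ b : Fin N, Bs K (E b), ∀ b, Spl F (e b) (rs (E b) al) ∧ Spl F (e b) (rs (E b) be) := by
  have h := fun b : Fin N => common F (rs_sn F (E b) ha) (rs_sn F (E b) hb)
  choose e he using h
  exact ⟨e, he⟩

omit [Module.Finite K V] in
theorem GP_coe (hE : DirectSum.IsInternal E) (e : ∀ b, Bs K (E b)) (b : Fin N)
    (i : Fin (Module.finrank K (E b))) : (hE.collectedBasis e) ⟨b, i⟩ = (e b i : V) := by
  rw [DirectSum.IsInternal.collectedBasis_coe]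

theorem osm_sn (hE : DirectSum.IsInternal E) {al : V → ℝ} (ha : SN F al) : SN F (osm E al) := by
  obtain ⟨e, he⟩ := GP_common F (E := E) ha ha
  have h0 : al 0 = 0 := ha.1
  have hB : Spl F (hE.collectedBasis e) (osm E al) :=
    coll_spl F hE e (osm_spd hE h0) fun b => by
      rw [osm_rs hE h0 b]
      exact (he b).1
  exact sn_of F _ hB (osm_zero E al)

theorem rd_spd (hE : DirectSum.IsInternal E) {al be : V → ℝ} (ha : SN F al) (hb : SN F be)
    (h1 : SpD E al) (h2 : SpD E be) :
    rd F al be = ∑ b, rd F (rs (E b) al) (rs (E b) be) := by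
  obtain ⟨e, he⟩ := GP_common F (E := E) ha hb
  have hBa := coll_spl F hE e h1 fun b => (he b).1
  have hBb := coll_spl F hE e h2 fun b => (he b).2
  rw [rd_gen F hBa hBb, Fintype.sum_sigma]
  refine Finset.sum_congr rfl fun b _ => ?_
  rw [rd_gen F (he b).1 (he b).2]
  refine Finset.sum_congr rfl fun i _ => ?_
  rw [GP_coe hE e b i]
  rfl

theorem ds_spd (hE : DirectSum.IsInternal E) {al be : V → ℝ} (ha : SN F al) (hb : SN F be)
    (h1 : SpD E al) (h2 : SpD E be) :
    ds F al be ^ 2 = ∑ b, ds F (rs (E b) al) (rs (E b) be) ^ 2 := by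
  obtain ⟨e, he⟩ := GP_common F (E := E) ha hb
  have hBa := coll_spl F hE e h1 fun b => (he b).1
  have hBb := coll_spl F hE e h2 fun b => (he b).2
  rw [ds_gen F hBa hBb, Fintype.sum_sigma]
  refine Finset.sum_congr rfl fun b _ => ?_
  rw [ds_gen F (he b).1 (he b).2]
  refine Finset.sum_congr rfl fun i _ => ?_
  rw [GP_coe hE e b i]
  rfl

theorem rd_osm (hE : DirectSum.IsInternal E) {al be : V → ℝ} (ha : SN F al) (hb : SN F be) :
    rd F (osm E al) (osm E be) = ∑ b, rd F (rs (E b) al) (rs (E b) be) := by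
  rw [rd_spd F hE (osm_sn F hE ha) (osm_sn F hE hb) (osm_spd hE ha.1) (osm_spd hE hb.1)]
  refine Finset.sum_congr rfl fun b _ => ?_
  rw [osm_rs hE ha.1 b, osm_rs hE hb.1 b]

theorem ds_osm (hE : DirectSum.IsInternal E) {al be : V → ℝ} (ha : SN F al) (hb : SN F be) :
    ds F (osm E al) (osm E be) ^ 2 = ∑ b, ds F (rs (E b) al) (rs (E b) be) ^ 2 := by
  rw [ds_spd F hE (osm_sn F hE ha) (osm_sn F hE hb) (osm_spd hE ha.1) (osm_spd hE hb.1)]
  refine Finset.sum_congr rfl fun b _ => ?_
  rw [osm_rs hE ha.1 b, osm_rs hE hb.1 b]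

omit [Module.Finite K V] in
theorem GP_sub (hE : DirectSum.IsInternal E) {κ : Fin N → Type}
    (e : ∀ b, Module.Basis (κ b) K (E b)) {ga : V → ℝ} (h : Spl F (hE.collectedBasis e) ga)
    (b : Fin N) : Spl F (e b) (rs (E b) ga) := by
  intro y hy
  have hy' : (y : V) ≠ 0 := fun h0 => hy (Subtype.ext h0)
  obtain ⟨h1, ⟨b', i⟩, h2, h3⟩ := h (y : V) hy'
  have hc : ∀ i, (hE.collectedBasis e).repr (y : V) ⟨b, i⟩ = (e b).repr y i := by
    intro i
    rw [coll_repr hE e]
    congr 2
    exact Subtype.ext (cpt_of_mem hE y.2)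
  have hv : ∀ i, (hE.collectedBasis e) ⟨b, i⟩ = (e b i : V) := by
    intro i
    rw [DirectSum.IsInternal.collectedBasis_coe]
  refine ⟨fun i hi => ?_, ?_⟩
  · have h4 := h1 ⟨b, i⟩ (by rw [hc]; exact hi)
    rw [hc, hv] at h4
    exact h4
  · by_cases hb : b' = b
    · subst hb
      rw [hc] at h2
      rw [hc, hv] at h3
      exact ⟨i, h2, h3⟩
    · exfalso
      apply h2
      rw [coll_repr hE e]
      have h5 : (⟨cpt E b' (y : V), cpt_mem E b' (y : V)⟩ : E b') = 0 :=
        Subtype.ext (cpt_of_ne hE hb y.2)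
      rw [h5, map_zero]
      rfl

theorem gmf_spd (hE : DirectSum.IsInternal E) {al be : V → ℝ} (ha : SN F al) (hb : SN F be)
    (h1 : SpD E al) (h2 : SpD E be) (t : ℝ) (h0 : 0 ≤ t) (h1' : t ≤ 1) : SpD E (gmf F al be t) ∧
      ∀ b, rs (E b) (gmf F al be t) = gmf F (rs (E b) al) (rs (E b) be) t := by
  obtain ⟨e, he⟩ := GP_common F (E := E) ha hb
  have hBa := coll_spl F hE e h1 fun b => (he b).1
  have hBb := coll_spl F hE e h2 fun b => (he b).2
  obtain ⟨hg, hgv⟩ := gmf_gen F hBa hBb h0 h1'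
  refine ⟨spd_of_bas F hE hg (fun x => x.1) fun x => ?_, fun b => ?_⟩
  · rw [DirectSum.IsInternal.collectedBasis_coe]
    exact (e x.1 x.2).2
  · obtain ⟨hc, hcv⟩ := gmf_gen F (he b).1 (he b).2 h0 h1'
    refine spl_ext F (GP_sub F hE e hg b) hc ?_ fun i => ?_
    · rw [gmf_at_zero F (rs_sn F (E b) ha) t]
      exact gmf_at_zero F ha t
    · rw [hcv]
      have h3 := hgv ⟨b, i⟩
      rw [GP_coe hE e b i] at h3
      exact h3

end

end H31NA
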