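import Pool.Agent.H31.NA.GY
import Pool.Agent.H31.NA.GL

set_option autoImplicit false

/-!
# Row GYb (MP_b319aa_NA, block G): completeness of the space of splittable norms

PROOF.  By GL.abs_le_ds |al n x - al m x| ≤ ds F (al m) (al n) for all x, so for every x the sequence al n x is Cauchy in R; let be x be its limit (cauchySeq_tendsto_of_complete, choose).
Given eps > 0 let N be as in hc for eps; for m ≥ N and all x: |be x - al m x| ≤ eps (limit n → infinity of |al n x - al m x| < eps).  GY.lim_sn with n0 = N for eps = 1, C = 1: SN F be.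
By GL.ds_le_sup: ds F (al m) be ≤ sqrt (finrank) * eps for m ≥ N(eps).  As eps is arbitrary (and ds ≥ 0, GJ.ds_nn): ds F (al m) be → 0.
-/

namespace H31NA

open H50NA Filter Topology

noncomputable section

variable {K : Type} [Field K] (F : VF K) {V : Type} [AddCommGroup V] [Module K V] [Module.Finite K V]

theorem complete {al : ℕ → V → ℝ} (h : ∀ n, SN F (al n))
    (hc : ∀ ε : ℝ, 0 < ε → ∃ N : ℕ, ∀ m ≥ N, ∀ n ≥ N, ds F (al m) (al n) < ε) :
    ∃ be : V → ℝ, SN F be ∧ Tendsto (fun n => ds F (al n) be) atTop (𝓝 0) := by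
  have hcs : ∀ x : V, CauchySeq (fun n => al n x) := by
    intro x
    rw [Metric.cauchySeq_iff]
    intro ε hε
    obtain ⟨N, hN⟩ := hc ε hε
    refine ⟨N, fun m hm n hn => ?_⟩
    rw [Real.dist_eq]
    exact (abs_le_ds F (h n) (h m) x).trans_lt (hN n hn m hm)
  choose be hbe using fun x => cauchySeq_tendsto_of_complete (hcs x)
  have key : ∀ ε : ℝ, 0 < ε → ∃ N : ℕ, ∀ m ≥ N, ∀ x : V, |be x - al m x| ≤ ε := by
    intro ε hε
    obtain ⟨N, hN⟩ := hc ε hε
    refine ⟨N, fun m hm x => ?_⟩
    have h1 : Tendsto (fun n => |al n x - al m x|) atTop (𝓝 |be x - al m x|) :=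
      ((hbe x).sub_const _).abs
    refine le_of_tendsto h1 ?_
    filter_upwards [eventually_ge_atTop N] with n hn
    exact ((abs_le_ds F (h m) (h n) x).trans_lt (hN m hm n hn)).le
  obtain ⟨N1, hN1⟩ := key 1 one_pos
  have hsn : SN F be := lim_sn F h hbe N1 1 fun x _ => hN1 N1 le_rfl x
  refine ⟨be, hsn, ?_⟩
  rw [Metric.tendsto_atTop]
  intro ε hε
  have hC : (0 : ℝ) < Real.sqrt (Module.finrank K V) + 1 := by
    have := Real.sqrt_nonneg (Module.finrank K V : ℝ)
    linarith
  obtain ⟨N, hN⟩ := key (ε / (2 * (Real.sqrt (Module.finrank K V) + 1))) (by positivity)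
  refine ⟨N, fun n hn => ?_⟩
  rw [Real.dist_eq, sub_zero, abs_of_nonneg (ds_nn F _ _)]
  have h1 := ds_le_sup F (h n) hsn (c := ε / (2 * (Real.sqrt (Module.finrank K V) + 1)))
    (by positivity) (hN n hn)
  have h2 : Real.sqrt (Module.finrank K V) *
      (ε / (2 * (Real.sqrt (Module.finrank K V) + 1))) ≤
      (Real.sqrt (Module.finrank K V) + 1) *
      (ε / (2 * (Real.sqrt (Module.finrank K V) + 1))) := by
    apply mul_le_mul_of_nonneg_right (by linarith)
    positivity
  have h3 : (Real.sqrt (Module.finrank K V) + 1) *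
      (ε / (2 * (Real.sqrt (Module.finrank K V) + 1))) = ε / 2 := by
    field_simp
  linarith

end

end H31NA
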