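import Pool.Agent.H50.NA.Inst
import Pool.Agent.H31.NA.GYb

set_option autoImplicit false

/-!
# The space of splittable norms is complete
-/

namespace H50NA

open MeasureTheory Set Filter Topology

noncomputable section

variable {K : Type} [Field K] (F : VF K) {V : Type} [AddCommGroup V] [Module K V] [Module.Finite K V]

instance cplNm : CompleteSpace (Nm F V) := by
  apply Metric.complete_of_cauchySeq_tendsto
  intro u hu
  obtain ⟨be, hbe, hl⟩ := H31NA.complete F (al := fun n => (u n).1) (fun n => (u n).2) (by
    intro e he
    obtain ⟨N, hN⟩ := Metric.cauchySeq_iff.1 hu e he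
    exact ⟨N, fun m hm n hn => hN m hm n hn⟩)
  refine ⟨⟨be, hbe⟩, ?_⟩
  rw [tendsto_iff_dist_tendsto_zero]
  exact hl

end

end H50NA
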