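import Pool.Agent.H50.NA.Defs

/-!
# Row GA (MP_b319aa_NA, block G): elementary facts on the valuation

F : VF K is a function v : K → R with (for non zero x, y) v (x y) = v x + v y, v (x + y) ≥ min (v x) (v y) if x + y ≠ 0.
All statements only concern non zero elements (v 0 is junk).

PROOFS.
* v_one: 1 = 1 * 1 gives v 1 = v 1 + v 1.
* v_neg: (-1) * (-1) = 1 gives 2 v (-1) = 0; -x = (-1) * x.
* v_inv: x * x⁻¹ = 1.  v_div: x / y = x * y⁻¹.
* v_prod: induction on the finset (Finset.induction_on, with classical decidable equality).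
* v_sum: induction on the finset: for insert a s, the sum is f a + S with S = sum over s.  If f a = 0 the total is S: induction.
  If S = 0 the total is f a: take a.  Otherwise F.add gives min (v (f a)) (v S) ≤ v (f a + S): take a or the index given by induction.
* v_strict: x + y ≠ 0, otherwise y = -x and v y = v x.  v (x + y) ≥ min (v x) (v y) = v x.  Conversely x = (x + y) + (-y), x ≠ 0:
  v x ≥ min (v (x + y)) (v y); as v y > v x the minimum must be v (x + y), so v (x + y) ≤ v x.
-/

set_option autoImplicit false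

namespace H31NA

open H50NA

variable {K : Type} [Field K] (F : VF K)

theorem v_one : F.v 1 = 0 := by
  have h := F.mul 1 1 one_ne_zero one_ne_zero
  rw [mul_one] at h
  linarith

theorem v_neg {x : K} (hx : x ≠ 0) : F.v (-x) = F.v x := by
  have h1 : (-1 : K) ≠ 0 := neg_ne_zero.2 one_ne_zero
  have h := F.mul (-1) (-1) h1 h1
  rw [neg_mul_neg, mul_one, v_one] at h
  have h2 := F.mul (-1) x h1 hx
  rw [neg_one_mul] at h2
  linarith

theorem v_inv {x : K} (hx : x ≠ 0) : F.v x⁻¹ = - F.v x := by
  have h := F.mul x x⁻¹ hx (inv_ne_zero hx)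
  rw [mul_inv_cancel₀ hx, v_one] at h
  linarith

theorem v_div {x y : K} (hx : x ≠ 0) (hy : y ≠ 0) : F.v (x / y) = F.v x - F.v y := by
  rw [div_eq_mul_inv, F.mul x y⁻¹ hx (inv_ne_zero hy), v_inv F hy]
  ring

theorem v_prod {ι : Type} (s : Finset ι) (f : ι → K) (h : ∀ i ∈ s, f i ≠ 0) :
    F.v (∏ i ∈ s, f i) = ∑ i ∈ s, F.v (f i) := by
  classical
  induction s using Finset.induction_on with
  | empty => simp [v_one]
  | insert a s ha ih =>
    rw [Finset.prod_insert ha, Finset.sum_insert ha, F.mul _ _ (h a (Finset.mem_insert_self a s))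
      (Finset.prod_ne_zero_iff.2 fun i hi => h i (Finset.mem_insert_of_mem hi)),
      ih fun i hi => h i (Finset.mem_insert_of_mem hi)]

theorem v_sum {ι : Type} (s : Finset ι) (f : ι → K) (h : ∑ i ∈ s, f i ≠ 0) :
    ∃ i ∈ s, f i ≠ 0 ∧ F.v (f i) ≤ F.v (∑ i ∈ s, f i) := by
  classical
  induction s using Finset.induction_on with
  | empty => exact absurd (Finset.sum_empty) h
  | insert a s ha ih =>
    rw [Finset.sum_insert ha] at h ⊢
    by_cases h1 : f a = 0
    · rw [h1, zero_add] at h ⊢
      obtain ⟨i, hi, h2, h3⟩ := ih h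
      exact ⟨i, Finset.mem_insert_of_mem hi, h2, h3⟩
    · by_cases h2 : ∑ i ∈ s, f i = 0
      · rw [h2, add_zero]
        exact ⟨a, Finset.mem_insert_self a s, h1, le_rfl⟩
      · rcases min_le_iff.1 (F.add _ _ h1 h2 h) with h3 | h3
        · exact ⟨a, Finset.mem_insert_self a s, h1, h3⟩
        · obtain ⟨i, hi, h4, h5⟩ := ih h2
          exact ⟨i, Finset.mem_insert_of_mem hi, h4, h5.trans h3⟩

theorem v_strict {x y : K} (hx : x ≠ 0) (hy : y ≠ 0) (h : F.v x < F.v y) :
    x + y ≠ 0 ∧ F.v (x + y) = F.v x := by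
  have h0 : x + y ≠ 0 := by
    intro h1
    have h2 : y = -x := (neg_eq_of_add_eq_zero_right h1).symm
    rw [h2, v_neg F hx] at h
    exact lt_irrefl _ h
  refine ⟨h0, le_antisymm ?_ ?_⟩
  · have h1 : x + y + -y = x := by ring
    have h2 := F.add (x + y) (-y) h0 (neg_ne_zero.2 hy) (by rw [h1]; exact hx)
    rw [h1, v_neg F hy] at h2
    rcases min_le_iff.1 h2 with h3 | h3
    · exact h3
    · exact absurd h (not_lt.2 h3)
  · have h2 := F.add x y hx hy h0
    rwa [min_eq_left h.le] at h2

end H31NA
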