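import Pool.Agent.H31.NA.GA

/-!
# Row GB (MP_b319aa_NA, block G): elementary facts on norms (Nrm) and splitting bases (Spl)

al : V → R is a norm (Nrm F al): al 0 = 0, al (c x) = v c + al x for c, x ≠ 0, al (x + y) ≥ min (al x) (al y) for x, y, x + y ≠ 0.
Spl F b al: for x ≠ 0, al x = min over the i with x_i ≠ 0 of v x_i + al (b_i), x_i = b.repr x i.

PROOFS.
* nrm_neg: x = 0 clear; otherwise -x = (-1) • x and v (-1) = v 1 = 0 (GA.v_neg, v_one).
* nrm_sub_comm: y - x = -(x - y).
* nrm_strict: as v_strict: x + y ≠ 0, otherwise y = -x and al y = al x.  al (x + y) ≥ min = al x; x = (x + y) + (-y) gives al x ≥ min (al (x+y)) (al y),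
  and al y > al x, so al (x + y) ≤ al x.
* nrm_lead: if y = x clear; otherwise z := y - x satisfies al x < al z, z ≠ 0 (if z = 0 then y = x), y = x + z: nrm_strict.
* nrm_sum: induction on the finset, exactly as v_sum.
* nrm_rs: immediate (coercions; an element of E is zero iff its coercion is zero).
* nrm_ge: x = sum over i in (b.repr x).support of x_i • b_i (Module.Basis.sum_repr needs Fintype; in general b.linearCombination_repr x and
  Finsupp.linearCombination_apply, Finsupp.sum).  nrm_sum with s = support, f i = x_i • b_i: there is i in the support with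
  al (x_i • b_i) ≤ al x and al (x_i • b_i) = v x_i + al b_i (b_i ≠ 0: b.ne_zero i; K is nontrivial).
* spl_of: the first half is hu, for the second half take the i of nrm_ge and antisymmetry.
* spl_nrm: smul: repr (c • x) i = c * x_i, which is non zero iff x_i ≠ 0, and v (c * x_i) = v c + v x_i: if i attains al (c x) then
  al (c x) = v c + v x_i + al b_i ≥ v c + al x; if j attains al x then al (c x) ≤ v c + v x_j + al b_j = v c + al x.
  add: let i attain al (x + y): (x+y)_i = x_i + y_i ≠ 0 and al (x + y) = v (x_i + y_i) + al b_i.  If y_i = 0: this is v x_i + al b_i ≥ al x (x ≠ 0 as x_i ≠ 0).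
  Similarly if x_i = 0.  Otherwise v (x_i + y_i) ≥ min (v x_i) (v y_i), so al (x+y) ≥ min (v x_i + al b_i) (v y_i + al b_i) ≥ min (al x) (al y).
* spl_ext: for x ≠ 0 let i attain al x: be x ≤ v x_i + be b_i = v x_i + al b_i = al x; symmetric.
* spl_val: i attains al x; v x_i = n w by F.dis.
* spl_reindex: (b.reindex e).repr x j = b.repr x (e.symm j), (b.reindex e) j = b (e.symm j).
* spl_le: nrm_ge for al: i with x_i ≠ 0 and v x_i + al b_i ≤ al x; be x ≤ v x_i + be b_i ≤ v x_i + al b_i + C ≤ al x + C.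
-/

set_option autoImplicit false

namespace H31NA

open H50NA

noncomputable section

variable {K : Type} [Field K] (F : VF K) {V : Type} [AddCommGroup V] [Module K V]

theorem nrm_neg {al : V → ℝ} (h : Nrm F al) (x : V) : al (-x) = al x := by
  by_cases hx : x = 0
  · rw [hx, neg_zero]
  · have h1 := h.smul (-1) x (neg_ne_zero.2 one_ne_zero) hx
    rw [neg_one_smul, v_neg F one_ne_zero, v_one, zero_add] at h1
    exact h1

theorem nrm_sub_comm {al : V → ℝ} (h : Nrm F al) (x y : V) : al (x - y) = al (y - x) := by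
  rw [← nrm_neg F h (y - x), neg_sub]

theorem nrm_strict {al : V → ℝ} (h : Nrm F al) {x y : V} (hx : x ≠ 0) (hy : y ≠ 0)
    (hlt : al x < al y) : x + y ≠ 0 ∧ al (x + y) = al x := by
  have h0 : x + y ≠ 0 := by
    intro h1
    have h2 : y = -x := (neg_eq_of_add_eq_zero_right h1).symm
    rw [h2, nrm_neg F h] at hlt
    exact lt_irrefl _ hlt
  refine ⟨h0, le_antisymm ?_ ?_⟩
  · have h3 := h.add (x + y) (-y) h0 (neg_ne_zero.2 hy) (by rwa [add_neg_cancel_right])
    rw [add_neg_cancel_right, nrm_neg F h] at h3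
    rcases min_le_iff.1 h3 with h4 | h4
    · exact h4
    · exact absurd hlt (not_lt.2 h4)
  · have h3 := h.add x y hx hy h0
    rwa [min_eq_left hlt.le] at h3

theorem nrm_lead {al : V → ℝ} (h : Nrm F al) {x y : V} (hx : x ≠ 0)
    (hy : y = x ∨ al x < al (y - x)) : y ≠ 0 ∧ al y = al x := by
  by_cases hyx : y = x
  · rw [hyx]
    exact ⟨hx, rfl⟩
  · have h1 : al x < al (y - x) := hy.resolve_left hyx
    have h2 := nrm_strict F h hx (sub_ne_zero.2 hyx) h1
    rwa [add_sub_cancel] at h2

theorem nrm_sum {al : V → ℝ} (h : Nrm F al) {ι : Type} (s : Finset ι) (f : ι → V)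
    (hs : ∑ i ∈ s, f i ≠ 0) : ∃ i ∈ s, f i ≠ 0 ∧ al (f i) ≤ al (∑ i ∈ s, f i) := by
  classical
  induction s using Finset.induction_on with
  | empty => exact absurd Finset.sum_empty hs
  | insert a s ha ih =>
    rw [Finset.sum_insert ha] at hs ⊢
    by_cases h1 : f a = 0
    · rw [h1, zero_add] at hs ⊢
      obtain ⟨i, hi, h2⟩ := ih hs
      exact ⟨i, Finset.mem_insert_of_mem hi, h2⟩
    · by_cases h2 : ∑ i ∈ s, f i = 0
      · rw [h2, add_zero]
        exact ⟨a, Finset.mem_insert_self a s, h1, le_rfl⟩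
      · have h3 := h.add _ _ h1 h2 hs
        rcases min_le_iff.1 h3 with h4 | h4
        · exact ⟨a, Finset.mem_insert_self a s, h1, h4⟩
        · obtain ⟨i, hi, h5, h6⟩ := ih h2
          exact ⟨i, Finset.mem_insert_of_mem hi, h5, h6.trans h4⟩

theorem nrm_rs {al : V → ℝ} (h : Nrm F al) (E : Submodule K V) : Nrm F (rs E al) where
  zero := h.zero
  smul c x hc hx := h.smul c (x : V) hc fun h0 => hx (Subtype.ext h0)
  add x y hx hy hxy := h.add (x : V) (y : V) (fun h0 => hx (Subtype.ext h0))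
    (fun h0 => hy (Subtype.ext h0)) (fun h0 => hxy (Subtype.ext h0))

theorem nrm_ge {al : V → ℝ} (h : Nrm F al) {ι : Type} (b : Module.Basis ι K V) {x : V} (hx : x ≠ 0) :
    ∃ i, b.repr x i ≠ 0 ∧ F.v (b.repr x i) + al (b i) ≤ al x := by
  have h1 : ∑ i ∈ (b.repr x).support, b.repr x i • b i = x := by
    have := b.linearCombination_repr x
    rw [Finsupp.linearCombination_apply, Finsupp.sum] at this
    exact this
  obtain ⟨i, hi, h2, h3⟩ := nrm_sum F h (b.repr x).support (fun i => b.repr x i • b i)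
    (by rw [h1]; exact hx)
  rw [h1] at h3
  have h4 : b.repr x i ≠ 0 := Finsupp.mem_support_iff.1 hi
  refine ⟨i, h4, ?_⟩
  have h5 := h.smul (b.repr x i) (b i) h4 (b.ne_zero i)
  rw [← h5]
  exact h3

theorem spl_of {al : V → ℝ} (h : Nrm F al) {ι : Type} (b : Module.Basis ι K V)
    (hu : ∀ x : V, x ≠ 0 → ∀ i, b.repr x i ≠ 0 → al x ≤ F.v (b.repr x i) + al (b i)) :
    Spl F b al := by
  intro x hx
  refine ⟨hu x hx, ?_⟩
  obtain ⟨i, h1, h2⟩ := nrm_ge F h b hx
  exact ⟨i, h1, le_antisymm (hu x hx i h1) h2⟩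

theorem spl_nrm {ι : Type} {b : Module.Basis ι K V} {al : V → ℝ} (h : Spl F b al) (h0 : al 0 = 0) :
    Nrm F al where
  zero := h0
  smul c x hc hx := by
    have hcx : c • x ≠ 0 := smul_ne_zero hc hx
    have e : ∀ i, b.repr (c • x) i = c * b.repr x i := fun i => by rw [map_smul]; rfl
    obtain ⟨h1, i, hi, h2⟩ := h (c • x) hcx
    obtain ⟨h3, j, hj, h4⟩ := h x hx
    have hi' : b.repr x i ≠ 0 := by
      intro h5
      rw [e, h5, mul_zero] at hi
      exact hi rfl
    have e1 : F.v (b.repr (c • x) i) = F.v c + F.v (b.repr x i) := by rw [e, F.mul _ _ hc hi']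
    have e2 : F.v (b.repr (c • x) j) = F.v c + F.v (b.repr x j) := by rw [e, F.mul _ _ hc hj]
    have h5 := h3 i hi'
    have h6 := h1 j (by rw [e]; exact mul_ne_zero hc hj)
    linarith
  add x y hx hy hxy := by
    obtain ⟨h1, i, hi, h2⟩ := h (x + y) hxy
    obtain ⟨h3, -⟩ := h x hx
    obtain ⟨h5, -⟩ := h y hy
    have e : b.repr (x + y) i = b.repr x i + b.repr y i := by rw [map_add]; rfl
    rw [e] at hi h2
    rw [h2]
    by_cases hxi : b.repr x i = 0
    · rw [hxi, zero_add] at hi ⊢
      exact (min_le_right _ _).trans (h5 i hi)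
    · by_cases hyi : b.repr y i = 0
      · rw [hyi, add_zero]
        exact (min_le_left _ _).trans (h3 i hxi)
      · have h6 := F.add _ _ hxi hyi hi
        have h7 := h3 i hxi
        have h8 := h5 i hyi
        rcases min_le_iff.1 h6 with h9 | h9
        · exact (min_le_left _ _).trans (by linarith)
        · exact (min_le_right _ _).trans (by linarith)

theorem spl_ext {ι : Type} {b : Module.Basis ι K V} {al be : V → ℝ} (h1 : Spl F b al)
    (h2 : Spl F b be) (h0 : al 0 = be 0) (h : ∀ i, al (b i) = be (b i)) : al = be := by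
  funext x
  by_cases hx : x = 0
  · rw [hx, h0]
  · obtain ⟨a1, i, hi, a2⟩ := h1 x hx
    obtain ⟨b1, j, hj, b2⟩ := h2 x hx
    apply le_antisymm
    · rw [b2, ← h j]
      exact a1 j hj
    · rw [a2, h i]
      exact b1 i hi

theorem spl_val {ι : Type} {b : Module.Basis ι K V} {al : V → ℝ} (h : Spl F b al) {x : V}
    (hx : x ≠ 0) : ∃ i, ∃ n : ℤ, al x = al (b i) + n * F.w := by
  obtain ⟨-, i, hi, h2⟩ := h x hx
  obtain ⟨n, hn⟩ := F.dis _ hi
  exact ⟨i, n, by rw [h2, hn, add_comm]⟩

theorem spl_reindex {ι ι' : Type} {b : Module.Basis ι K V} (e : ι ≃ ι') {al : V → ℝ}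
    (h : Spl F b al) : Spl F (b.reindex e) al := by
  intro x hx
  obtain ⟨h1, i, hi, h2⟩ := h x hx
  refine ⟨fun j hj => ?_, e i, ?_, ?_⟩
  · rw [Module.Basis.repr_reindex_apply] at hj ⊢
    rw [Module.Basis.reindex_apply]
    exact h1 _ hj
  · rw [Module.Basis.repr_reindex_apply, Equiv.symm_apply_apply]
    exact hi
  · rw [Module.Basis.repr_reindex_apply, Module.Basis.reindex_apply, Equiv.symm_apply_apply]
    exact h2

theorem spl_le {ι : Type} {b : Module.Basis ι K V} {al be : V → ℝ} (hb : Spl F b be)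
    (ha : Nrm F al) {C : ℝ} (hC : ∀ i, be (b i) ≤ al (b i) + C) {x : V} (hx : x ≠ 0) :
    be x ≤ al x + C := by
  obtain ⟨i, hi, h1⟩ := nrm_ge F ha b hx
  have h2 := (hb x hx).1 i hi
  have h3 := hC i
  linarith

end

end H31NA
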