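import Pool.Agent.H31.NA.GC

set_option autoImplicit false

/-!
# Row GD (MP_b319aa_NA, block G): splitting off a vector and a coordinate hyperplane

Situation: b a basis (index set Fin (n+1)), i an index, x a vector with x_i ≠ 0, H = ker (b.coord i) (so y ∈ H iff b.repr y i = 0).

PROOFS.
* hyp_spl: the vectors b (i.succAbove j) (j : Fin n) lie in H (their i-th coordinate is 0: succAbove_ne), are linearly independent
  (composition of the linearly independent family b with an injective map; then inside H: LinearIndependent.of_comp H.subtype or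
  linearIndependent_from a subtype), and span H: y ∈ H is y = sum over all k of y_k b_k = sum over j of y_{i.succAbove j} b_{i.succAbove j}
  (Fin.sum_univ_succAbove, the term i vanishes).  Use Module.Basis.mk.  Its coordinates: bH.repr y j = b.repr (y : V) (i.succAbove j)
  (uniqueness of coordinates: apply b.repr to y = sum_j (bH.repr y j) • b (i.succAbove j)).  Splitting: for y ∈ H, y ≠ 0: the conditions of Spl for b and y only concern
  indices k with y_k ≠ 0, thus k ≠ i, k = i.succAbove j (Fin.exists_succAbove_eq).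
* hyp_li: take the i-th coordinate of c • x + y = 0: c x_i = 0.
* hyp_sp: c := - z_i / x_i.
* glue: B := Module.Basis.mkFinCons x bH hli hsp; B 0 = x, B (succ j) = bH j (Module.Basis.coe_mkFinCons, Fin.cons_zero, Fin.cons_succ).  x ≠ 0 (otherwise hli 1 0 gives 1 = 0).
  Use GB.spl_of: let z ≠ 0, c := B.repr z 0, y := z - c • x = sum_j (B.repr z (succ j)) • bH j ∈ H, and bH.repr y j = B.repr z (succ j).
  Claim (*): if c ≠ 0 then al z ≤ v c + al x, and if y ≠ 0 then al z ≤ al y.
  If c ≠ 0, y = 0: z = c x, al z = v c + al x.  If c = 0: z = y.  If c ≠ 0, y ≠ 0: z = c (x + c⁻¹ y), al z = v c + al (x + c⁻¹ y) ≤ v c + al x by ho (c⁻¹ y ∈ H, ≠ 0;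
  x + c⁻¹ y ≠ 0 since z ≠ 0), and y = z + (- c • x): al y ≥ min (al z) (al (c x)) = al z (al (-(c x)) = al (c x) = v c + al x ≥ al z).
  Now for an index k with B.repr z k ≠ 0: k = 0 is (*); k = succ j: y ≠ 0 (its j-th coordinate is not 0) and al z ≤ al y ≤ v (bH.repr y j) + al (bH j) by hs.
* ortho: u := x + y; u_i = x_i ≠ 0 so u ≠ 0; al0 u ≤ v u_i + al0 (b i) = v x_i + al0 (b i) = al0 x by Spl F b al0; hmax for u: al u - al0 u ≤ al x - al0 x.  So al u ≤ al x.
-/

namespace H31NA

open H50NA

noncomputable section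

variable {K : Type} [Field K] (F : VF K) {V : Type} [AddCommGroup V] [Module K V]

theorem hyp_spl {n : ℕ} (b : Module.Basis (Fin (n + 1)) K V) {al : V → ℝ} (h : Spl F b al)
    (i : Fin (n + 1)) : ∃ bH : Module.Basis (Fin n) K (LinearMap.ker (b.coord i)),
      (∀ j, (bH j : V) = b (i.succAbove j)) ∧ Spl F bH (rs (LinearMap.ker (b.coord i)) al) := by
  classical
  have hmem : ∀ j : Fin n, b (i.succAbove j) ∈ LinearMap.ker (b.coord i) := by
    intro j
    rw [LinearMap.mem_ker, Module.Basis.coord_apply, b.repr_self, Finsupp.single_apply,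
      if_neg (Fin.succAbove_ne i j)]
  let w : Fin n → LinearMap.ker (b.coord i) := fun j => ⟨b (i.succAbove j), hmem j⟩
  have hw : ∀ j, (w j : V) = b (i.succAbove j) := fun j => rfl
  have hli : LinearIndependent K w := by
    apply LinearIndependent.of_comp (LinearMap.ker (b.coord i)).subtype
    exact b.linearIndependent.comp _ Fin.succAbove_right_injective
  have hexp : ∀ y : LinearMap.ker (b.coord i), y = ∑ j, b.repr (y : V) (i.succAbove j) • w j := by
    intro y
    apply Subtype.ext
    rw [Submodule.coe_sum]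
    have h1 := b.sum_repr (y : V)
    rw [Fin.sum_univ_succAbove _ i] at h1
    have h2 : b.repr (y : V) i = 0 := LinearMap.mem_ker.1 y.2
    rw [h2, zero_smul, zero_add] at h1
    rw [← h1]
    apply Finset.sum_congr rfl
    intro j _
    rw [h1]
    rfl
  have hsp : ⊤ ≤ Submodule.span K (Set.range w) := by
    intro y _
    rw [hexp y]
    exact Submodule.sum_mem _ fun j _ => Submodule.smul_mem _ _ (Submodule.subset_span ⟨j, rfl⟩)
  let bH := Module.Basis.mk hli hsp
  have hb : ∀ j, bH j = w j := fun j => Module.Basis.mk_apply hli hsp j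
  have hr : ∀ (y : LinearMap.ker (b.coord i)) (j : Fin n),
      bH.repr y j = b.repr (y : V) (i.succAbove j) := by
    intro y j
    have h1 : y = ∑ j, b.repr (y : V) (i.succAbove j) • bH j := by
      conv_lhs => rw [hexp y]
      exact Finset.sum_congr rfl fun j _ => by rw [hb]
    have h2 := bH.repr_sum_self (fun j => b.repr (y : V) (i.succAbove j))
    rw [← h1] at h2
    exact congrFun h2 j
  refine ⟨bH, fun j => by rw [hb], ?_⟩
  intro y hy
  have hy' : (y : V) ≠ 0 := fun h0 => hy (Subtype.ext h0)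
  obtain ⟨h1, k, hk, h2⟩ := h (y : V) hy'
  refine ⟨fun j hj => ?_, ?_⟩
  · rw [hr] at hj ⊢
    have := h1 _ hj
    change al y ≤ _ + al (bH j : V)
    rw [hb, hw]
    exact this
  · have hki : k ≠ i := by
      rintro rfl
      exact hk (LinearMap.mem_ker.1 y.2)
    obtain ⟨j, rfl⟩ := Fin.exists_succAbove_eq hki
    refine ⟨j, ?_, ?_⟩
    · rw [hr]
      exact hk
    · rw [hr]
      change al y = _ + al (bH j : V)
      rw [hb, hw]
      exact h2

theorem hyp_li {n : ℕ} (b : Module.Basis (Fin (n + 1)) K V) {i : Fin (n + 1)} {x : V}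
    (hi : b.repr x i ≠ 0) :
    ∀ (c : K), ∀ y ∈ LinearMap.ker (b.coord i), c • x + y = 0 → c = 0 := by
  intro c y hy h
  have h1 := congrArg (b.coord i) h
  rw [map_add, map_smul, LinearMap.mem_ker.1 hy, add_zero, map_zero, smul_eq_mul] at h1
  exact (mul_eq_zero.1 h1).resolve_right hi

theorem hyp_sp {n : ℕ} (b : Module.Basis (Fin (n + 1)) K V) {i : Fin (n + 1)} {x : V}
    (hi : b.repr x i ≠ 0) : ∀ z : V, ∃ c : K, z + c • x ∈ LinearMap.ker (b.coord i) := by
  intro z
  refine ⟨-(b.repr z i) / b.repr x i, ?_⟩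
  rw [LinearMap.mem_ker, map_add, map_smul, Module.Basis.coord_apply, Module.Basis.coord_apply,
    smul_eq_mul, div_mul_cancel₀ _ hi]
  ring

theorem glue {n : ℕ} {al : V → ℝ} (h : Nrm F al) (H : Submodule K V) (x : V)
    (bH : Module.Basis (Fin n) K H) (hli : ∀ (c : K), ∀ y ∈ H, c • x + y = 0 → c = 0)
    (hsp : ∀ z : V, ∃ c : K, z + c • x ∈ H) (hs : Spl F bH (rs H al))
    (ho : ∀ y ∈ H, y ≠ 0 → al (x + y) ≤ al x) :
    Spl F (Module.Basis.mkFinCons x bH hli hsp) al := by
  classical
  have hx : x ≠ 0 := by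
    rintro rfl
    exact one_ne_zero (hli 1 0 H.zero_mem (by simp))
  set B := Module.Basis.mkFinCons x bH hli hsp with hB
  have hB0 : B 0 = x := by
    rw [hB, Module.Basis.coe_mkFinCons, Fin.cons_zero]
  have hBs : ∀ j : Fin n, B j.succ = (bH j : V) := by
    intro j
    rw [hB, Module.Basis.coe_mkFinCons, Fin.cons_succ]
    rfl
  apply spl_of F h B
  intro z hz k hk
  set c := B.repr z 0 with hc
  set y : H := ∑ j : Fin n, B.repr z j.succ • bH j with hy
  have hyr : ∀ j, bH.repr y j = B.repr z j.succ := by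
    intro j
    exact congrFun (bH.repr_sum_self fun j => B.repr z j.succ) j
  have hzy : z = c • x + (y : V) := by
    have h1 := B.sum_repr z
    rw [Fin.sum_univ_succ, hB0] at h1
    conv_lhs => rw [← h1]
    congr 1
    rw [hy, Submodule.coe_sum]
    apply Finset.sum_congr rfl
    intro j _
    rw [hBs]
    rfl
  have ha : c ≠ 0 → al z ≤ F.v c + al x := by
    intro hc0
    by_cases hy0 : (y : V) = 0
    · rw [hzy, hy0, add_zero, h.smul c x hc0 hx]
    · have h1 : z = c • (x + c⁻¹ • (y : V)) := by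
        rw [smul_add, smul_smul, mul_inv_cancel₀ hc0, one_smul]
        exact hzy
      have h2 : x + c⁻¹ • (y : V) ≠ 0 := by
        intro h0
        rw [h0, smul_zero] at h1
        exact hz h1
      rw [h1, h.smul c _ hc0 h2]
      have h3 := ho (c⁻¹ • (y : V)) (H.smul_mem _ y.2) (smul_ne_zero (inv_ne_zero hc0) hy0)
      linarith
  have hb : (y : V) ≠ 0 → al z ≤ al y := by
    intro hy0
    by_cases hc0 : c = 0
    · rw [hzy, hc0, zero_smul, zero_add]
    · have h1 : (y : V) = z + -(c • x) := by rw [hzy]; abel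
      have hcx : c • x ≠ 0 := smul_ne_zero hc0 hx
      have h2 := h.add z (-(c • x)) hz (neg_ne_zero.2 hcx) (by rw [← h1]; exact hy0)
      rw [← h1, nrm_neg F h, h.smul c x hc0 hx, min_eq_left (ha hc0)] at h2
      exact h2
  rcases Fin.eq_zero_or_eq_succ k with hk0 | ⟨j, hkj⟩
  · rw [hk0, hB0]
    rw [hk0] at hk
    exact ha hk
  · rw [hkj, hBs, ← hyr]
    rw [hkj, ← hyr] at hk
    have hyne : y ≠ 0 := by
      intro h0
      rw [h0, map_zero] at hk
      exact hk rfl
    have hyne' : (y : V) ≠ 0 := fun h0 => hyne (Subtype.ext h0)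
    exact (hb hyne').trans ((hs y hyne).1 j hk)

theorem ortho {n : ℕ} (b : Module.Basis (Fin (n + 1)) K V) {al0 al : V → ℝ} (h0 : Spl F b al0)
    {x : V} {i : Fin (n + 1)} (hi : b.repr x i ≠ 0)
    (hi' : al0 x = F.v (b.repr x i) + al0 (b i))
    (hmax : ∀ y : V, y ≠ 0 → al y - al0 y ≤ al x - al0 x) :
    ∀ y ∈ LinearMap.ker (b.coord i), y ≠ 0 → al (x + y) ≤ al x := by
  intro y hy _
  have h1 : b.repr (x + y) i = b.repr x i := by
    have h2 : b.repr y i = 0 := LinearMap.mem_ker.1 hy
    rw [map_add, Finsupp.add_apply, h2, add_zero]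
  have hne : x + y ≠ 0 := by
    intro h2
    rw [h2, map_zero] at h1
    exact hi h1.symm
  have h3 := (h0 (x + y) hne).1 i (by rw [h1]; exact hi)
  rw [h1, ← hi'] at h3
  have h4 := hmax (x + y) hne
  linarith

end

end H31NA
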