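import Pool.Agent.H31.NA.GD

set_option autoImplicit false

/-!
# Row GE (MP_b319aa_NA, block G): common basis of two norms whose difference has finitely many values

PROOF (induction on n, for all V, b0, al0, al).
n = 0: V = 0 (a basis indexed by Fin 0), take b = b0: both Spl are vacuous (there is no x ≠ 0: every vector is the empty sum).
n + 1: the set {al x - al0 x : x ≠ 0} is finite and non empty (b0 0 ≠ 0), so it has a maximum, attained at some x ≠ 0: (hmax) for all y ≠ 0, al y - al0 y ≤ al x - al0 x.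
Spl F b0 al0 at x gives an index i with x_i ≠ 0 and al0 x = v x_i + al0 (b0 i).  Let H = ker (b0.coord i).
GD.hyp_spl: H has a basis bH indexed by Fin n splitting rs H al0.  rs H al is a norm (GB.nrm_rs), rs H al0 0 = 0, and the values of rs H al - rs H al0 on H \ 0 form a subset of the finite set.
Induction: a basis b' : Basis (Fin n) K H splitting rs H al0 and rs H al.
GD.glue (with hli = hyp_li, hsp = hyp_sp) for be = al0 (Nrm F al0 by GB.spl_nrm; ho by GD.ortho applied to the pair (al0, al0), hmax trivial: al0 y - al0 y = 0 ≤ 0) and for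
be = al (ho by GD.ortho with hmax): the basis mkFinCons x b' hli hsp splits al0 and al.
-/

namespace H31NA

open H50NA

noncomputable section

variable {K : Type} [Field K] (F : VF K)

theorem cb (n : ℕ) : ∀ (V : Type) [AddCommGroup V] [Module K V] (b0 : Module.Basis (Fin n) K V)
    (al0 al : V → ℝ), Spl F b0 al0 → al0 0 = 0 → Nrm F al →
    ((fun x => al x - al0 x) '' {x | x ≠ 0}).Finite →
    ∃ b : Module.Basis (Fin n) K V, Spl F b al0 ∧ Spl F b al := by
  induction n with
  | zero =>
    intro V _ _ b0 al0 al h0 h00 h hf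
    have hz : ∀ x : V, x = 0 := by
      intro x
      rw [← b0.repr.map_eq_zero_iff]
      ext i
      exact i.elim0
    exact ⟨b0, fun x hx => absurd (hz x) hx, fun x hx => absurd (hz x) hx⟩
  | succ n ih =>
    intro V _ _ b0 al0 al h0 h00 h hf
    have hne : ((fun x => al x - al0 x) '' {x | x ≠ 0}).Nonempty :=
      ⟨_, b0 0, b0.ne_zero 0, rfl⟩
    obtain ⟨m, hm, hmm⟩ := hf.exists_maximal hne
    obtain ⟨x, hx, hxm⟩ := hm
    have hx0 : x ≠ 0 := hx
    have hmax : ∀ y : V, y ≠ 0 → al y - al0 y ≤ al x - al0 x := by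
      intro y hy
      have h1 : (al y - al0 y) ∈ (fun x => al x - al0 x) '' {x | x ≠ 0} := ⟨y, hy, rfl⟩
      have h2 : al x - al0 x = m := hxm
      rw [h2]
      by_contra h3
      have h4 := hmm h1 (not_le.1 h3).le
      exact h3 h4
    obtain ⟨_, i, hi, hi'⟩ := h0 x hx0
    have hN0 : Nrm F al0 := spl_nrm F h0 h00
    obtain ⟨bH, _, hbH⟩ := hyp_spl F b0 h0 i
    obtain ⟨b', hb0, hb⟩ := ih (LinearMap.ker (b0.coord i)) bH
      (rs (LinearMap.ker (b0.coord i)) al0) (rs (LinearMap.ker (b0.coord i)) al) hbH h00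
      (nrm_rs F h _) (by
        refine hf.subset ?_
        rintro _ ⟨y, hy, rfl⟩
        exact ⟨(y : V), fun h5 => hy (Subtype.ext h5), rfl⟩)
    refine ⟨Module.Basis.mkFinCons x b' (hyp_li b0 hi) (hyp_sp b0 hi), ?_, ?_⟩
    · exact glue F hN0 _ x b' _ _ hb0
        (ortho F b0 h0 hi hi' fun y _ => by rw [sub_self, sub_self])
    · exact glue F h _ x b' _ _ hb (ortho F b0 h0 hi hi' hmax)

end

end H31NA
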