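import Pool.Agent.H31.NA.GE

set_option autoImplicit false

/-!
# Row GF (MP_b319aa_NA, block G): existence of common bases, norms with few values, rounding

PROOFS.
* fin_mod: A is contained in the union over t ∈ T of {t + n w : n ∈ Z, |t + n w| ≤ C}; for each t the condition gives |n| ≤ (C + |t|) / w, so finitely many n
  (Set.Finite.biUnion, image of the finite set of integers n in Set.Icc (-M) M, M = ceiling of (C + |t|) / w).
* sn_of_fin: let b0 : Bs K V split al0.  The set {al x - al0 x : x ≠ 0} is finite by fin_mod: it is bounded by C, and al x = t + n w (t ∈ T), al0 x = al0 (b0 i) + n' w (GB.spl_val),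
  so al x - al0 x ∈ T' + wZ with T' = {t - al0 (b0 i)} (image of T × Fin m, finite).  GE.cb with n = finrank K V.
* bdd: let b split al, b' split be.  For C with be (b' j) ≤ al (b' j) + C for all j (finite max; C := sum over j of |be (b' j) - al (b' j)|): GB.spl_le gives be x ≤ al x + C for x ≠ 0 (al is a
  norm: GC.sn_nrm).  Symmetric.
* common: sn_of_fin with T = range of i ↦ al' (b i) and the bound given by bdd.
* flr: (floor norm) al' x := w * floor (al x / w).  It is a norm: al' 0 = 0 (al 0 = 0).  smul: al (c x) / w = v c / w + al x / w and v c / w is an integer n: floor (n + y) = n + floor y.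
  add: floor and multiplication by w are monotone and commute with min.  |al' x - al x| ≤ w, so al' - al0 is bounded by C + w; the values of al' are in 0 + wZ: sn_of_fin with T = {0}.
-/

namespace H31NA

open H50NA

noncomputable section

variable {K : Type} [Field K] (F : VF K) {V : Type} [AddCommGroup V] [Module K V] [Module.Finite K V]

theorem fin_mod {w : ℝ} (hw : 0 < w) {T A : Set ℝ} (hT : T.Finite) (C : ℝ)
    (h : ∀ a ∈ A, |a| ≤ C ∧ ∃ t ∈ T, ∃ n : ℤ, a = t + n * w) : A.Finite := by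
  have h1 : A ⊆ ⋃ t ∈ T, (fun n : ℤ => t + (n : ℝ) * w) ''
      (Set.Icc (-⌈(C + |t|) / w⌉) ⌈(C + |t|) / w⌉) := by
    intro a ha
    obtain ⟨hC, t, ht, n, hn⟩ := h a ha
    refine Set.mem_biUnion ht ⟨n, ?_, hn.symm⟩
    have h2 : |(n : ℝ)| ≤ (C + |t|) / w := by
      rw [le_div_iff₀ hw]
      calc |(n : ℝ)| * w = |(n : ℝ) * w| := by rw [abs_mul, abs_of_pos hw]
        _ = |a - t| := by rw [hn]; congr 1; ring
        _ ≤ |a| + |t| := abs_sub a t
        _ ≤ C + |t| := by linarith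
    have h3 : ((C + |t|) / w) ≤ ⌈(C + |t|) / w⌉ := Int.le_ceil _
    have h4 := abs_le.1 (h2.trans h3)
    constructor
    · exact_mod_cast h4.1
    · exact_mod_cast h4.2
  exact (hT.biUnion fun t _ => (Set.finite_Icc _ _).image _).subset h1

theorem sn_of_fin {al al0 : V → ℝ} (h : Nrm F al) (h0 : SN F al0) {T : Set ℝ} (hT : T.Finite)
    (hv : ∀ x : V, x ≠ 0 → ∃ t ∈ T, ∃ n : ℤ, al x = t + n * F.w) (C : ℝ)
    (hC : ∀ x : V, x ≠ 0 → |al x - al0 x| ≤ C) : ∃ b : Bs K V, Spl F b al0 ∧ Spl F b al := by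
  obtain ⟨h00, b0, hb0⟩ := h0
  refine cb F (Module.finrank K V) V b0 al0 al hb0 h00 h ?_
  refine fin_mod F.wpos (T := (fun p : ℝ × Fin (Module.finrank K V) => p.1 - al0 (b0 p.2)) ''
    (T ×ˢ Set.univ)) ((hT.prod Set.finite_univ).image _) C ?_
  rintro _ ⟨x, hx, rfl⟩
  obtain ⟨t, ht, n, hn⟩ := hv x hx
  obtain ⟨i, n', hn'⟩ := spl_val F hb0 hx
  refine ⟨hC x hx, _, ⟨(t, i), ⟨ht, Set.mem_univ _⟩, rfl⟩, n - n', ?_⟩
  change al x - al0 x = t - al0 (b0 i) + ((n - n' : ℤ) : ℝ) * F.w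
  rw [hn, hn']
  push_cast
  ring

theorem bdd {al be : V → ℝ} (ha : SN F al) (hb : SN F be) :
    ∃ C : ℝ, ∀ x : V, x ≠ 0 → |be x - al x| ≤ C := by
  have hna := sn_nrm F ha
  have hnb := sn_nrm F hb
  obtain ⟨_, b, hsa⟩ := ha
  obtain ⟨_, b', hsb⟩ := hb
  have h1 : ∀ j, be (b' j) ≤ al (b' j) + ∑ i, |be (b' i) - al (b' i)| := fun j => by
    have h2 := Finset.single_le_sum (f := fun i => |be (b' i) - al (b' i)|)
      (fun i _ => abs_nonneg _) (Finset.mem_univ j)
    have h3 := le_abs_self (be (b' j) - al (b' j))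
    linarith
  have h2 : ∀ j, al (b j) ≤ be (b j) + ∑ i, |al (b i) - be (b i)| := fun j => by
    have h2 := Finset.single_le_sum (f := fun i => |al (b i) - be (b i)|)
      (fun i _ => abs_nonneg _) (Finset.mem_univ j)
    have h3 := le_abs_self (al (b j) - be (b j))
    linarith
  have p1 : 0 ≤ ∑ i, |be (b' i) - al (b' i)| := Finset.sum_nonneg fun i _ => abs_nonneg _
  have p2 : 0 ≤ ∑ i, |al (b i) - be (b i)| := Finset.sum_nonneg fun i _ => abs_nonneg _
  refine ⟨∑ i, |be (b' i) - al (b' i)| + ∑ i, |al (b i) - be (b i)|, fun x hx => ?_⟩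
  have h3 := spl_le F hsb hna h1 hx
  have h4 := spl_le F hsa hnb h2 hx
  rw [abs_le]
  constructor <;> linarith

theorem common {al be : V → ℝ} (ha : SN F al) (hb : SN F be) :
    ∃ b : Bs K V, Spl F b al ∧ Spl F b be := by
  obtain ⟨C, hC⟩ := bdd F ha hb
  have hnb := sn_nrm F hb
  obtain ⟨_, b', hsb⟩ := hb
  refine sn_of_fin F hnb ha (T := Set.range fun i => be (b' i)) (Set.finite_range _)
    (fun x hx => ?_) C hC
  obtain ⟨i, n, hn⟩ := spl_val F hsb hx
  exact ⟨_, ⟨i, rfl⟩, n, hn⟩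

theorem flr {al al0 : V → ℝ} (h : Nrm F al) (h0 : SN F al0) {C : ℝ}
    (hC : ∀ x : V, x ≠ 0 → |al x - al0 x| ≤ C) : SN F (fun x => F.w * (⌊al x / F.w⌋ : ℤ)) := by
  have hw := F.wpos
  have mono : ∀ s t : ℝ, s ≤ t → F.w * (⌊s / F.w⌋ : ℤ) ≤ F.w * (⌊t / F.w⌋ : ℤ) := by
    intro s t hst
    refine mul_le_mul_of_nonneg_left ?_ hw.le
    exact_mod_cast Int.floor_le_floor (div_le_div_of_nonneg_right hst hw.le)
  have h0' : F.w * (⌊al 0 / F.w⌋ : ℤ) = (0 : ℝ) := by
    rw [h.zero]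
    simp
  have hn : Nrm F (fun x => F.w * (⌊al x / F.w⌋ : ℤ)) := by
    refine ⟨h0', fun c x hc hx => ?_, fun x y hx hy hxy => ?_⟩
    · obtain ⟨n, hn⟩ := F.dis c hc
      rw [h.smul c x hc hx, hn, add_div, mul_div_assoc, div_self hw.ne', mul_one,
        Int.floor_intCast_add]
      push_cast
      ring
    · have h1 := h.add x y hx hy hxy
      rcases min_le_iff.1 h1 with h2 | h2
      · exact (min_le_left _ _).trans (mono _ _ h2)
      · exact (min_le_right _ _).trans (mono _ _ h2)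
  obtain ⟨b, _, hb⟩ := sn_of_fin F hn h0 (T := {0}) (Set.finite_singleton _)
    (fun x _ => ⟨0, rfl, ⌊al x / F.w⌋, by rw [zero_add, mul_comm]⟩) (C + F.w) (fun x hx => by
      have h1 := abs_le.1 (hC x hx)
      have h2 : F.w * ((⌊al x / F.w⌋ : ℤ) : ℝ) ≤ al x := by
        have h3 := mul_le_mul_of_nonneg_left (Int.floor_le (al x / F.w)) hw.le
        rwa [mul_div_cancel₀ _ hw.ne'] at h3
      have h3 : al x < F.w * ((⌊al x / F.w⌋ : ℤ) : ℝ) + F.w := by
        have h4 := mul_lt_mul_of_pos_left (Int.lt_floor_add_one (al x / F.w)) hw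
        rw [mul_div_cancel₀ _ hw.ne'] at h4
        linarith
      rw [abs_le]
      constructor <;> linarith)
  exact ⟨h0', b, hb⟩

end

end H31NA
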