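import Pool.Agent.H31.NA.GD

set_option autoImplicit false

/-!
# Row GG (MP_b319aa_NA, block G): bases adapted to a subspace

STATEMENT adapt: if b0 splits al (al 0 = 0) and E is a subspace, there are a basis b splitting al and a finite set S of indices with E = span {b i : i ∈ S}.

PROOF (induction on n, for all V, b0, al, E).  If E = 0 (bottom): b = b0, S = empty.  In particular n = 0 is clear (V = 0, E = bottom).
n + 1, E ≠ 0: take x ∈ E, x ≠ 0, and i with x_i ≠ 0, al x = v x_i + al (b0 i) (Spl F b0 al).  H = ker (b0.coord i).  GD.hyp_spl: bH splits rs H al.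
Induction for H, rs H al and the subspace E' = E.comap H.subtype (= E ∩ H): basis b' : Basis (Fin n) K H, S' with b' splitting rs H al and E' = span (b' '' S').
b := mkFinCons x b' (hyp_li) (hyp_sp), which splits al by GD.glue (ho: GD.ortho with al0 = al, hmax trivial).  S := insert 0 (S'.map Fin.succEmb) (or image of Fin.succ).
E = span (b '' S): b 0 = x ∈ E, b (succ j) = b' j ∈ E for j ∈ S'; conversely z ∈ E: choose c with z + c x ∈ H (hyp_sp); z + c x ∈ E ∩ H = map of E' = span of the b' j, j ∈ S'
(Submodule.map_span), so z ∈ span.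
-/

namespace H31NA

open H50NA

noncomputable section

variable {K : Type} [Field K] (F : VF K)

theorem adapt (n : ℕ) : ∀ (V : Type) [AddCommGroup V] [Module K V] (b0 : Module.Basis (Fin n) K V)
    (al : V → ℝ), Spl F b0 al → al 0 = 0 → ∀ E : Submodule K V,
    ∃ (b : Module.Basis (Fin n) K V) (S : Finset (Fin n)), Spl F b al ∧
      E = Submodule.span K (b '' (S : Set (Fin n))) := by
  classical
  induction n with
  | zero =>
    intro V _ _ b0 al h h0 E
    refine ⟨b0, ∅, h, ?_⟩
    rw [Finset.coe_empty, Set.image_empty, Submodule.span_empty, Submodule.eq_bot_iff]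
    intro x _
    have hx : b0.repr x = 0 := by
      ext i
      exact i.elim0
    exact b0.repr.map_eq_zero_iff.1 hx
  | succ n ih =>
    intro V _ _ b0 al h h0 E
    by_cases hE : E = ⊥
    · refine ⟨b0, ∅, h, ?_⟩
      rw [Finset.coe_empty, Set.image_empty, Submodule.span_empty]
      exact hE
    obtain ⟨x, hxE, hx⟩ := Submodule.exists_mem_ne_zero_of_ne_bot hE
    obtain ⟨i, hi, hi'⟩ := (h x hx).2
    obtain ⟨bH, hbH, hsH⟩ := hyp_spl F b0 h i
    have hN := spl_nrm F h h0
    obtain ⟨b', S', hs', hE'⟩ := ih (LinearMap.ker (b0.coord i)) bH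
      (rs (LinearMap.ker (b0.coord i)) al) hsH h0 (E.comap (LinearMap.ker (b0.coord i)).subtype)
    have ho := ortho F b0 (al := al) h hi hi' (fun y _ => by rw [sub_self, sub_self])
    have hg := glue F hN _ x b' (hyp_li b0 hi) (hyp_sp b0 hi) hs' ho
    refine ⟨_, insert 0 (S'.map (Fin.succEmb n)), hg, ?_⟩
    obtain ⟨B, hB⟩ : ∃ B : Module.Basis (Fin (n + 1)) K V,
      B = Module.Basis.mkFinCons x b' (hyp_li b0 hi) (hyp_sp b0 hi) := ⟨_, rfl⟩
    have hB0 : B 0 = x := by
      rw [hB, Module.Basis.coe_mkFinCons]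
      rfl
    have hBs : ∀ j, B (Fin.succ j) = (b' j : V) := by
      intro j
      rw [hB, Module.Basis.coe_mkFinCons]
      rfl
    rw [← hB]
    apply le_antisymm
    · intro z hz
      obtain ⟨c, hc⟩ := hyp_sp b0 hi z
      have h1 : (⟨z + c • x, hc⟩ : LinearMap.ker (b0.coord i)) ∈
          E.comap (LinearMap.ker (b0.coord i)).subtype :=
        E.add_mem hz (E.smul_mem c hxE)
      rw [hE'] at h1
      have h2 := Submodule.mem_map_of_mem (f := (LinearMap.ker (b0.coord i)).subtype) h1
      rw [Submodule.map_span] at h2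
      have h3 : (LinearMap.ker (b0.coord i)).subtype '' (b' '' (S' : Set (Fin n))) ⊆
          B '' ((insert 0 (S'.map (Fin.succEmb n)) : Finset (Fin (n + 1))) : Set (Fin (n + 1))) := by
        rintro _ ⟨_, ⟨j, hj, rfl⟩, rfl⟩
        refine ⟨Fin.succ j, ?_, hBs j⟩
        rw [Finset.mem_coe, Finset.mem_insert, Finset.mem_map]
        exact Or.inr ⟨j, hj, rfl⟩
      have h4 := Submodule.span_mono (R := K) h3 h2
      have h5 : x ∈ Submodule.span K (B '' ((insert 0 (S'.map (Fin.succEmb n)) :
          Finset (Fin (n + 1))) : Set (Fin (n + 1)))) := by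
        apply Submodule.subset_span
        refine ⟨0, ?_, hB0⟩
        rw [Finset.mem_coe]
        exact Finset.mem_insert_self _ _
      have h6 : z = (z + c • x) - c • x := by abel
      rw [h6]
      exact Submodule.sub_mem _ h4 (Submodule.smul_mem _ c h5)
    · rw [Submodule.span_le]
      rintro _ ⟨k, hk, rfl⟩
      rw [Finset.mem_coe, Finset.mem_insert, Finset.mem_map] at hk
      rcases hk with rfl | ⟨j, hj, rfl⟩
      · rw [hB0]
        exact hxE
      · have h1 : b' j ∈ E.comap (LinearMap.ker (b0.coord i)).subtype := by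
          rw [hE']
          exact Submodule.subset_span ⟨j, hj, rfl⟩
        have h2 : B (Fin.succ j) ∈ E := by
          rw [hBs j]
          exact h1
        exact h2

end

end H31NA
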