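import Pool.Agent.H31.NA.GM
import Pool.Agent.H31.NA.GC

set_option autoImplicit false

/-!
# Row GN (MP_b319aa_NA, block G): the norm osm E al (minimum over the components)

PROOFS.
* osm_zero: unfold.
* osm_min: for x ≠ 0 the set {b | cpt E b x ≠ 0} is finite (Fin N) and non empty (GM.cpt_ex): the infimum of the image is attained and is a lower bound.
* osm_mem: x = 0: al 0 = 0.  x ≠ 0: cpt E b x = x, cpt E b' x = 0 for b' ≠ b (GM.cpt_of_mem, cpt_of_ne): osm_min gives an index with non zero component, it is b.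
* osm_rs: funext, osm_mem.
* osm_spd: by osm_min and osm_mem (osm E al (cpt E b x) = al (cpt E b x), GM.cpt_mem).
* osm_nrm: smul: cpt (c • x) = c • cpt x (GM.cpt_smul), al (c • y) = v c + al y for y ≠ 0; both inequalities from osm_min.  add: let b attain osm (x + y) = al (cpt (x+y) b),
  cpt (x + y) = cpt x + cpt y ≠ 0 (b-component).  If cpt y = 0: it is al (cpt x) ≥ osm x.  If cpt x = 0 similarly.  Otherwise al (cpt x + cpt y) ≥ min (al (cpt x)) (al (cpt y)) ≥ min (osm x) (osm y).
* osm_le: x = 0: both 0.  x ≠ 0: x = sum of cpt E b x; GB.nrm_sum: some b with cpt E b x ≠ 0 and al (cpt E b x) ≤ al x; osm x ≤ al (cpt E b x).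
* spd_iff: if SpD E al then for x ≠ 0 both al x and osm E al x are the minimum of the same finite set (two inequalities); at 0 both vanish.  Conversely rewrite with osm_spd.
* osm_mono: if al ≤ be on all of V then osm E al ≤ osm E be.
-/

namespace H31NA

open H50NA

noncomputable section

variable {K : Type} [Field K] (F : VF K) {V : Type} [AddCommGroup V] [Module K V]
variable {N : ℕ} {E : Fin N → Submodule K V}

theorem osm_zero (E : Fin N → Submodule K V) (al : V → ℝ) : osm E al 0 = 0 := by
  unfold osm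
  rw [if_pos rfl]

theorem osm_min (hE : DirectSum.IsInternal E) (al : V → ℝ) {x : V} (hx : x ≠ 0) :
    (∀ b, cpt E b x ≠ 0 → osm E al x ≤ al (cpt E b x)) ∧
      ∃ b, cpt E b x ≠ 0 ∧ osm E al x = al (cpt E b x) := by
  have hne : {b | cpt E b x ≠ 0}.Nonempty := cpt_ex hE hx
  have hfin : {b | cpt E b x ≠ 0}.Finite := Set.toFinite _
  have himf := hfin.image (fun b => al (cpt E b x))
  have himn := hne.image (fun b => al (cpt E b x))
  have e : osm E al x = sInf ((fun b => al (cpt E b x)) '' {b | cpt E b x ≠ 0}) := by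
    unfold osm
    rw [if_neg hx]
  rw [e]
  refine ⟨fun b hb => csInf_le himf.bddBelow ⟨b, hb, rfl⟩, ?_⟩
  obtain ⟨b, hb, hb2⟩ := himn.csInf_mem himf
  exact ⟨b, hb, hb2.symm⟩

theorem osm_mem (hE : DirectSum.IsInternal E) {al : V → ℝ} (h0 : al 0 = 0) {b : Fin N} {x : V}
    (hx : x ∈ E b) : osm E al x = al x := by
  by_cases h : x = 0
  · rw [h, osm_zero, h0]
  · obtain ⟨_, b', hb', h2⟩ := osm_min hE al h
    by_cases hbb : b' = b
    · rw [hbb, cpt_of_mem hE hx] at h2
      exact h2
    · exact absurd (cpt_of_ne hE hbb hx) hb'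

theorem osm_rs (hE : DirectSum.IsInternal E) {al : V → ℝ} (h0 : al 0 = 0) (b : Fin N) :
    rs (E b) (osm E al) = rs (E b) al := by
  funext x
  exact osm_mem hE h0 x.2

theorem osm_spd (hE : DirectSum.IsInternal E) {al : V → ℝ} (h0 : al 0 = 0) :
    SpD E (osm E al) := by
  intro x hx
  have h : ∀ b, osm E al (cpt E b x) = al (cpt E b x) := fun b =>
    osm_mem hE h0 (cpt_mem E b x)
  simp only [h]
  exact osm_min hE al hx

theorem osm_nrm (hE : DirectSum.IsInternal E) {al : V → ℝ} (h : Nrm F al) :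
    Nrm F (osm E al) := by
  refine ⟨osm_zero E al, fun c x hc hx => ?_, fun x y hx hy hxy => ?_⟩
  · have hcx : c • x ≠ 0 := smul_ne_zero hc hx
    obtain ⟨h1, i, hi, h2⟩ := osm_min hE al hcx
    obtain ⟨h3, j, hj, h4⟩ := osm_min hE al hx
    have hi' : cpt E i x ≠ 0 := by
      intro h5
      rw [cpt_smul hE, h5, smul_zero] at hi
      exact hi rfl
    have hj' : cpt E j (c • x) ≠ 0 := by
      rw [cpt_smul hE]
      exact smul_ne_zero hc hj
    rw [cpt_smul hE, h.smul c _ hc hi'] at h2
    have h5 := h3 i hi'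
    have h6 := h1 j hj'
    rw [cpt_smul hE, h.smul c _ hc hj] at h6
    linarith
  · obtain ⟨h1, b, hb, h2⟩ := osm_min hE al hxy
    obtain ⟨h3, _⟩ := osm_min hE al hx
    obtain ⟨h5, _⟩ := osm_min hE al hy
    rw [cpt_add hE] at hb h2
    rw [h2]
    by_cases hxb : cpt E b x = 0
    · rw [hxb, zero_add] at hb ⊢
      exact (min_le_right _ _).trans (h5 b hb)
    · by_cases hyb : cpt E b y = 0
      · rw [hyb, add_zero]
        exact (min_le_left _ _).trans (h3 b hxb)
      · have h6 := h.add _ _ hxb hyb hb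
        have h7 := h3 b hxb
        have h8 := h5 b hyb
        rcases min_le_iff.1 h6 with h9 | h9
        · exact (min_le_left _ _).trans (h7.trans h9)
        · exact (min_le_right _ _).trans (h8.trans h9)

include F in
theorem osm_le (hE : DirectSum.IsInternal E) {al : V → ℝ} (h : Nrm F al) (x : V) :
    osm E al x ≤ al x := by
  by_cases hx : x = 0
  · rw [hx, osm_zero, h.zero]
  · have hs := cpt_sum hE x
    obtain ⟨b, _, h1, h2⟩ := nrm_sum F h Finset.univ (fun b => cpt E b x) (by rw [hs]; exact hx)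
    rw [hs] at h2
    exact ((osm_min hE al hx).1 b h1).trans h2

theorem spd_iff (hE : DirectSum.IsInternal E) {al : V → ℝ} (h0 : al 0 = 0) :
    SpD E al ↔ osm E al = al := by
  constructor
  · intro h
    funext x
    by_cases hx : x = 0
    · rw [hx, osm_zero, h0]
    · obtain ⟨h1, b, hb, h2⟩ := h x hx
      obtain ⟨h3, c, hc, h4⟩ := osm_min hE al hx
      apply le_antisymm
      · rw [h2]
        exact h3 b hb
      · rw [h4]
        exact h1 c hc
  · intro h
    rw [← h]
    exact osm_spd hE h0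

theorem osm_mono (hE : DirectSum.IsInternal E) {al be : V → ℝ} (h : ∀ x, al x ≤ be x) (x : V) :
    osm E al x ≤ osm E be x := by
  by_cases hx : x = 0
  · rw [hx, osm_zero, osm_zero]
  · obtain ⟨_, b, hb, h2⟩ := osm_min hE be hx
    rw [h2]
    exact ((osm_min hE al hx).1 b hb).trans (h _)

end

end H31NA
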