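import Pool.Agent.H31.NA.GC

set_option autoImplicit false

/-!
# Row GR (MP_b319aa_NA, block G): perturbation of a splitting basis

PROOF of pert.  h : b splits al; for each i there is c_i ≠ 0 with y_i = c_i b_i or al (c_i b_i) < al (y_i - c_i b_i).  al is a norm (GB.spl_nrm).
(1) For coefficients x : ι → K not all zero let z' = sum x_i c_i b_i, z = sum x_i y_i.  z' ≠ 0 (independence of b, c_i ≠ 0).  Claim: z = z' or al z' < al (z - z').
 Indeed if z - z' = sum x_i (y_i - c_i b_i) ≠ 0 then by GB.nrm_sum there is i with x_i (y_i - c_i b_i) ≠ 0 and al (x_i (y_i - c_i b_i)) ≤ al (z - z'); for this i, x_i ≠ 0, y_i ≠ c_i b_i, so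
 al (x_i (y_i - c_i b_i)) = v x_i + al (y_i - c_i b_i) > v x_i + al (c_i b_i) = v (x_i c_i) + al b_i ≥ al z' (Spl F b al at z', whose i-th coordinate is x_i c_i ≠ 0).
 By GB.nrm_lead: z ≠ 0 and al z = al z'.
(2) So y is linearly independent (Fintype.linearIndependent_iff, by contraposition), and has Fintype.card ι = finrank K V elements, so it spans (LinearIndependent.span_eq_top_of_card_eq_finrank';
 for ι empty there is nothing to do; V is finite dimensional: Module.Finite.of_basis b): b' := Module.Basis.mk, b' i = y i.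
(3) al (y i) = al (c_i b_i) = v c_i + al b_i (GB.nrm_lead with x = c_i b_i).  For z ≠ 0 with coordinates x_i in b': z = sum x_i y_i, al z = al z' = min over x_i ≠ 0 of v (x_i c_i) + al b_i =
 min of v x_i + (v c_i + al b_i) = min of v x_i + al (y i).
* pert_val: (3).
-/

namespace H31NA

open H50NA

noncomputable section

variable {K : Type} [Field K] (F : VF K) {V : Type} [AddCommGroup V] [Module K V]

theorem pert_val {ι : Type} [Fintype ι] {b : Module.Basis ι K V} {al : V → ℝ} (h : Spl F b al)
    (h0 : al 0 = 0) {y : V} {i : ι} {c : K} (hc : c ≠ 0)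
    (hy : y = c • b i ∨ al (c • b i) < al (y - c • b i)) : y ≠ 0 ∧ al y = F.v c + al (b i) := by
  have hN := spl_nrm F h h0
  have hb : b i ≠ 0 := b.ne_zero i
  obtain ⟨h1, h2⟩ := nrm_lead F hN (smul_ne_zero hc hb) hy
  exact ⟨h1, by rw [h2, hN.smul c _ hc hb]⟩

lemma GR_comb {ι : Type} [Fintype ι] {b : Module.Basis ι K V} {al : V → ℝ} (h : Spl F b al)
    (h0 : al 0 = 0) (y : ι → V) (c : ι → K) (hc : ∀ i, c i ≠ 0)
    (hy : ∀ i, y i = c i • b i ∨ al (c i • b i) < al (y i - c i • b i)) (x : ι → K)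
    (hx : ∃ i, x i ≠ 0) :
    (∑ i, (x i * c i) • b i) ≠ 0 ∧ (∑ i, x i • y i) ≠ 0 ∧
      al (∑ i, x i • y i) = al (∑ i, (x i * c i) • b i) := by
  classical
  have hN := spl_nrm F h h0
  have hr : ∀ i, b.repr (∑ i, (x i * c i) • b i) i = x i * c i := by
    intro i
    exact congrFun (b.repr_sum_self fun i => x i * c i) i
  have hz' : (∑ i, (x i * c i) • b i) ≠ 0 := by
    obtain ⟨i, hi⟩ := hx
    intro h1
    have h2 := hr i
    rw [h1, map_zero] at h2
    exact mul_ne_zero hi (hc i) h2.symm
  refine ⟨hz', ?_⟩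
  apply nrm_lead F hN hz'
  by_cases he : (∑ i, x i • y i) = ∑ i, (x i * c i) • b i
  · exact Or.inl he
  · right
    have hd : (∑ i, x i • y i) - ∑ i, (x i * c i) • b i = ∑ i, x i • (y i - c i • b i) := by
      rw [← Finset.sum_sub_distrib]
      apply Finset.sum_congr rfl
      intro i _
      rw [smul_sub, smul_smul]
    rw [hd]
    have hne : ∑ i, x i • (y i - c i • b i) ≠ 0 := by
      rw [← hd]
      exact sub_ne_zero.2 he
    obtain ⟨i, _, hi1, hi2⟩ := nrm_sum F hN Finset.univ (fun i => x i • (y i - c i • b i)) hne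
    refine lt_of_lt_of_le ?_ hi2
    have hxi : x i ≠ 0 := by
      intro h1
      rw [h1, zero_smul] at hi1
      exact hi1 rfl
    have hyi : y i - c i • b i ≠ 0 := by
      intro h1
      rw [h1, smul_zero] at hi1
      exact hi1 rfl
    have h3 : al (c i • b i) < al (y i - c i • b i) := by
      rcases hy i with h4 | h4
      · exact absurd (by rw [h4, sub_self]) hyi
      · exact h4
    rw [hN.smul (x i) _ hxi hyi]
    have hb : b i ≠ 0 := b.ne_zero i
    have h5 := (h _ hz').1 i (by rw [hr]; exact mul_ne_zero hxi (hc i))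
    rw [hr, F.mul (x i) (c i) hxi (hc i)] at h5
    rw [hN.smul (c i) _ (hc i) hb] at h3
    linarith

theorem pert {ι : Type} [Fintype ι] {b : Module.Basis ι K V} {al : V → ℝ} (h : Spl F b al)
    (h0 : al 0 = 0) (y : ι → V)
    (hy : ∀ i, ∃ c : K, c ≠ 0 ∧ (y i = c • b i ∨ al (c • b i) < al (y i - c • b i))) :
    ∃ b' : Module.Basis ι K V, (∀ i, b' i = y i) ∧ Spl F b' al := by
  classical
  choose c hc hy' using hy
  have hN := spl_nrm F h h0
  have hli : LinearIndependent K y := by
    rw [Fintype.linearIndependent_iff]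
    intro x hx
    by_contra hcon
    push Not at hcon
    exact (GR_comb F h h0 y c hc hy' x hcon).2.1 hx
  haveI : Module.Finite K V := Module.Finite.of_basis b
  have hcard : Fintype.card ι = Module.finrank K V := (Module.finrank_eq_card_basis b).symm
  have hsp : ⊤ ≤ Submodule.span K (Set.range y) :=
    (hli.span_eq_top_of_card_eq_finrank' hcard).ge
  let b' := Module.Basis.mk hli hsp
  have hb' : ∀ i, b' i = y i := fun i => Module.Basis.mk_apply hli hsp i
  refine ⟨b', hb', ?_⟩
  intro z hz
  have hzs : z = ∑ i, b'.repr z i • y i := by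
    conv_lhs => rw [← b'.sum_repr z]
    exact Finset.sum_congr rfl fun i _ => by rw [hb']
  have hx : ∃ i, b'.repr z i ≠ 0 := by
    by_contra hcon
    push Not at hcon
    apply hz
    rw [hzs]
    exact Finset.sum_eq_zero fun i _ => by rw [hcon, zero_smul]
  obtain ⟨g1, -, g3⟩ := GR_comb F h h0 y c hc hy' (fun i => b'.repr z i) hx
  rw [← hzs] at g3
  have hr : ∀ i, b.repr (∑ i, (b'.repr z i * c i) • b i) i = b'.repr z i * c i := by
    intro i
    exact congrFun (b.repr_sum_self fun i => b'.repr z i * c i) i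
  have hval : ∀ i, al (b' i) = F.v (c i) + al (b i) := fun i => by
    rw [hb']
    exact (pert_val F h h0 (hc i) (hy' i)).2
  obtain ⟨k1, i, hi, k2⟩ := h _ g1
  refine ⟨fun j hj => ?_, i, ?_, ?_⟩
  · have h1 := k1 j (by rw [hr]; exact mul_ne_zero hj (hc j))
    rw [hr, F.mul _ _ hj (hc j)] at h1
    rw [g3, hval]
    linarith
  · rw [hr] at hi
    exact left_ne_zero_of_mul hi
  · rw [hr] at hi
    have hi' := left_ne_zero_of_mul hi
    rw [hr, F.mul _ _ hi' (hc i)] at k2
    rw [g3, hval, k2]
    ring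

end

end H31NA
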