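import Pool.Agent.H31.NA.GH
import Pool.Agent.H31.NA.GO
import Pool.Agent.H31.NA.GR
import Pool.Agent.H31.NA.GL

set_option autoImplicit false

/-!
# Row GS (MP_b319aa_NA, block G): orthogonal complements; the norms far om f S R

far F f S om R: the norm split by f with value om (f i) + R for i in S and om (f i) for i not in S.

PROOFS.
* adapt_dec: GH.adapt_fr gives b, S with b splitting al, W = span (b '' S).  H := span (b '' (complement of S)).  IsCompl W H: Module.Basis / LinearIndependent.disjoint_span_image and
  span of the union = top (b.span_eq).  SpD: GO.spd_of_bas with s i = if i ∈ S then 0 else 1 and GM.int_two.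
* far_spl, far_bas: GC.mkn_spl, mkn_bas.
* far_mem: x ∈ W = span (f '' S), x ≠ 0: the non zero coordinates of x in f have index in S (Module.Basis.mem_span_image), so far .. x = min over these i of v x_i + om (f i) + R = om x + R.
* ds_far: GL.ds_mkn type computation: GJ.ds_gen with f: sum over i of (R or 0) ^ 2 = card S * R ^ 2.
-/

namespace H31NA

open H50NA

noncomputable section

variable {K : Type} [Field K] (F : VF K) {V : Type} [AddCommGroup V] [Module K V]

/-- om + R on the span of S, om on the other basis vectors -/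
def far {ι : Type} (f : Module.Basis ι K V) (S : Finset ι) (om : V → ℝ) (R : ℝ) : V → ℝ :=
  mkn F f (fun i => open Classical in if i ∈ S then om (f i) + R else om (f i))

theorem far_spl {ι : Type} (f : Module.Basis ι K V) (S : Finset ι) (om : V → ℝ) (R : ℝ) :
    Spl F f (far F f S om R) := by
  exact mkn_spl F f _

theorem far_bas {ι : Type} (f : Module.Basis ι K V) (S : Finset ι) (om : V → ℝ) (R : ℝ) (i : ι) :
    (i ∈ S → far F f S om R (f i) = om (f i) + R) ∧ (i ∉ S → far F f S om R (f i) = om (f i)) := by
  unfold far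
  rw [mkn_bas]
  exact ⟨fun h => if_pos h, fun h => if_neg h⟩

theorem far_mem {ι : Type} {f : Module.Basis ι K V} {S : Finset ι} {om : V → ℝ} (hf : Spl F f om)
    (R : ℝ) {x : V} (hx : x ∈ Submodule.span K (f '' (S : Set ι))) (h0 : x ≠ 0) :
    far F f S om R x = om x + R := by
  obtain ⟨-, -, -, hout⟩ := span_bas f S
  have hS : ∀ i, f.repr x i ≠ 0 → i ∈ S := by
    intro i hi
    by_contra h
    exact hi (hout x hx i h)
  obtain ⟨a1, i, hi, a2⟩ := hf x h0
  obtain ⟨b1, j, hj, b2⟩ := far_spl F f S om R x h0
  have c1 := b1 i hi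
  have c2 := a1 j hj
  rw [(far_bas F f S om R i).1 (hS i hi)] at c1
  rw [(far_bas F f S om R j).1 (hS j hj)] at b2
  linarith

variable [Module.Finite K V]

theorem ds_far {ι : Type} [Fintype ι] {f : Module.Basis ι K V} {S : Finset ι} {om : V → ℝ}
    (hf : Spl F f om) (R : ℝ) : ds F om (far F f S om R) ^ 2 = S.card * R ^ 2 := by
  classical
  rw [ds_gen F hf (far_spl F f S om R)]
  have e : ∀ i, (far F f S om R (f i) - om (f i)) ^ 2 = if i ∈ S then R ^ 2 else 0 := by
    intro i
    by_cases h : i ∈ S
    · rw [(far_bas F f S om R i).1 h, if_pos h]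
      ring
    · rw [(far_bas F f S om R i).2 h, if_neg h]
      ring
  rw [Finset.sum_congr rfl fun i _ => e i, Finset.sum_ite_mem, Finset.univ_inter, Finset.sum_const,
    nsmul_eq_mul]

theorem adapt_dec {al : V → ℝ} (ha : SN F al) (W : Submodule K V) :
    ∃ H : Submodule K V, IsCompl W H ∧ SpD (![W, H] : Fin 2 → Submodule K V) al := by
  classical
  obtain ⟨b, S, hb, hW, -⟩ := adapt_fr F ha W
  have hc : IsCompl W (Submodule.span K (b '' ((S : Set (Fin (Module.finrank K V)))ᶜ))) := by
    rw [hW]
    constructor
    · exact b.linearIndependent.disjoint_span_image disjoint_compl_right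
    · rw [codisjoint_iff, ← Submodule.span_union, ← Set.image_union, Set.union_compl_self,
        Set.image_univ, b.span_eq]
  refine ⟨_, hc, ?_⟩
  refine spd_of_bas F (int_two hc) hb (fun i => if i ∈ S then 0 else 1) fun i => ?_
  by_cases h : i ∈ S
  · simp only [if_pos h]
    change b i ∈ W
    rw [hW]
    exact Submodule.subset_span ⟨i, h, rfl⟩
  · simp only [if_neg h]
    change b i ∈ Submodule.span K (b '' ((S : Set (Fin (Module.finrank K V)))ᶜ))
    exact Submodule.subset_span ⟨i, h, rfl⟩

end

end H31NA
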