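import Pool.Agent.H31.NA.GS

set_option autoImplicit false

/-!
# Row GT (MP_b319aa_NA, block G): the norms far are split along W + H for large R, for every complement H of W

STATEMENT.  f splits om (om 0 = 0), W = span (f '' S), H a complement of W.  There is R0 such that for all R ≥ R0, q_R := far F f S om R satisfies
SpD ![W, H] q_R, rs W q_R = trl (rs W om) R and rs H q_R = rs H q_{R0}.

PROOF.  E := ![W, H], hE = GM.int_two.  For i ∉ S let h_i = cpt E 1 (f i) ∈ H, w_i = cpt E 0 (f i) ∈ W, f i = w_i + h_i (GM.cpt_sum, Fin.sum_univ_two).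
y i := f i for i ∈ S, y i := h_i for i ∉ S.  Let R0 := 1 + sum over i of |om (f i) - om (w_i)| (any R0 > om (f i) - om (w_i) for all i).
Let R ≥ R0.  For i ∉ S: y i - f i = - w_i; if w_i ≠ 0 then q_R (-w_i) = q_R (w_i) = om (w_i) + R (GB.nrm_neg, GS.far_mem) > om (f i) = q_R (f i) (GS.far_bas).
GR.pert (with c = 1) for b = f, al = q_R: there is a basis b'_R with b'_R i = y i, splitting q_R; q_R (y i) = q_R (f i) (GR.pert_val, v 1 = 0; or GB.nrm_lead), which is om (f i) for i ∉ S.
All these bases have the same vectors, so they are equal (Module.Basis.eq_of_apply_eq): b' := b'_{R0}.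
(1) y i ∈ W for i ∈ S, y i ∈ H for i ∉ S: GO.spd_of_bas gives SpD ![W, H] q_R.
(2) rs W q_R = trl (rs W om) R: far_mem for x ≠ 0 in W, both sides vanish at 0.
(3) rs H q_R = rs H q_{R0}: let x ∈ H, x ≠ 0.  The coordinates x_i of x in b' vanish for i ∈ S [the sum over i ∈ S of x_i y_i = cpt E 0 x = 0 by GM.cpt_uniq, GM.cpt_of_ne; independence of b'.
  Or: x - sum over i ∉ S of x_i y_i = sum over i ∈ S of x_i y_i is in W ∩ H = 0].  So q_R x = min over i ∉ S, x_i ≠ 0 of v x_i + om (f i), and the same for q_{R0} (two inequalities from Spl).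
-/

namespace H31NA

open H50NA

noncomputable section

variable {K : Type} [Field K] (F : VF K) {V : Type} [AddCommGroup V] [Module K V] [Module.Finite K V]

theorem GT_repr {N : ℕ} {E : Fin N → Submodule K V} (hE : DirectSum.IsInternal E) {ι : Type}
    [Fintype ι] (f : Module.Basis ι K V)
    (s : ι → Fin N) (hs : ∀ i, f i ∈ E (s i)) (x : V) (b : Fin N) (i : ι) :
    f.repr (cpt E b x) i = if s i = b then f.repr x i else 0 := by
  classical
  have h1 : cpt E b x = ∑ j ∈ Finset.univ.filter (fun j => s j = b), f.repr x j • f j := by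
    refine cpt_uniq hE (y := fun b => ∑ j ∈ Finset.univ.filter (fun j => s j = b),
      f.repr x j • f j) ?_ ?_ b
    · intro b'
      refine Submodule.sum_mem _ fun j hj => Submodule.smul_mem _ _ ?_
      have h2 := (Finset.mem_filter.1 hj).2
      rw [← h2]
      exact hs j
    · rw [Finset.sum_fiberwise, f.sum_repr]
  rw [h1, map_sum, Finsupp.finsetSum_apply]
  simp only [map_smul, Finsupp.smul_apply, f.repr_self, Finsupp.single_apply, smul_eq_mul, mul_ite,
    mul_one, mul_zero]
  rw [Finset.sum_ite_eq']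
  simp [Finset.mem_filter]

open Classical in
/-- The perturbed basis vectors. -/
def GT_y {ι : Type} (f : Module.Basis ι K V) (S : Finset ι) (W H : Submodule K V) (i : ι) : V :=
  if i ∈ S then f i else cpt (![W, H] : Fin 2 → Submodule K V) 1 (f i)

theorem GT_basis {ι : Type} [Fintype ι] {f : Module.Basis ι K V} {S : Finset ι} {om : V → ℝ}
    (hf : Spl F f om) {W H : Submodule K V}
    (hW : W = Submodule.span K (f '' (S : Set ι))) (hc : IsCompl W H) (R : ℝ)
    (hR : ∀ i, om (f i) - om (cpt (![W, H] : Fin 2 → Submodule K V) 0 (f i)) < R) :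
    ∃ b' : Module.Basis ι K V, (∀ i, b' i = GT_y f S W H i) ∧ Spl F b' (far F f S om R) ∧
      ∀ i, i ∉ S → far F f S om R (b' i) = om (f i) := by
  have hE := int_two hc
  have hy : ∀ i, ∃ c : K, c ≠ 0 ∧ (GT_y f S W H i = c • f i ∨
      far F f S om R (c • f i) < far F f S om R (GT_y f S W H i - c • f i)) ∧ c = 1 := by
    intro i
    refine ⟨1, one_ne_zero, ?_, rfl⟩
    rw [one_smul]
    by_cases hi : i ∈ S
    · left
      rw [GT_y, if_pos hi]
    · have hsum := cpt_sum hE (f i)
      rw [Fin.sum_univ_two] at hsum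
      by_cases hw : cpt (![W, H] : Fin 2 → Submodule K V) 0 (f i) = 0
      · left
        rw [hw, zero_add] at hsum
        rw [GT_y, if_neg hi, hsum]
      · right
        have e1 : GT_y f S W H i - f i = -cpt (![W, H] : Fin 2 → Submodule K V) 0 (f i) := by
          rw [GT_y, if_neg hi]
          conv_lhs => rw [← hsum, cpt_add hE]
          have h1 : cpt (![W, H] : Fin 2 → Submodule K V) 1
              (cpt (![W, H] : Fin 2 → Submodule K V) 0 (f i)) = 0 :=
            cpt_of_ne hE (b := 0) (b' := 1) (by decide) (cpt_mem _ 0 _)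
          have h2 : cpt (![W, H] : Fin 2 → Submodule K V) 1
              (cpt (![W, H] : Fin 2 → Submodule K V) 1 (f i)) =
              cpt (![W, H] : Fin 2 → Submodule K V) 1 (f i) :=
            cpt_of_mem hE (cpt_mem _ 1 _)
          rw [h1, h2]
          abel
        have hn : Nrm F (far F f S om R) := mkn_nrm F f _
        have hmem : cpt (![W, H] : Fin 2 → Submodule K V) 0 (f i) ∈
            Submodule.span K (f '' (S : Set ι)) := by
          rw [← hW]
          exact cpt_mem (![W, H] : Fin 2 → Submodule K V) 0 (f i)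
        rw [e1, nrm_neg F hn, far_mem F hf R hmem hw, (far_bas F f S om R i).2 hi]
        have := hR i
        linarith
  have hs : Spl F f (far F f S om R) := far_spl F f S om R
  have hz : far F f S om R 0 = 0 := mkn_zero F f _
  obtain ⟨b', hb1, hb2⟩ := pert F hs hz (GT_y f S W H)
    (fun i => by obtain ⟨c, h1, h2, _⟩ := hy i; exact ⟨c, h1, h2⟩)
  refine ⟨b', hb1, hb2, ?_⟩
  intro i hi
  obtain ⟨c, h1, h2, h3⟩ := hy i
  have h4 := (pert_val F hs hz h1 h2).2
  rw [hb1, h4, h3, v_one, (far_bas F f S om R i).2 hi, zero_add]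

theorem GT_le {ι : Type} [Fintype ι] {f b : Module.Basis ι K V} {S : Finset ι} {om : V → ℝ}
    {W H : Submodule K V} (hc : IsCompl W H) (hb : ∀ i, b i = GT_y f S W H i)
    (hW : W = Submodule.span K (f '' (S : Set ι))) {al be : V → ℝ}
    (ha : Spl F b al) (hbe : Spl F b be) (h1 : ∀ i, i ∉ S → al (b i) = om (f i))
    (h2 : ∀ i, i ∉ S → be (b i) = om (f i)) {x : V} (hx : x ∈ H) (h0 : x ≠ 0) : al x ≤ be x := by
  classical
  have hE := int_two hc
  obtain ⟨-, i, hi, h3⟩ := hbe x h0
  have hbm : ∀ j, b j ∈ (![W, H] : Fin 2 → Submodule K V) (if j ∈ S then 0 else 1) := by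
    intro j
    rw [hb, GT_y]
    by_cases hj : j ∈ S
    · rw [if_pos hj, if_pos hj]
      show f j ∈ W
      rw [hW]
      exact Submodule.subset_span ⟨j, hj, rfl⟩
    · rw [if_neg hj, if_neg hj]
      exact cpt_mem _ 1 _
  have hiS : i ∉ S := by
    intro hiS
    have h4 := GT_repr hE b _ hbm x 1 i
    have h5 : cpt (![W, H] : Fin 2 → Submodule K V) 1 x = x :=
      cpt_of_mem hE (b := 1) (by exact hx)
    rw [h5, if_pos hiS, if_neg (by decide)] at h4
    exact hi h4
  have h4 := (ha x h0).1 i hi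
  rw [h1 i hiS] at h4
  rw [h3, h2 i hiS]
  exact h4

theorem far_split {ι : Type} [Fintype ι] {f : Module.Basis ι K V} {S : Finset ι} {om : V → ℝ}
    (hf : Spl F f om) (h0 : om 0 = 0) {W H : Submodule K V}
    (hW : W = Submodule.span K (f '' (S : Set ι))) (hc : IsCompl W H) :
    ∃ R0 : ℝ, ∀ R : ℝ, R0 ≤ R →
      SpD (![W, H] : Fin 2 → Submodule K V) (far F f S om R) ∧
      rs W (far F f S om R) = trl (rs W om) R ∧
      rs H (far F f S om R) = rs H (far F f S om R0) := by
  classical
  have hE := int_two hc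
  obtain ⟨R0, hR0⟩ : ∃ R0 : ℝ, ∀ i,
      om (f i) - om (cpt (![W, H] : Fin 2 → Submodule K V) 0 (f i)) < R0 := by
    refine ⟨1 + ∑ i, |om (f i) - om (cpt (![W, H] : Fin 2 → Submodule K V) 0 (f i))|, fun i => ?_⟩
    have h1 := Finset.single_le_sum
      (f := fun i => |om (f i) - om (cpt (![W, H] : Fin 2 → Submodule K V) 0 (f i))|)
      (fun j _ => abs_nonneg _) (Finset.mem_univ i)
    have h2 := le_abs_self (om (f i) - om (cpt (![W, H] : Fin 2 → Submodule K V) 0 (f i)))
    linarith
  refine ⟨R0, fun R hR => ?_⟩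
  obtain ⟨b0, hb0, hs0, hv0⟩ := GT_basis F hf hW hc R0 hR0
  obtain ⟨b, hb, hs, hv⟩ := GT_basis F hf hW hc R (fun i => (hR0 i).trans_le hR)
  have hbb : b = b0 := by
    apply Module.Basis.eq_of_apply_eq
    intro i
    rw [hb, hb0]
  subst hbb
  refine ⟨?_, ?_, ?_⟩
  · refine spd_of_bas F hE hs (fun j => if j ∈ S then 0 else 1) ?_
    intro j
    show b j ∈ (![W, H] : Fin 2 → Submodule K V) (if j ∈ S then 0 else 1)
    rw [hb, GT_y]
    by_cases hj : j ∈ S
    · rw [if_pos hj, if_pos hj]
      show f j ∈ W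
      rw [hW]
      exact Submodule.subset_span ⟨j, hj, rfl⟩
    · rw [if_neg hj, if_neg hj]
      exact cpt_mem _ 1 _
  · funext x
    by_cases hx : x = 0
    · subst hx
      rw [trl_zero]
      exact mkn_zero F f _
    · rw [trl_apply _ R hx]
      have hx' : (x : V) ≠ 0 := fun h => hx (Subtype.ext h)
      exact far_mem F hf R (by rw [← hW]; exact x.2) hx'
  · funext x
    by_cases hx : x = 0
    · subst hx
      exact (mkn_zero F f _).trans (mkn_zero F f _).symm
    · have hx' : (x : V) ≠ 0 := fun h => hx (Subtype.ext h)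
      exact le_antisymm (GT_le F hc hb hW hs hs0 hv hv0 x.2 hx')
        (GT_le F hc hb hW hs0 hs hv0 hv x.2 hx')

end

end H31NA
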