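import Pool.Agent.H31.NA.GT
import Pool.Agent.H31.NA.GP

set_option autoImplicit false

/-!
# Row GU (MP_b319aa_NA, block G): the horofunction of a subspace

PROOF of bus.  GH.adapt_fr for om and W: f : Bs K V splitting om, S with W = span (f '' S), card S = finrank K W =: p.  q R := far F f S om R: splittable (GC.mkn_sn / far_spl with sn_of,
value 0 at 0), ds F om (q R) ^ 2 = p R ^ 2 (GS.ds_far).
Let al be splittable; GS.adapt_dec: H with IsCompl W H and SpD ![W, H] al.  GT.far_split: R0.  For R ≥ R0, GP.ds_spd (hE = GM.int_two, Fin.sum_univ_two) gives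
 ds F al (q R) ^ 2 = ds F (rs W al) (trl (rs W om) R) ^ 2 + C, with C = ds F (rs H al) (rs H (q R0)) ^ 2,
and GL.ds_trl (on the space W, with c = 0, c' = R; trl (rs W al) 0 = rs W al because rs W al vanishes at 0; rs W al, rs W om splittable by GH.rs_sn) gives
 ds F al (q R) ^ 2 = ds F (rs W al) (rs W om) ^ 2 + 2 R rd F (rs W al) (rs W om) + p R ^ 2 + C.
So for R ≥ max R0 1: (ds ^ 2 - p R ^ 2) / (2 R) = rd F (rs W al) (rs W om) + C' / (2 R) with a constant C', which tends to rd F (rs W al) (rs W om) as R → + infinity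
(Filter.Tendsto.congr' with an eventual equality; C' / (2 R) → 0).
-/

namespace H31NA

open H50NA Filter Topology

noncomputable section

variable {K : Type} [Field K] (F : VF K) {V : Type} [AddCommGroup V] [Module K V] [Module.Finite K V]

theorem bus (W : Submodule K V) {om : V → ℝ} (ho : SN F om) :
    ∃ q : ℝ → V → ℝ, (∀ R, SN F (q R)) ∧ (∀ R, ds F om (q R) ^ 2 = Module.finrank K W * R ^ 2) ∧
      ∀ al : V → ℝ, SN F al → Tendsto (fun R : ℝ =>
        (ds F al (q R) ^ 2 - Module.finrank K W * R ^ 2) / (2 * R)) atTop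
        (𝓝 (rd F (rs W al) (rs W om))) := by
  obtain ⟨f, S, hf, hW, hS⟩ := adapt_fr F ho W
  have hsn : ∀ R, SN F (far F f S om R) := fun R => mkn_sn F f _
  refine ⟨fun R => far F f S om R, hsn, fun R => ?_, fun al ha => ?_⟩
  · rw [ds_far F hf R, hS]
  · obtain ⟨H, hWH, hsp⟩ := adapt_dec F ha W
    obtain ⟨R0, hR0⟩ := far_split F hf ho.1 hW hWH
    have hkey : ∀ R, R0 ≤ R → ds F al (far F f S om R) ^ 2 =
        ds F (rs W al) (rs W om) ^ 2 + 2 * R * rd F (rs W al) (rs W om) +
          Module.finrank K W * R ^ 2 + ds F (rs H al) (rs H (far F f S om R0)) ^ 2 := by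
      intro R hR
      obtain ⟨h1, h2, h3⟩ := hR0 R hR
      have h4 := ds_spd F (int_two hWH) ha (hsn R) hsp h1
      rw [Fin.sum_univ_two] at h4
      have h5 : ds F al (far F f S om R) ^ 2 = ds F (rs W al) (rs W (far F f S om R)) ^ 2 +
        ds F (rs H al) (rs H (far F f S om R)) ^ 2 := h4
      have h6 := ds_trl F (rs_sn F W ha) (rs_sn F W ho) 0 R
      have h7 : trl (rs W al) 0 = rs W al := by
        funext x
        by_cases hx : x = 0
        · subst hx
          rw [trl_zero]
          exact ha.1.symm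
        · rw [trl_apply _ _ hx, add_zero]
      rw [h7] at h6
      rw [h5, h2, h3, h6]
      ring
    have hlim : Tendsto (fun R : ℝ => rd F (rs W al) (rs W om) +
        (ds F (rs W al) (rs W om) ^ 2 + ds F (rs H al) (rs H (far F f S om R0)) ^ 2) / (2 * R))
        atTop (𝓝 (rd F (rs W al) (rs W om))) := by
      have h8 : Tendsto (fun R : ℝ => (ds F (rs W al) (rs W om) ^ 2 +
          ds F (rs H al) (rs H (far F f S om R0)) ^ 2) / (2 * R)) atTop (𝓝 0) :=
        Tendsto.const_div_atTop (tendsto_id.const_mul_atTop (by norm_num)) _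
      have h9 := h8.const_add (rd F (rs W al) (rs W om))
      rwa [add_zero] at h9
    refine hlim.congr' ?_
    filter_upwards [eventually_ge_atTop R0, eventually_gt_atTop 0] with R hR hR1
    rw [hkey R hR]
    field_simp
    ring

end

end H31NA
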