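import Pool.Agent.H31.NA.GK

set_option autoImplicit false

/-!
# Row GV (MP_b319aa_NA, block G): local structure near a splittable norm

Rad q r: r > 0 and different values of q on non zero vectors have distance at least 4 r.

PROOFS.
* rad_ex: b splits q.  By GB.spl_val every difference q x - q y (x, y ≠ 0) is of the form t + n w with t in the finite set T = {q (b i) - q (b j)}.  The set A of numbers t + n w (t ∈ T, n ∈ Z) in the
  interval (0, w] is finite (GF.fin_mod with C = w).  If A is empty take 4 r = w, otherwise 4 r = the minimum of w and of A.  If q x < q y then d = q y - q x > 0 has the form t + n w: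
  if d ≤ w it is in A, so d ≥ 4 r; if d > w then d ≥ 4 r too.
* near_le / near_spl: assume |al x - q x| < r for x ≠ 0, b splits al.  Let x ≠ 0.
  (i) x_i ≠ 0 ⇒ q x ≤ v x_i + q (b i): otherwise, with y = x_i b_i (≠ 0, q y = v x_i + q (b i) by Nrm), q y < q x, so q y + 4 r ≤ q x; but q x < al x + r ≤ v x_i + al (b i) + r < v x_i + q (b i) + 2 r = q y + 2 r.
  (ii) x_i ≠ 0 and al x = v x_i + al (b i) ⇒ q x = v x_i + q (b i): ≤ by (i); if q x < q y (y as before) then q x + 4 r ≤ q y, but q x > al x - r = v x_i + al (b i) - r > v x_i + q (b i) - 2 r = q y - 2 r.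
* near_lead: b splits al (so also q).  First part: al x ≤ v x_i + al (b i) minus q x = v x_i + q (b i).  Second part: i attaining al x, (ii).
* near_eq: q x < q (x - y): y ≠ 0 and q y = q x (if y = 0 then q (x - y) = q x).  al (x - y) > q (x - y) - r ≥ q x + 3 r > al x + 2 r > al x (x - y ≠ 0 or x = y?; if x = y there is
  nothing to prove), so al y = al x (GB.nrm_lead with y - x; nrm_sub_comm).
* near_mkn: b splits q and al; |al (b i) - q (b i)| ≤ C for all i gives |al x - q x| ≤ C for x ≠ 0 (GB.spl_le twice).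
* sc q al s := q + s (al - q).  sc_spl: b splits al, near q, 0 ≤ s ≤ 1: for x ≠ 0 and x_i ≠ 0: (1-s) q x + s al x ≤ (1-s) (v x_i + q (b i)) + s (v x_i + al (b i)); for i attaining al x, (ii) gives equality.
* sc_sn: sc q al s 0 = 0 (q 0 = al 0 = 0) and sc_spl for the basis of SN F al.
* gmf_near: b := a common basis of al, be (GF.common); it splits q (near_spl).  gmf F al be t is split by b with values (1-t) al (b i) + t be (b i) (GK.gmf_gen, 0 ≤ t ≤ 1), which are at distance
  < r from q (b i) (convexity: |(1-t) u + t u'| ≤ (1-t) |u| + t |u'|); so by near_mkn with C = the maximum of these finitely many numbers (C < r; the index set Fin m is non empty because x ≠ 0)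
  |gmf F al be t x - q x| ≤ C < r.  (gmf F al be t 0 = 0: GK.gmf_at_zero.)
-/

namespace H31NA

open H50NA

noncomputable section

variable {K : Type} [Field K] (F : VF K) {V : Type} [AddCommGroup V] [Module K V]

/-- r is a radius for q: a quarter of the distance of different values -/
def Rad (q : V → ℝ) (r : ℝ) : Prop :=
  0 < r ∧ ∀ x y : V, x ≠ 0 → y ≠ 0 → q x < q y → q x + 4 * r ≤ q y

/-- the segment from q towards al -/
def sc (q al : V → ℝ) (s : ℝ) : V → ℝ := fun x => q x + s * (al x - q x)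

theorem near_le {ι : Type} {q al : V → ℝ} {r : ℝ} (hr : Rad q r) (hq : Nrm F q)
    {b : Module.Basis ι K V} (hb : Spl F b al) (hn : ∀ x, x ≠ 0 → |al x - q x| < r) {x : V}
    (hx : x ≠ 0) {i : ι} (hi : b.repr x i ≠ 0) : q x ≤ F.v (b.repr x i) + q (b i) ∧
      (al x = F.v (b.repr x i) + al (b i) → q x = F.v (b.repr x i) + q (b i)) := by
  obtain ⟨hr0, hr1⟩ := hr
  have hbi : b i ≠ 0 := b.ne_zero i
  have hy : b.repr x i • b i ≠ 0 := smul_ne_zero hi hbi
  have hqy := hq.smul (b.repr x i) (b i) hi hbi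
  have h1 := abs_lt.1 (hn x hx)
  have h2 := abs_lt.1 (hn (b i) hbi)
  have h3 := (hb x hx).1 i hi
  have hle : q x ≤ F.v (b.repr x i) + q (b i) := by
    by_contra hlt
    rw [not_le, ← hqy] at hlt
    have h4 := hr1 _ _ hy hx hlt
    rw [hqy] at h4
    linarith [h1.1, h1.2, h2.1, h2.2]
  refine ⟨hle, fun he => le_antisymm hle ?_⟩
  by_contra hlt
  rw [not_le, ← hqy] at hlt
  have h4 := hr1 _ _ hx hy hlt
  rw [hqy] at h4
  linarith [h1.1, h1.2, h2.1, h2.2]

theorem near_spl {ι : Type} {q al : V → ℝ} {r : ℝ} (hr : Rad q r) (hq : Nrm F q)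
    {b : Module.Basis ι K V} (hb : Spl F b al) (hn : ∀ x, x ≠ 0 → |al x - q x| < r) :
    Spl F b q := by
  intro x hx
  refine ⟨fun i hi => (near_le F hr hq hb hn hx hi).1, ?_⟩
  obtain ⟨_, i, hi, h⟩ := hb x hx
  exact ⟨i, hi, (near_le F hr hq hb hn hx hi).2 h⟩

theorem near_lead {ι : Type} {q al : V → ℝ} {r : ℝ} (hr : Rad q r) (hq : Nrm F q)
    {b : Module.Basis ι K V} (hb : Spl F b al) (hn : ∀ x, x ≠ 0 → |al x - q x| < r) {x : V}
    (hx : x ≠ 0) : (∀ i, b.repr x i ≠ 0 → q x = F.v (b.repr x i) + q (b i) →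
      al x - q x ≤ al (b i) - q (b i)) ∧
      ∃ i, b.repr x i ≠ 0 ∧ q x = F.v (b.repr x i) + q (b i) ∧ al x - q x = al (b i) - q (b i) := by
  obtain ⟨h1, i, hi, h⟩ := hb x hx
  refine ⟨fun j hj hqj => ?_, i, hi, (near_le F hr hq hb hn hx hi).2 h, ?_⟩
  · have h2 := h1 j hj
    linarith
  · have h2 := (near_le F hr hq hb hn hx hi).2 h
    linarith

theorem near_eq {q al : V → ℝ} {r : ℝ} (hr : Rad q r) (hq : Nrm F q) (ha : Nrm F al)
    (hn : ∀ x, x ≠ 0 → |al x - q x| < r) {x y : V} (hx : x ≠ 0) (hy : q x < q (x - y)) :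
    q y = q x ∧ al y = al x := by
  have hyq : q x < q (y - x) := by
    rw [nrm_sub_comm F hq y x]
    exact hy
  obtain ⟨_, h1⟩ := nrm_lead F hq hx (Or.inr hyq)
  refine ⟨h1, ?_⟩
  by_cases hxy : x - y = 0
  · rw [sub_eq_zero.1 hxy]
  · have h2 := abs_lt.1 (hn _ hxy)
    have h3 := abs_lt.1 (hn x hx)
    have h4 := hr.2 x (x - y) hx hxy hy
    have h5 : al x < al (x - y) := by linarith [h2.1, h3.2, hr.1]
    have h6 : al x < al (y - x) := by
      rw [nrm_sub_comm F ha y x]
      exact h5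
    exact (nrm_lead F ha hx (Or.inr h6)).2

theorem near_mkn {ι : Type} {q al : V → ℝ} {b : Module.Basis ι K V} (hq : Spl F b q)
    (ha : Spl F b al) (h0 : q 0 = 0) (h0' : al 0 = 0) {C : ℝ}
    (hC : ∀ i, |al (b i) - q (b i)| ≤ C) {x : V} (hx : x ≠ 0) : |al x - q x| ≤ C := by
  have h1 := spl_le F ha (spl_nrm F hq h0) (C := C) (fun i => by linarith [(abs_le.1 (hC i)).2]) hx
  have h2 := spl_le F hq (spl_nrm F ha h0') (C := C) (fun i => by linarith [(abs_le.1 (hC i)).1]) hx
  rw [abs_le]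
  constructor <;> linarith

theorem sc_spl {ι : Type} {q al : V → ℝ} {r : ℝ} (hr : Rad q r) (hq : Nrm F q)
    {b : Module.Basis ι K V} (hb : Spl F b al) (hn : ∀ x, x ≠ 0 → |al x - q x| < r) {s : ℝ}
    (h0 : 0 ≤ s) (h1 : s ≤ 1) : Spl F b (sc q al s) := by
  intro x hx
  obtain ⟨h2, i, hi, h⟩ := hb x hx
  refine ⟨fun j hj => ?_, i, hi, ?_⟩
  · have h3 := h2 j hj
    have h4 := (near_le F hr hq hb hn hx hj).1
    have h5 := mul_le_mul_of_nonneg_left h3 h0
    have h6 := mul_le_mul_of_nonneg_left h4 (sub_nonneg.2 h1)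
    unfold sc
    have e1 : q x + s * (al x - q x) = (1 - s) * q x + s * al x := by ring
    have e2 : F.v (b.repr x j) + (q (b j) + s * (al (b j) - q (b j))) =
        (1 - s) * (F.v (b.repr x j) + q (b j)) + s * (F.v (b.repr x j) + al (b j)) := by ring
    rw [e1, e2]
    linarith
  · have h4 := (near_le F hr hq hb hn hx hi).2 h
    unfold sc
    rw [h4, h]
    ring

variable [Module.Finite K V]

theorem rad_ex {q : V → ℝ} (hq : SN F q) : ∃ r, Rad q r := by
  obtain ⟨_, b, hb⟩ := hq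
  obtain ⟨A, hA⟩ : ∃ A : Set ℝ, A = {a | 0 < a ∧ a ≤ F.w ∧ ∃ t ∈ Set.range (fun p : Fin (Module.finrank K V) ×
    Fin (Module.finrank K V) => q (b p.1) - q (b p.2)), ∃ n : ℤ, a = t + n * F.w} := ⟨_, rfl⟩
  have hfin : A.Finite := by
    refine fin_mod F.wpos (T := Set.range (fun p : Fin (Module.finrank K V) ×
      Fin (Module.finrank K V) => q (b p.1) - q (b p.2))) (Set.finite_range _) F.w ?_
    intro a ha
    rw [hA] at ha
    obtain ⟨h1, h2, h3⟩ := ha
    exact ⟨by rw [abs_of_pos h1]; exact h2, h3⟩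
  obtain ⟨m, hm, hmin⟩ := Set.exists_min_image (insert F.w A) id (hfin.insert _) ⟨F.w, Set.mem_insert _ _⟩
  have hm0 : 0 < m := by
    rcases Set.mem_insert_iff.1 hm with h | h
    · rw [h]
      exact F.wpos
    · rw [hA] at h
      exact h.1
  refine ⟨m / 4, by positivity, fun x y hx hy hxy => ?_⟩
  obtain ⟨i, n, hi⟩ := spl_val F hb hx
  obtain ⟨j, n', hj⟩ := spl_val F hb hy
  have hmle : m ≤ q y - q x := by
    by_cases hle : q y - q x ≤ F.w
    · apply hmin
      apply Set.mem_insert_of_mem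
      rw [hA]
      refine ⟨by linarith, hle, _, ⟨(j, i), rfl⟩, n' - n, ?_⟩
      show q y - q x = q (b j) - q (b i) + ((n' - n : ℤ) : ℝ) * F.w
      rw [hi, hj]
      push_cast
      ring
    · have h1 := hmin F.w (Set.mem_insert _ _)
      have h2 : m ≤ F.w := h1
      linarith [not_le.1 hle]
  linarith

theorem sc_sn {q al : V → ℝ} {r : ℝ} (hr : Rad q r) (hq : SN F q) (ha : SN F al)
    (hn : ∀ x, x ≠ 0 → |al x - q x| < r) {s : ℝ} (h0 : 0 ≤ s) (h1 : s ≤ 1) :
    SN F (sc q al s) := by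
  have hqn := sn_nrm F hq
  obtain ⟨ha0, b, hb⟩ := ha
  refine ⟨?_, b, sc_spl F hr hqn hb hn h0 h1⟩
  unfold sc
  rw [hq.1, ha0]
  ring

theorem gmf_near {q al be : V → ℝ} {r : ℝ} (hr : Rad q r) (hq : SN F q) (ha : SN F al)
    (hb : SN F be) (hn : ∀ x, x ≠ 0 → |al x - q x| < r) (hn' : ∀ x, x ≠ 0 → |be x - q x| < r)
    {t : ℝ} (ht : 0 ≤ t) (ht' : t ≤ 1) {x : V} (hx : x ≠ 0) : |gmf F al be t x - q x| < r := by
  have hqn := sn_nrm F hq
  obtain ⟨b, h1, h2⟩ := common F ha hb
  have hqs := near_spl F hr hqn h1 hn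
  obtain ⟨h3, h4⟩ := gmf_gen F h1 h2 ht ht'
  have hgn : Nrm F (gmf F al be t) := spl_nrm F h3 (gmf_at_zero F ha t)
  have h5 : ∀ i, |gmf F al be t (b i) - q (b i)| < r := by
    intro i
    have h6 := abs_lt.1 (hn _ (b.ne_zero i))
    have h7 := abs_lt.1 (hn' _ (b.ne_zero i))
    rw [h4 i]
    have e : (1 - t) * al (b i) + t * be (b i) - q (b i) =
        (1 - t) * (al (b i) - q (b i)) + t * (be (b i) - q (b i)) := by ring
    rw [e, abs_lt]
    have ht1 : 0 ≤ 1 - t := by linarith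
    have hr0 := hr.1
    rcases eq_or_lt_of_le ht with h8 | h8
    · rw [← h8]
      constructor <;> linarith [h6.1, h6.2]
    · have h9 := mul_lt_mul_of_pos_left h7.1 h8
      have h10 := mul_lt_mul_of_pos_left h7.2 h8
      have h11 := mul_le_mul_of_nonneg_left h6.1.le ht1
      have h12 := mul_le_mul_of_nonneg_left h6.2.le ht1
      constructor <;> nlinarith
  rw [abs_lt]
  constructor
  · obtain ⟨i, hi, h6⟩ := nrm_ge F hgn b hx
    have h7 := (hqs x hx).1 i hi
    have h8 := (abs_lt.1 (h5 i)).1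
    linarith
  · obtain ⟨i, hi, h6⟩ := nrm_ge F hqn b hx
    have h7 := (h3 x hx).1 i hi
    have h8 := (abs_lt.1 (h5 i)).2
    linarith

end

end H31NA
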