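import Pool.Agent.H31.NA.GV
import Pool.Agent.H31.NA.GL

/-!
# Row GW (MP_b319aa_NA, block G): scaling near a splittable norm

sc q al s = q + s (al - q) (see GV; all facts used below are statements of GV, GJ, GK, GF, GB).

PROOFS.  b := a common basis of al, be (GF.common).  GV.sc_spl: b splits sc q al s and sc q be s; GV.near_spl: b splits q.
* sc_ds, sc_rd: GJ.ds_gen / GJ.rd_gen: the differences (sc q be s) (b i) - (sc q al s) (b i) = s (be (b i) - al (b i)); for ds compare squares (both sides ≥ 0: GJ.ds_nn, s ≥ 0).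
* sc_gmf: gmf F al be t is within r of q on non zero vectors (GV.gmf_near) and split by b with values (1-t) al (b i) + t be (b i) (GK.gmf_gen), so b splits sc q (gmf F al be t) s (GV.sc_spl).
  The left side gmf F (sc q al s) (sc q be s) t is split by b with values (1-t) (q + s (al - q)) + t (q + s (be - q)) at b i, which equals q + s ((1-t) al + t be - q): GB.spl_ext (at 0: both sides are 0:
  GK.gmf_at_zero, q 0 = 0).
* sc_line: b splits al, hence q (near_spl); gmf F q al s is split by b with values (1-s) q (b i) + s al (b i) = sc q al s (b i): GB.spl_ext.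
* sc_ds_q: ds F q (sc q al s) = s * ds F q al: same with b splitting q and al.
* tan_scale: al := q + s h (as a function); sc q al (s' / s) = q + s' h (s ≠ 0): GV.sc_sn with parameter s' / s ∈ [0, 1].
-/

set_option autoImplicit false

namespace H31NA

open H50NA

noncomputable section

variable {K : Type} [Field K] (F : VF K) {V : Type} [AddCommGroup V] [Module K V] [Module.Finite K V]

theorem sc_ds {q al be : V → ℝ} {r : ℝ} (hr : Rad q r) (hq : SN F q) (ha : SN F al)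
    (hb : SN F be) (hn : ∀ x, x ≠ 0 → |al x - q x| < r) (hn' : ∀ x, x ≠ 0 → |be x - q x| < r)
    {s : ℝ} (h0 : 0 ≤ s) (h1 : s ≤ 1) : ds F (sc q al s) (sc q be s) = s * ds F al be := by
  obtain ⟨b, e1, e2⟩ := common F ha hb
  have hqn := sn_nrm F hq
  have f1 := sc_spl F hr hqn e1 hn h0 h1
  have f2 := sc_spl F hr hqn e2 hn' h0 h1
  have h : ds F (sc q al s) (sc q be s) ^ 2 = (s * ds F al be) ^ 2 := by
    rw [mul_pow, ds_gen F f1 f2, ds_gen F e1 e2, Finset.mul_sum]
    exact Finset.sum_congr rfl fun i _ => by unfold sc; ring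
  exact (sq_eq_sq₀ (ds_nn F _ _) (mul_nonneg h0 (ds_nn F _ _))).1 h

theorem sc_rd {q al be : V → ℝ} {r : ℝ} (hr : Rad q r) (hq : SN F q) (ha : SN F al)
    (hb : SN F be) (hn : ∀ x, x ≠ 0 → |al x - q x| < r) (hn' : ∀ x, x ≠ 0 → |be x - q x| < r)
    {s : ℝ} (h0 : 0 ≤ s) (h1 : s ≤ 1) : rd F (sc q al s) (sc q be s) = s * rd F al be := by
  obtain ⟨b, e1, e2⟩ := common F ha hb
  have hqn := sn_nrm F hq
  have f1 := sc_spl F hr hqn e1 hn h0 h1
  have f2 := sc_spl F hr hqn e2 hn' h0 h1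
  rw [rd_gen F f1 f2, rd_gen F e1 e2, Finset.mul_sum]
  exact Finset.sum_congr rfl fun i _ => by unfold sc; ring

theorem sc_gmf {q al be : V → ℝ} {r : ℝ} (hr : Rad q r) (hq : SN F q) (ha : SN F al)
    (hb : SN F be) (hn : ∀ x, x ≠ 0 → |al x - q x| < r) (hn' : ∀ x, x ≠ 0 → |be x - q x| < r)
    {s : ℝ} (h0 : 0 ≤ s) (h1 : s ≤ 1) {t : ℝ} (ht : 0 ≤ t) (ht' : t ≤ 1) :
    gmf F (sc q al s) (sc q be s) t = sc q (gmf F al be t) s := by
  obtain ⟨b, e1, e2⟩ := common F ha hb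
  have hqn := sn_nrm F hq
  have f1 := sc_spl F hr hqn e1 hn h0 h1
  have f2 := sc_spl F hr hqn e2 hn' h0 h1
  obtain ⟨g1, g2⟩ := gmf_gen F e1 e2 ht ht'
  have g3 : ∀ x, x ≠ 0 → |gmf F al be t x - q x| < r :=
    fun x hx => gmf_near F hr hq ha hb hn hn' ht ht' hx
  have g4 := sc_spl F hr hqn g1 g3 h0 h1
  obtain ⟨k1, k2⟩ := gmf_gen F f1 f2 ht ht'
  have hs := sc_sn F hr hq ha hn h0 h1
  refine spl_ext F k1 g4 ?_ fun i => ?_
  · rw [gmf_at_zero F hs]
    show (0 : ℝ) = q 0 + s * (gmf F al be t 0 - q 0)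
    rw [gmf_at_zero F ha, hq.1]
    ring
  · rw [k2 i]
    show (1 - t) * (q (b i) + s * (al (b i) - q (b i))) + t * (q (b i) + s * (be (b i) - q (b i))) =
      q (b i) + s * (gmf F al be t (b i) - q (b i))
    rw [g2 i]
    ring

theorem sc_line {q al : V → ℝ} {r : ℝ} (hr : Rad q r) (hq : SN F q) (ha : SN F al)
    (hn : ∀ x, x ≠ 0 → |al x - q x| < r) {s : ℝ} (h0 : 0 ≤ s) (h1 : s ≤ 1) :
    gmf F q al s = sc q al s := by
  have ha' := ha
  obtain ⟨_, b, e1⟩ := ha'
  have hqn := sn_nrm F hq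
  have e0 := near_spl F hr hqn e1 hn
  have f1 := sc_spl F hr hqn e1 hn h0 h1
  obtain ⟨g1, g2⟩ := gmf_gen F e0 e1 h0 h1
  refine spl_ext F g1 f1 ?_ fun i => ?_
  · rw [gmf_at_zero F hq]
    show (0 : ℝ) = q 0 + s * (al 0 - q 0)
    rw [hq.1, ha.1]
    ring
  · rw [g2 i]
    show (1 - s) * q (b i) + s * al (b i) = q (b i) + s * (al (b i) - q (b i))
    ring

theorem sc_ds_q {q al : V → ℝ} {r : ℝ} (hr : Rad q r) (hq : SN F q) (ha : SN F al)
    (hn : ∀ x, x ≠ 0 → |al x - q x| < r) {s : ℝ} (h0 : 0 ≤ s) (h1 : s ≤ 1) :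
    ds F q (sc q al s) = s * ds F q al := by
  have ha' := ha
  obtain ⟨_, b, e1⟩ := ha'
  have hqn := sn_nrm F hq
  have e0 := near_spl F hr hqn e1 hn
  have f1 := sc_spl F hr hqn e1 hn h0 h1
  have h : ds F q (sc q al s) ^ 2 = (s * ds F q al) ^ 2 := by
    rw [mul_pow, ds_gen F e0 f1, ds_gen F e0 e1, Finset.mul_sum]
    exact Finset.sum_congr rfl fun i _ => by unfold sc; ring
  exact (sq_eq_sq₀ (ds_nn F _ _) (mul_nonneg h0 (ds_nn F _ _))).1 h

theorem tan_scale {q h : V → ℝ} {r s : ℝ} (hr : Rad q r) (hq : SN F q) (hs : 0 < s)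
    (h0 : h 0 = 0) (h1 : SN F (fun x => q x + s * h x)) (hn : ∀ x, |s * h x| < r) (s' : ℝ)
    (h2 : 0 ≤ s') (h3 : s' ≤ s) : SN F (fun x => q x + s' * h x) := by
  have _ := h0
  have e : (fun x => q x + s' * h x) = sc q (fun x => q x + s * h x) (s' / s) := by
    funext x
    show q x + s' * h x = q x + s' / s * (q x + s * h x - q x)
    field_simp
    ring
  rw [e]
  refine sc_sn F hr hq h1 (fun x _ => ?_) (div_nonneg h2 hs.le) ((div_le_one hs).2 h3)
  show |q x + s * h x - q x| < r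
  rw [add_sub_cancel_left]
  exact hn x

end

end H31NA
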