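import Pool.Agent.H31.NA.GC

set_option autoImplicit false

/-!
# Row GX (MP_b319aa_NA, block G): finitely many leading terms up to scalars (finite residue field)

Rf F: there is a finite set R of K such that every x ≠ 0 with v x ≥ 0 satisfies x = r or v (x - r) > 0 for some r ∈ R.

PROOF of rep_fin.  e splits q (q 0 = 0), ι finite.  For i0, i ∈ ι let p i0 i be an element u ≠ 0 of K with v u = q (e i0) - q (e i) if there is one, 0 otherwise (classical choice).
Y := the finite set of all vectors sum over i of (rho i * p i0 i) • e i, for i0 ∈ ι and rho : ι → (insert 0 R) (finitely many pairs (i0, rho); Finset.image / Set.Finite.toFinset of a range).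
Let x ≠ 0 with coordinates x_i, M = {i : x_i ≠ 0 and v x_i + q (e i) = q x}, i0 ∈ M (Spl), c = x_{i0}.
For i ∈ M: z_i = x_i / c ≠ 0 has v z_i = v x_i - v c = q (e i0) - q (e i) (both v x_i + q (e i) and v c + q (e i0) are q x), so p := p i0 i ≠ 0 and v p = v z_i; u = z_i / p ≠ 0 has v u = 0,
so there is r_i ∈ R with u = r_i or v (u - r_i) > 0.  Put rho i = r_i for i ∈ M, rho i = 0 for i ∉ M, y = sum over i of (rho i * p i0 i) • e i ∈ Y.
x - c y has coordinates: for i ∈ M: x_i - c r_i p = c p (u - r_i): zero, or of valuation v c + v p + v (u - r_i) > v c + q (e i0) - q (e i) = q x - q (e i);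
for i ∉ M: x_i: zero, or v x_i + q (e i) > q x (≥ by Spl F e q, ≠ because i ∉ M).
So if x ≠ c y, then by Spl F e q at x - c y some non zero coordinate d_i has q (x - c y) = v d_i + q (e i) > q x.
-/

namespace H31NA

open H50NA

noncomputable section

variable {K : Type} [Field K] (F : VF K) {V : Type} [AddCommGroup V] [Module K V]

theorem rep_fin (hR : Rf F) {ι : Type} [Fintype ι] {e : Module.Basis ι K V} {q : V → ℝ}
    (hq : Spl F e q) (h0 : q 0 = 0) : ∃ Y : Finset V, ∀ x : V, x ≠ 0 →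
      ∃ c : K, c ≠ 0 ∧ ∃ y ∈ Y, (x = c • y ∨ q x < q (x - c • y)) := by
  classical
  obtain ⟨R, hR⟩ := hR
  let p : ι → ι → K := fun i0 i =>
    if h : ∃ u : K, u ≠ 0 ∧ F.v u = q (e i0) - q (e i) then h.choose else 0
  have hp : ∀ i0 i, (∃ u : K, u ≠ 0 ∧ F.v u = q (e i0) - q (e i)) →
      p i0 i ≠ 0 ∧ F.v (p i0 i) = q (e i0) - q (e i) := by
    intro i0 i h
    have h1 : p i0 i = h.choose := dif_pos h
    rw [h1]
    exact h.choose_spec
  let Y : Finset V := (Finset.univ ×ˢ Fintype.piFinset (fun _ : ι => insert 0 R)).image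
    (fun w : ι × (ι → K) => ∑ i, (w.2 i * p w.1 i) • e i)
  refine ⟨Y, fun x hx => ?_⟩
  obtain ⟨h1, i0, hi0, hx0⟩ := hq x hx
  obtain ⟨c, hc⟩ : ∃ c, c = e.repr x i0 := ⟨_, rfl⟩
  rw [← hc] at hi0 hx0
  have hrho : ∀ i, ∃ r ∈ insert 0 R, ((e.repr x i ≠ 0 ∧ q x = F.v (e.repr x i) + q (e i)) →
      (e.repr x i - c * (r * p i0 i) = 0 ∨
        q x < F.v (e.repr x i - c * (r * p i0 i)) + q (e i))) ∧
      (¬ (e.repr x i ≠ 0 ∧ q x = F.v (e.repr x i) + q (e i)) → r = 0) := by
    intro i
    by_cases hM : e.repr x i ≠ 0 ∧ q x = F.v (e.repr x i) + q (e i)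
    · obtain ⟨hxi, hqi⟩ := hM
      have hz0 : e.repr x i / c ≠ 0 := div_ne_zero hxi hi0
      have hvz : F.v (e.repr x i / c) = q (e i0) - q (e i) := by
        rw [v_div F hxi hi0]
        linarith
      obtain ⟨hp0, hpv⟩ := hp i0 i ⟨_, hz0, hvz⟩
      have hu0 : e.repr x i / c / p i0 i ≠ 0 := div_ne_zero hz0 hp0
      have hvu : F.v (e.repr x i / c / p i0 i) = 0 := by
        rw [v_div F hz0 hp0, hvz, hpv, sub_self]
      obtain ⟨r, hr, hr'⟩ := hR _ hu0 hvu.ge
      refine ⟨r, Finset.mem_insert_of_mem hr, fun _ => ?_, fun h => absurd ⟨hxi, hqi⟩ h⟩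
      have hid : e.repr x i - c * (r * p i0 i) = c * (p i0 i * (e.repr x i / c / p i0 i - r)) := by
        field_simp
      by_cases hur : e.repr x i / c / p i0 i = r
      · left
        rw [hid, hur, sub_self, mul_zero, mul_zero]
      · right
        have hd0 : e.repr x i / c / p i0 i - r ≠ 0 := sub_ne_zero.2 hur
        have h3 := hr'.resolve_left hur
        rw [hid, F.mul _ _ hi0 (mul_ne_zero hp0 hd0), F.mul _ _ hp0 hd0, hpv]
        linarith
    · exact ⟨0, Finset.mem_insert_self _ _, fun h => absurd h hM, fun _ => rfl⟩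
  choose rho hrR hr1 hr2 using hrho
  refine ⟨c, hi0, ∑ i, (rho i * p i0 i) • e i, ?_, ?_⟩
  · refine Finset.mem_image.2 ⟨(i0, rho), ?_, rfl⟩
    rw [Finset.mem_product]
    exact ⟨Finset.mem_univ _, Fintype.mem_piFinset.2 hrR⟩
  · by_cases hxy : x = c • ∑ i, (rho i * p i0 i) • e i
    · exact Or.inl hxy
    · right
      obtain ⟨-, j, hj, hj2⟩ := hq (x - c • ∑ i, (rho i * p i0 i) • e i) (sub_ne_zero.2 hxy)
      have hco : e.repr (x - c • ∑ i, (rho i * p i0 i) • e i) j =
          e.repr x j - c * (rho j * p i0 j) := by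
        rw [map_sub, map_smul, Finsupp.sub_apply, Finsupp.smul_apply, smul_eq_mul,
          Module.Basis.repr_sum_self]
      rw [hco] at hj hj2
      rw [hj2]
      by_cases hM : e.repr x j ≠ 0 ∧ q x = F.v (e.repr x j) + q (e j)
      · exact (hr1 j hM).resolve_left hj
      · have h3 := hr2 j hM
        rw [h3, zero_mul, mul_zero, sub_zero] at hj ⊢
        exact lt_of_le_of_ne (h1 j hj) (fun h => hM ⟨hj, h⟩)

end

end H31NA
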