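import Pool.Agent.H31.NA.GX
import Pool.Agent.H31.NA.GV
import Pool.Agent.H31.NA.GR

set_option autoImplicit false

/-!
# Row GXb (MP_b319aa_NA, block G): finitely many bases suffice near a splittable norm (finite residue field)

PROOF.  Y from GX.rep_fin applied to a basis splitting q (Fin m finite).
The set of bases b : Bs K V with b i ∈ Y for all i is finite: b ↦ (i ↦ b i) is injective (Module.Basis.eq_of_apply_eq) with values in the finite set of functions Fin m → Y (Set.Finite.pi, Set.Finite.preimage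
of an injective map).  B := this finite set as a Finset.
Let al, be be splittable and within r of q; b a common basis of al and be (GF.common); b splits q (GV.near_spl).  For each i take c_i ≠ 0, y_i ∈ Y with b i = c_i y_i or q (b i) < q (b i - c_i y_i).
Claim: for ga ∈ {q, al, be}: y_i = c_i⁻¹ b i or ga (c_i⁻¹ b i) < ga (y_i - c_i⁻¹ b i).  If b i = c_i y_i this is the first case.  Otherwise d = b i - c_i y_i ≠ 0 [if d = 0 then b i = c_i y_i] and
y_i - c_i⁻¹ b i = - c_i⁻¹ d, so ga of it = ga d - v c_i (norm: smul, v of the inverse, GB.nrm_neg), while ga (c_i⁻¹ b i) = ga (b i) - v c_i; and ga d > ga (b i):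
for ga = q by assumption; for ga = al: q d ≥ q (b i) + 4 r (Rad), al d > q d - r ≥ q (b i) + 3 r > al (b i) + 2 r.
GR.pert for q, al, be gives three bases with the same vectors y_i: they are equal (Module.Basis.eq_of_apply_eq), and this basis is in B and splits q, al, be.
-/

namespace H31NA

open H50NA

noncomputable section

variable {K : Type} [Field K] (F : VF K) {V : Type} [AddCommGroup V] [Module K V] [Module.Finite K V]

theorem fin_bases (hR : Rf F) {q : V → ℝ} {r : ℝ} (hr : Rad q r) (hq : SN F q) :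
    ∃ B : Finset (Bs K V), ∀ al be : V → ℝ, SN F al → SN F be → (∀ x, x ≠ 0 → |al x - q x| < r) →
      (∀ x, x ≠ 0 → |be x - q x| < r) → ∃ b ∈ B, Spl F b q ∧ Spl F b al ∧ Spl F b be := by
  classical
  have hqn := sn_nrm F hq
  obtain ⟨h0, e, he⟩ := id hq
  obtain ⟨Y, hY⟩ := rep_fin F hR he h0
  have hfin : {b : Bs K V | ∀ i, b i ∈ Y}.Finite := by
    have hinj : Function.Injective
        (fun (b : Bs K V) (i : Fin (Module.finrank K V)) => (b i : V)) := fun b b' h =>
      Module.Basis.eq_of_apply_eq fun i => congrFun h i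
    have h1 : {f : Fin (Module.finrank K V) → V | ∀ i, f i ∈ (Y : Set V)}.Finite :=
      Set.Finite.pi' fun _ => Y.finite_toSet
    exact h1.preimage hinj.injOn
  refine ⟨hfin.toFinset, fun al be ha hb hn hn' => ?_⟩
  obtain ⟨b, h1, h2⟩ := common F ha hb
  have hqs := near_spl F hr hqn h1 hn
  choose c hc y hy hcy using fun i => hY (b i) (b.ne_zero i)
  have claim : ∀ ga : V → ℝ, Nrm F ga → (∀ x, x ≠ 0 → |ga x - q x| < r) → ∀ i,
      y i = (c i)⁻¹ • b i ∨ ga ((c i)⁻¹ • b i) < ga (y i - (c i)⁻¹ • b i) := by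
    intro ga hg hgn i
    by_cases hd : b i - c i • y i = 0
    · left
      rw [sub_eq_zero.1 hd, smul_smul, inv_mul_cancel₀ (hc i), one_smul]
    · right
      have hlt : q (b i) < q (b i - c i • y i) :=
        (hcy i).resolve_left (fun h => hd (sub_eq_zero.2 h))
      have e1 : y i - (c i)⁻¹ • b i = -((c i)⁻¹ • (b i - c i • y i)) := by
        rw [smul_sub, smul_smul, inv_mul_cancel₀ (hc i), one_smul, neg_sub]
      rw [e1, nrm_neg F hg, hg.smul _ _ (inv_ne_zero (hc i)) (b.ne_zero i),
        hg.smul _ _ (inv_ne_zero (hc i)) hd]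
      have h3 := hr.2 _ _ (b.ne_zero i) hd hlt
      have h4 := abs_lt.1 (hgn _ (b.ne_zero i))
      have h5 := abs_lt.1 (hgn _ hd)
      linarith [h4.1, h4.2, h5.1, h5.2, hr.1]
  obtain ⟨b1, e1, s1⟩ := pert F hqs h0 y fun i => ⟨_, inv_ne_zero (hc i),
    claim q hqn (fun x _ => by rw [sub_self, abs_zero]; exact hr.1) i⟩
  obtain ⟨b2, e2, s2⟩ := pert F h1 ha.1 y fun i => ⟨_, inv_ne_zero (hc i),
    claim al (sn_nrm F ha) hn i⟩
  obtain ⟨b3, e3, s3⟩ := pert F h2 hb.1 y fun i => ⟨_, inv_ne_zero (hc i),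
    claim be (sn_nrm F hb) hn' i⟩
  have h12 : b2 = b1 := Module.Basis.eq_of_apply_eq fun i => by rw [e2, e1]
  have h13 : b3 = b1 := Module.Basis.eq_of_apply_eq fun i => by rw [e3, e1]
  refine ⟨b1, ?_, s1, h12 ▸ s2, h13 ▸ s3⟩
  rw [Set.Finite.mem_toFinset]
  intro i
  rw [e1]
  exact hy i

end

end H31NA
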