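import Pool.Agent.H31.NA.GF

set_option autoImplicit false

/-!
# Row GY (MP_b319aa_NA, block G): limits of splittable norms

PROOFS.
* classes: call x, y congruent if f x - f y ∈ wZ.  By h a finite set with pairwise non congruent elements has at most m elements; take such a set s of maximal cardinality (Nat.findGreatest, or
  Nat.find of an upper bound, or: by contradiction with strong induction; the empty set is one).  T := f '' s.  If some x were congruent to no element of s then insert x s would be a larger one (x ∉ s since x is congruent to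
  itself; congruence is symmetric: n ↦ -n).
* lim_few: by contradiction.  Let s be a finite set of vectors ≠ 0 with more than m = finrank K V elements such that be x - be y ∉ wZ for all x ≠ y in s.  The set {n w : n ∈ Z} is closed in R (it is the range of a
  closed embedding, or AddSubgroup.zmultiples w: use AddSubgroup.isClosed_of_discrete, or elementary: |t - n w| ≥ eps for all n, where eps = the distance of t to the two neighbouring multiples), so for each pair
  eventually al n x - al n y ∉ wZ; finitely many pairs: there is n with this for all pairs (eventually_all_finset, Filter.Eventually.exists).  But al n is split by a basis b : Bs K V: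
  al n x = al n (b i) + k w for some i = i(x) (GB.spl_val), and by the pigeonhole principle (Finset.exists_ne_map_eq_of_card_lt_of_maps_to) i(x) = i(y) for some x ≠ y in s: al n x - al n y ∈ wZ.
* lim_nrm: pass to the limit in the three conditions (tendsto_nhds_unique, le_of_tendsto_of_tendsto, Tendsto.min).
* lim_sn: classes applied to X = {x : V // x ≠ 0}, f = be: a finite set T; GF.sn_of_fin with al0 = al n0 gives a basis splitting be; be 0 = 0.
-/

namespace H31NA

open H50NA Filter Topology

noncomputable section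

theorem classes {w : ℝ} {m : ℕ} {X : Type} {f : X → ℝ}
    (h : ∀ s : Finset X, m < s.card → ∃ x ∈ s, ∃ y ∈ s, x ≠ y ∧ ∃ n : ℤ, f x - f y = n * w) :
    ∃ T : Set ℝ, T.Finite ∧ ∀ x, ∃ t ∈ T, ∃ n : ℤ, f x = t + n * w := by
  classical
  set P : ℕ → Prop := fun k => ∃ s : Finset X, s.card = k ∧
    ∀ x ∈ s, ∀ y ∈ s, x ≠ y → ∀ n : ℤ, f x - f y ≠ n * w with hP
  have hle : ∀ k, P k → k ≤ m := by
    rintro k ⟨s, rfl, hs⟩
    by_contra hk
    obtain ⟨x, hx, y, hy, hxy, n, hn⟩ := h s (not_le.1 hk)
    exact hs x hx y hy hxy n hn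
  have h0 : P 0 := ⟨∅, Finset.card_empty, fun x hx => absurd hx (Finset.notMem_empty x)⟩
  have hg : P (Nat.findGreatest P m) := Nat.findGreatest_spec (Nat.zero_le m) h0
  obtain ⟨s, hs, hss⟩ := hg
  refine ⟨f '' (s : Set X), s.finite_toSet.image f, fun x => ?_⟩
  by_contra hx
  push Not at hx
  have h1 : ∀ y ∈ s, ∀ n : ℤ, f x - f y ≠ n * w := by
    intro y hy n hn
    exact hx (f y) ⟨y, hy, rfl⟩ n (by linarith)
  have h2 : x ∉ s := by
    intro hxs
    exact h1 x hxs 0 (by simp)
  have h3 : P (s.card + 1) := by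
    refine ⟨insert x s, Finset.card_insert_of_notMem h2, ?_⟩
    intro a ha b hb hab n
    rcases Finset.mem_insert.1 ha with ha' | ha'
    · rcases Finset.mem_insert.1 hb with hb' | hb'
      · exact absurd (ha'.trans hb'.symm) hab
      · rw [ha']
        exact h1 b hb' n
    · rcases Finset.mem_insert.1 hb with hb' | hb'
      · intro hn
        refine h1 a ha' (-n) ?_
        rw [hb'] at hn
        push_cast
        linarith
      · exact hss a ha' b hb' hab n
  have h4 := Nat.le_findGreatest (hle _ h3) h3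
  omega

variable {K : Type} [Field K] (F : VF K) {V : Type} [AddCommGroup V] [Module K V] [Module.Finite K V]

theorem lim_few {al : ℕ → V → ℝ} (h : ∀ n, SN F (al n)) {be : V → ℝ}
    (hu : ∀ x, Tendsto (fun n => al n x) atTop (𝓝 (be x))) (s : Finset V)
    (hs : ∀ x ∈ s, x ≠ 0) (hc : Module.finrank K V < s.card) :
    ∃ x ∈ s, ∃ y ∈ s, x ≠ y ∧ ∃ n : ℤ, be x - be y = n * F.w := by
  classical
  by_contra hcon
  push Not at hcon
  have hw := F.wpos
  have hcl : IsClosed ((fun t : ℝ => t / F.w) ⁻¹' Set.range ((↑) : ℤ → ℝ)) :=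
    Int.isClosedEmbedding_coe_real.isClosed_range.preimage (continuous_id.div_const F.w)
  have hmem : ∀ t : ℝ, t ∈ (fun t : ℝ => t / F.w) ⁻¹' Set.range ((↑) : ℤ → ℝ) ↔
      ∃ n : ℤ, t = n * F.w := by
    intro t
    constructor
    · rintro ⟨n, hn⟩
      exact ⟨n, by rw [hn, div_mul_cancel₀ _ hw.ne']⟩
    · rintro ⟨n, rfl⟩
      exact ⟨n, (mul_div_cancel_right₀ _ hw.ne').symm⟩
  have hev : ∀ᶠ k in atTop, ∀ p ∈ s ×ˢ s, p.1 ≠ p.2 → ∀ n : ℤ, al k p.1 - al k p.2 ≠ n * F.w := by
    rw [Filter.eventually_all_finset]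
    rintro ⟨x, y⟩ hp
    by_cases hxy : x = y
    · exact Filter.Eventually.of_forall fun k hk => absurd hxy hk
    · have h1 : be x - be y ∈ ((fun t : ℝ => t / F.w) ⁻¹' Set.range ((↑) : ℤ → ℝ))ᶜ := by
        intro hm
        obtain ⟨n, hn⟩ := (hmem _).1 hm
        exact hcon x (Finset.mem_product.1 hp).1 y (Finset.mem_product.1 hp).2 hxy n hn
      have h2 := ((hu x).sub (hu y)).eventually (hcl.isOpen_compl.mem_nhds h1)
      filter_upwards [h2] with k hk _ n hn
      exact hk ((hmem _).2 ⟨n, hn⟩)
  obtain ⟨k, hk⟩ := hev.exists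
  obtain ⟨-, b, hb⟩ := h k
  have hval : ∀ x : V, ∃ i, x ≠ 0 → ∃ n : ℤ, al k x = al k (b i) + n * F.w := by
    intro x
    by_cases hx : x = 0
    · obtain ⟨y, hy⟩ : s.Nonempty := Finset.card_pos.1 (by omega)
      obtain ⟨i, -⟩ := spl_val F hb (hs y hy)
      exact ⟨i, fun h => absurd hx h⟩
    · obtain ⟨i, hi⟩ := spl_val F hb hx
      exact ⟨i, fun _ => hi⟩
  choose g hg using hval
  obtain ⟨x, hx, y, hy, hxy, hgxy⟩ := Finset.exists_ne_map_eq_of_card_lt_of_maps_to
    (s := s) (t := Finset.univ) (f := g) (by rwa [Finset.card_univ, Fintype.card_fin])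
    (fun a _ => Finset.mem_coe.2 (Finset.mem_univ _))
  obtain ⟨n, hn⟩ := hg x (hs x hx)
  obtain ⟨n', hn'⟩ := hg y (hs y hy)
  refine hk (x, y) (Finset.mem_product.2 ⟨hx, hy⟩) hxy (n - n') ?_
  change al k x - al k y = _
  rw [hn, hn', hgxy]
  push_cast
  ring

theorem lim_nrm {al : ℕ → V → ℝ} (h : ∀ n, SN F (al n)) {be : V → ℝ}
    (hu : ∀ x, Tendsto (fun n => al n x) atTop (𝓝 (be x))) : Nrm F be := by
  have hn : ∀ n, Nrm F (al n) := fun n => sn_nrm F (h n)
  constructor
  · have h1 : (fun n => al n 0) = fun _ => (0 : ℝ) := funext fun n => (hn n).zero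
    have h2 := hu 0
    rw [h1] at h2
    exact tendsto_nhds_unique h2 tendsto_const_nhds
  · intro c x hc hx
    have h1 : (fun n => al n (c • x)) = fun n => F.v c + al n x :=
      funext fun n => (hn n).smul c x hc hx
    have h2 := hu (c • x)
    rw [h1] at h2
    exact tendsto_nhds_unique h2 (tendsto_const_nhds.add (hu x))
  · intro x y hx hy hxy
    exact le_of_tendsto_of_tendsto' ((hu x).min (hu y)) (hu (x + y))
      fun n => (hn n).add x y hx hy hxy

theorem lim_sn {al : ℕ → V → ℝ} (h : ∀ n, SN F (al n)) {be : V → ℝ}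
    (hu : ∀ x, Tendsto (fun n => al n x) atTop (𝓝 (be x))) (n0 : ℕ) (C : ℝ)
    (hC : ∀ x : V, x ≠ 0 → |be x - al n0 x| ≤ C) : SN F be := by
  classical
  obtain ⟨T, hT, hv⟩ := classes (w := F.w) (m := Module.finrank K V) (X := {x : V // x ≠ 0})
    (f := fun x => be x.1) (by
      intro s hs
      obtain ⟨x, hx, y, hy, hxy, n, hn⟩ := lim_few F h hu (s.map (Function.Embedding.subtype _))
        (by
          intro x hx
          obtain ⟨x', -, rfl⟩ := Finset.mem_map.1 hx
          exact x'.2)
        (by rwa [Finset.card_map])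
      obtain ⟨x', hx', rfl⟩ := Finset.mem_map.1 hx
      obtain ⟨y', hy', rfl⟩ := Finset.mem_map.1 hy
      exact ⟨x', hx', y', hy', fun h => hxy (by rw [h]), n, hn⟩)
  have hn := lim_nrm F h hu
  obtain ⟨b, -, hb⟩ := sn_of_fin F hn (h n0) hT (fun x hx => hv ⟨x, hx⟩) C hC
  exact ⟨hn.zero, b, hb⟩

end

end H31NA
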