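import Pool.Agent.H31.NA.GJ
import Pool.Agent.H31.NA.GK
import Pool.Agent.H31.NA.GN

set_option autoImplicit false

/-!
# Row GZ (MP_b319aa_NA, block G): transport by a linear isomorphism

a : V ≃ₗ[K] V', tr a al := al ∘ a.symm.

PROOFS.
* tr_spl: (b.map a).repr x = b.repr (a.symm x), (b.map a) i = a (b i), a.symm (a (b i)) = b i, x ≠ 0 iff a.symm x ≠ 0.
* tr_nrm: immediate (a.symm is linear and injective).  tr_sn: tr_spl and GC.sn_of (index type Fin (finrank K V)).
* tr_ds, tr_rd: common basis b of al, be (GF.common); b.map a is a common basis of tr a al, tr a be with the same values; GJ.ds_gen (compare squares, GJ.ds_nn), GJ.rd_gen.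
* tr_gmf: both sides are split by b.map a with the same values (GK.gmf_gen, tr_spl); GB.spl_ext; at 0: GK.gmf_at_zero.
* tr_trl: funext; cases x = 0.
* tr_rs: a.submoduleMap W : W ≃ₗ W.map a; (a.submoduleMap W).symm y is the element a.symm y of W (LinearEquiv.submoduleMap_symm_apply): funext.
* tr_rs_rd, tr_rs_ds: tr_rs and tr_rd / tr_ds for the isomorphism a.submoduleMap W (rs W al splittable: hypothesis).
* tr_osm: funext x = a z: at 0 both vanish; otherwise the sets {b | cpt .. ≠ 0} and the values agree by GM.cpt_map (x = a (a.symm x)).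
* tr_spd: by GM.cpt_map; x = a z with z ≠ 0.
-/

namespace H31NA

open H50NA

noncomputable section

variable {K : Type} [Field K] (F : VF K) {V : Type} [AddCommGroup V] [Module K V]
variable {V' : Type} [AddCommGroup V'] [Module K V']

/-- transport of a function by a linear isomorphism -/
def tr (a : V ≃ₗ[K] V') (al : V → ℝ) : V' → ℝ := fun x => al (a.symm x)

@[simp] private theorem GZ_app (a : V ≃ₗ[K] V') (al : V → ℝ) (x : V) : tr a al (a x) = al x := by
  unfold tr
  rw [LinearEquiv.symm_apply_apply]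

private theorem GZ_bas (a : V ≃ₗ[K] V') {ι : Type} (b : Module.Basis ι K V) (al : V → ℝ) (i : ι) :
    tr a al (b.map a i) = al (b i) := by
  rw [Module.Basis.map_apply, GZ_app]

theorem tr_spl (a : V ≃ₗ[K] V') {ι : Type} {b : Module.Basis ι K V} {al : V → ℝ}
    (h : Spl F b al) : Spl F (b.map a) (tr a al) := by
  intro x hx
  have hx' : a.symm x ≠ 0 := fun h0 => hx (a.symm.map_eq_zero_iff.1 h0)
  have e : ∀ i, (b.map a).repr x i = b.repr (a.symm x) i := fun i => rfl
  simp only [e, GZ_bas]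
  exact h (a.symm x) hx'

theorem tr_nrm (a : V ≃ₗ[K] V') {al : V → ℝ} (h : Nrm F al) : Nrm F (tr a al) := by
  have hne : ∀ x : V', x ≠ 0 → a.symm x ≠ 0 := fun x hx h0 => hx (a.symm.map_eq_zero_iff.1 h0)
  refine ⟨?_, fun c x hc hx => ?_, fun x y hx hy hxy => ?_⟩
  · unfold tr
    rw [map_zero, h.zero]
  · unfold tr
    rw [map_smul]
    exact h.smul c _ hc (hne x hx)
  · unfold tr
    rw [map_add]
    refine h.add _ _ (hne x hx) (hne y hy) ?_
    rw [← map_add]
    exact hne _ hxy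

theorem tr_sn (a : V ≃ₗ[K] V') {al : V → ℝ} (h : SN F al) : SN F (tr a al) := by
  obtain ⟨h0, b, hb⟩ := h
  refine sn_of F (b.map a) (tr_spl F a hb) ?_
  unfold tr
  rw [map_zero, h0]

theorem tr_trl (a : V ≃ₗ[K] V') (al : V → ℝ) (c : ℝ) : tr a (trl al c) = trl (tr a al) c := by
  funext x
  by_cases hx : x = 0
  · subst hx
    rw [trl_zero]
    unfold tr
    rw [map_zero, trl_zero]
  · have hx' : a.symm x ≠ 0 := fun h0 => hx (a.symm.map_eq_zero_iff.1 h0)
    rw [trl_apply _ c hx]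
    unfold tr
    rw [trl_apply _ c hx']

theorem tr_rs (a : V ≃ₗ[K] V') (W : Submodule K V) (al : V → ℝ) :
    rs (W.map (a : V →ₗ[K] V')) (tr a al) = tr (a.submoduleMap W) (rs W al) := by
  funext x
  obtain ⟨z, rfl⟩ := (a.submoduleMap W).surjective x
  rw [GZ_app]
  show al (a.symm (a z)) = al z
  rw [LinearEquiv.symm_apply_apply]

variable [Module.Finite K V] [Module.Finite K V']

theorem tr_ds (a : V ≃ₗ[K] V') {al be : V → ℝ} (ha : SN F al) (hb : SN F be) :
    ds F (tr a al) (tr a be) = ds F al be := by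
  obtain ⟨b, h1, h2⟩ := common F ha hb
  rw [← abs_of_nonneg (ds_nn F (tr a al) (tr a be)), ← abs_of_nonneg (ds_nn F al be),
    ← sq_eq_sq_iff_abs_eq_abs, ds_gen F (tr_spl F a h1) (tr_spl F a h2), ds_gen F h1 h2]
  refine Finset.sum_congr rfl fun i _ => ?_
  rw [GZ_bas, GZ_bas]

theorem tr_rd (a : V ≃ₗ[K] V') {al be : V → ℝ} (ha : SN F al) (hb : SN F be) :
    rd F (tr a al) (tr a be) = rd F al be := by
  obtain ⟨b, h1, h2⟩ := common F ha hb
  rw [rd_gen F (tr_spl F a h1) (tr_spl F a h2), rd_gen F h1 h2]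
  refine Finset.sum_congr rfl fun i _ => ?_
  rw [GZ_bas, GZ_bas]

theorem tr_gmf (a : V ≃ₗ[K] V') {al be : V → ℝ} (ha : SN F al) (hb : SN F be) {t : ℝ}
    (h0 : 0 ≤ t) (h1 : t ≤ 1) : gmf F (tr a al) (tr a be) t = tr a (gmf F al be t) := by
  obtain ⟨b, h2, h3⟩ := common F ha hb
  obtain ⟨g1, g2⟩ := gmf_gen F (tr_spl F a h2) (tr_spl F a h3) h0 h1
  obtain ⟨g3, g4⟩ := gmf_gen F h2 h3 h0 h1
  refine spl_ext F g1 (tr_spl F a g3) ?_ fun i => ?_
  · rw [gmf_at_zero F (tr_sn F a ha)]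
    unfold tr
    rw [map_zero, gmf_at_zero F ha]
  · rw [g2 i, GZ_bas, GZ_bas, GZ_bas, g4 i]

theorem tr_rs_rd (a : V ≃ₗ[K] V') (W : Submodule K V) {al be : V → ℝ} (ha : SN F (rs W al))
    (hb : SN F (rs W be)) : rd F (rs (W.map (a : V →ₗ[K] V')) (tr a al))
      (rs (W.map (a : V →ₗ[K] V')) (tr a be)) = rd F (rs W al) (rs W be) := by
  rw [tr_rs, tr_rs]
  exact tr_rd F (a.submoduleMap W) ha hb

theorem tr_rs_ds (a : V ≃ₗ[K] V') (W : Submodule K V) {al be : V → ℝ} (ha : SN F (rs W al))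
    (hb : SN F (rs W be)) : ds F (rs (W.map (a : V →ₗ[K] V')) (tr a al))
      (rs (W.map (a : V →ₗ[K] V')) (tr a be)) = ds F (rs W al) (rs W be) := by
  rw [tr_rs, tr_rs]
  exact tr_ds F (a.submoduleMap W) ha hb

omit [Module.Finite K V] [Module.Finite K V'] in
theorem tr_osm {N : ℕ} {E : Fin N → Submodule K V} (hE : DirectSum.IsInternal E)
    (a : V ≃ₗ[K] V') (al : V → ℝ) :
    osm (fun b => (E b).map (a : V →ₗ[K] V')) (tr a al) = tr a (osm E al) := by
  funext x
  obtain ⟨z, rfl⟩ := a.surjective x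
  rw [GZ_app]
  by_cases hz : z = 0
  · subst hz
    rw [map_zero, osm_zero, osm_zero]
  · have hz' : a z ≠ 0 := fun h0 => hz (a.map_eq_zero_iff.1 h0)
    unfold osm
    rw [if_neg hz, if_neg hz']
    simp only [cpt_map hE, GZ_app, ne_eq, LinearEquiv.map_eq_zero_iff]

omit [Module.Finite K V] [Module.Finite K V'] in
theorem tr_spd {N : ℕ} {E : Fin N → Submodule K V} (hE : DirectSum.IsInternal E)
    (a : V ≃ₗ[K] V') (al : V → ℝ) :
    SpD (fun b => (E b).map (a : V →ₗ[K] V')) (tr a al) ↔ SpD E al := by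
  constructor
  · intro h z hz
    have hz' : a z ≠ 0 := fun h0 => hz (a.map_eq_zero_iff.1 h0)
    have h1 := h (a z) hz'
    simp only [cpt_map hE, GZ_app, ne_eq, LinearEquiv.map_eq_zero_iff] at h1
    exact h1
  · intro h x hx
    obtain ⟨z, rfl⟩ := a.surjective x
    have hz : z ≠ 0 := fun h0 => hx (by rw [h0, map_zero])
    simp only [cpt_map hE, GZ_app, ne_eq, LinearEquiv.map_eq_zero_iff]
    exact h z hz

end

end H31NA
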